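import Pool.Agent.Work.MP_0f91f8_co.US.Stmts2
import Pool.Agent.Work.MP_0f91f8_co.U3.All

/-! item [Ak0] of block US -/

set_option autoImplicit false

namespace Pool.Agent.US

open Pool.Agent.U3
open scoped ComplexConjugate

theorem us_Ak0 : StAk0 := by
  intro f hf ha H hH δ hδ
  obtain ⟨N0, hN0⟩ := u_Kat f hf ha (min δ 1 / 2) (by positivity)
  refine ⟨max N0 1, fun N hN A B hA hB R hR hR2 => ?_⟩
  have hN1 : 1 ≤ N := le_trans (le_max_right _ _) hN
  have hN2 : N0 ≤ N := le_trans (le_max_left _ _) hN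
  have hNr : (0 : ℝ) < N := by exact_mod_cast hN1
  have hRe : R = ∅ := by
    by_contra hne
    obtain ⟨r, hr⟩ := Finset.nonempty_iff_ne_empty.mpr hne
    obtain ⟨a, haa⟩ := hR2 r hr
    have hk := hN0 N hN2 A B (-a) hA hB
    have hEq : CK 0 (ct f A B) A B (fun i => H i * r i) a
        = ∑ m ∈ Finset.Icc A B, f m * ee (-a * m) := by
      unfold CK
      refine Finset.sum_congr rfl fun n hn => ?_
      have : DK 0 (ct f A B) (fun i => H i * r i) n = f n := by
        show ct f A B n = f n
        unfold ct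
        rw [if_pos hn]
      rw [this]
      congr 2
      ring
    rw [hEq] at haa
    have h1 : min δ 1 ≤ δ := min_le_left _ _
    nlinarith [mul_le_mul_of_nonneg_right h1 hNr.le, mul_pos hδ hNr]
  rw [hRe]
  simp only [Finset.card_empty, Nat.cast_zero, pow_zero, mul_one]
  exact hδ

end Pool.Agent.US
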