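import Pool.Agent.Work.MP_0f91f8_co.US.Stmts2
import Pool.Agent.Work.MP_0f91f8_co.U3.I_TK

set_option autoImplicit false

namespace Pool.Agent.US

open Pool.Agent.U3
open scoped ComplexConjugate Classical

theorem bad_ee (x : ℝ) : ‖ee x‖ = 1 := by
  unfold ee
  have : (2 * Real.pi * Complex.I * x : ℂ) = ((2 * Real.pi * x : ℝ) : ℂ) * Complex.I := by
    push_cast; ring
  rw [this, Complex.norm_exp_ofReal_mul_I]

theorem us_Bad (hB : StBas) (hD : StDil) : StBad := by
  intro Ps hPs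
  obtain ⟨N0, hN0⟩ := U3.pr_TK Ps hPs
  refine ⟨max N0 1, fun N hN f hf k A B h w δ hk hδ hA hB' hdiv hbig => ?_⟩
  have hN1 : 1 ≤ N := le_trans (le_max_right _ _) hN
  have hN0' : N0 ≤ N := le_trans (le_max_left _ _) hN
  have hNr : (0 : ℝ) < N := by exact_mod_cast hN1
  have hSp : Sp (ct f A B) A B := by
    refine ⟨fun n => ?_, fun n hn => ?_⟩
    · unfold ct
      split_ifs
      · by_cases h0 : n = 0
        · rw [h0, hf.zero]; simp
        · exact (hf.nrm n h0).le
      · simp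
    · unfold ct
      rw [if_neg hn]
  have hSpD := hB.2.1 k (ct f A B) h A B hSp
  set F : ℤ → ℂ := fun n => DK k (ct f A B) h n * ee (-(w * n)) with hF
  have hFn : ∀ n, ‖F n‖ ≤ 1 := by
    intro n
    simp only [hF]
    rw [norm_mul, bad_ee, mul_one]
    exact hSpD.1 n
  have hF0 : ∀ n, n ∉ Finset.Icc A B → F n = 0 := by
    intro n hn
    simp only [hF]
    rw [hSpD.2 n hn, zero_mul]
  have hsub : Finset.Icc A B ⊆ Finset.Icc (-(N : ℤ)) N := Finset.Icc_subset_Icc hA hB'
  have hsum : ∑ n ∈ Finset.Icc (-(N : ℤ)) N, F n = CK k (ct f A B) A B h w := by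
    unfold CK
    exact (Finset.sum_subset hsub (fun n _ hn => hF0 n hn)).symm
  have hsumq : ∀ q ∈ Ps, ∑ n ∈ (Finset.Icc (-(N : ℤ)) N).filter (fun n => (q : ℤ) ∣ n), F n =
      CK k (ct f (cl A q) (B / q)) (cl A q) (B / q) (fun i => h i / q) (q * w) := by
    intro q hq
    rw [← hD f hf k q A B h w hk (hPs q hq).one_lt.le (hdiv q hq)]
    refine (Finset.sum_subset (Finset.filter_subset_filter _ hsub) (fun n hn hn' => ?_)).symm
    apply hF0
    intro hc
    exact hn' (Finset.mem_filter.mpr ⟨hc, (Finset.mem_filter.mp hn).2⟩)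
  have hTK := hN0 N hN0' F hFn
  rw [hsum] at hTK
  set bad : Finset ℕ := Ps.filter (fun q => ‖CK k (ct f (cl A q) (B / q)) (cl A q) (B / q)
        (fun i => h i / q) (q * w)‖ < δ / 2 * N / q) with hbad
  have h1 : ∑ q ∈ bad, 1 / (q : ℝ) * (δ / 2 * N) ^ 2 ≤ 16 * (N : ℝ) ^ 2 := by
    refine le_trans ?_ hTK
    refine le_trans (Finset.sum_le_sum ?_) (Finset.sum_le_sum_of_subset_of_nonneg
      (Finset.filter_subset _ _) (fun q _ _ => by positivity))
    intro q hq
    obtain ⟨hqP, hqb⟩ := Finset.mem_filter.mp hq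
    rw [hsumq q hqP]
    have hq0 : (0 : ℝ) < q := by exact_mod_cast (hPs q hqP).pos
    refine mul_le_mul_of_nonneg_left ?_ (by positivity)
    refine pow_le_pow_left₀ (by positivity) ?_ 2
    have e1 : ‖(q : ℂ) * CK k (ct f (cl A q) (B / q)) (cl A q) (B / q)
        (fun i => h i / q) (q * w)‖ < δ / 2 * N := by
      rw [norm_mul, Complex.norm_natCast]
      rw [lt_div_iff₀ hq0] at hqb
      linarith
    have e2 := norm_sub_norm_le (CK k (ct f A B) A B h w) ((q : ℂ) * CK k (ct f (cl A q) (B / q)) (cl A q) (B / q)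
        (fun i => h i / q) (q * w))
    rw [norm_sub_rev] at e2
    linarith
  rw [← Finset.sum_mul] at h1
  rw [le_div_iff₀ (by positivity)]
  have h2 : (∑ q ∈ bad, 1 / (q : ℝ)) * δ ^ 2 * (N : ℝ) ^ 2 ≤ 64 * (N : ℝ) ^ 2 := by
    nlinarith
  exact le_of_mul_le_mul_right h2 (by positivity)

end Pool.Agent.US
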