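import Pool.Agent.Work.MP_0f91f8_co.US.Stmts

/-!
# Block US, item Can: the cancellation
-/

set_option autoImplicit false

namespace Pool.Agent.US

open Pool.Agent.U3
open scoped ComplexConjugate Classical

namespace ICan

/-- The point of the corner `u` and the set `E`. -/
def pt (k : ℕ) (q : Fin k → ℤ) (t : ℤ) (a : (Fin k → Bool) → ℤ) (u : Fin k → Bool)
    (E : Finset (Fin k → Bool)) : Fin k → ℤ :=
  fun i => (q i - ∑ s ∈ E, if s i then a s else 0) + if u i then t + ∑ s ∈ E, a s else 0

theorem pt_insert (k : ℕ) (q : Fin k → ℤ) (t : ℤ) (a : (Fin k → Bool) → ℤ) (u : Fin k → Bool)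
    (E : Finset (Fin k → Bool)) (hu : u ∉ E) :
    pt k q t a u (insert u E) = pt k q t a u E := by
  funext i
  unfold pt
  rw [Finset.sum_insert hu, Finset.sum_insert hu]
  by_cases h : u i = true
  · simp only [h, if_true]
    ring
  · simp only [h]
    simp

/-- Toggling `u`. -/
def tg {α : Type} [DecidableEq α] (u : α) (E : Finset α) : Finset α :=
  if u ∈ E then E.erase u else insert u E

theorem tg_tg {α : Type} [DecidableEq α] (u : α) (E : Finset α) : tg u (tg u E) = E := by
  unfold tg
  by_cases h : u ∈ E
  · rw [if_pos h, if_neg (Finset.notMem_erase u E), Finset.insert_erase h]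
  · rw [if_neg h, if_pos (Finset.mem_insert_self u E), Finset.erase_insert h]

theorem tg_ne {α : Type} [DecidableEq α] (u : α) (E : Finset α) : tg u E ≠ E := by
  intro h
  unfold tg at h
  by_cases hu : u ∈ E
  · rw [if_pos hu] at h
    rw [← h] at hu
    exact Finset.notMem_erase u E hu
  · rw [if_neg hu] at h
    exact hu (h ▸ Finset.mem_insert_self u E)

theorem cancel (k : ℕ) (W : (Fin k → ℤ) → ℝ) (q : Fin k → ℤ) (t : ℤ)
    (a : (Fin k → Bool) → ℤ) (u : Fin k → Bool) :
    ∑ E : Finset (Fin k → Bool), (-1 : ℝ) ^ E.card * W (pt k q t a u E) = 0 := by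
  refine Finset.sum_involution (fun E _ => tg u E) ?_ ?_ ?_ ?_
  · intro E _
    by_cases h : u ∈ E
    · have h1 : tg u E = E.erase u := if_pos h
      have h2 : E = insert u (E.erase u) := (Finset.insert_erase h).symm
      have h3 : pt k q t a u E = pt k q t a u (E.erase u) := by
        conv_lhs => rw [h2]
        exact pt_insert k q t a u _ (Finset.notMem_erase u E)
      have h4 : E.card = (E.erase u).card + 1 := (Finset.card_erase_add_one h).symm
      rw [h1, h3, h4, pow_succ]
      ring
    · have h1 : tg u E = insert u E := if_neg h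
      rw [h1, pt_insert k q t a u E h, Finset.card_insert_of_notMem h, pow_succ]
      ring
  · intro E _ _
    exact tg_ne u E
  · intro E _
    exact Finset.mem_univ _
  · intro E _
    exact tg_tg u E

end ICan

theorem us_Can : StCan := by
  intro k W q t a
  have h1 : ∀ E : Finset (Fin k → Bool), (-1 : ℝ) ^ E.card * ∑ u : Fin k → Bool, sg u *
      W (fun i => (q i - ∑ s ∈ E, if s i then a s else 0) +
        if u i then t + ∑ s ∈ E, a s else 0) =
      ∑ u : Fin k → Bool, sg u * ((-1 : ℝ) ^ E.card * W (ICan.pt k q t a u E)) := by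
    intro E
    rw [Finset.mul_sum]
    refine Finset.sum_congr rfl fun u _ => ?_
    unfold ICan.pt
    ring
  rw [Finset.sum_congr rfl (fun E _ => h1 E), Finset.sum_comm]
  refine Finset.sum_eq_zero fun u _ => ?_
  rw [← Finset.mul_sum, ICan.cancel, mul_zero]

end Pool.Agent.US
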