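import Pool.Agent.Work.MP_0f91f8_co.US.Stmts

/-!
# Block US, item Clo: two intervals which are almost equal
-/

set_option autoImplicit false

namespace Pool.Agent.US

open Pool.Agent.U3
open scoped ComplexConjugate Classical

namespace IClo

theorem norm_ee (x : ℝ) : ‖ee x‖ = 1 := by
  unfold ee
  rw [Complex.norm_exp]
  simp

theorem sp_ct (f : ℤ → ℂ) (hf : ∀ n, ‖f n‖ ≤ 1) (A B : ℤ) : Sp (ct f A B) A B := by
  constructor
  · intro n
    unfold ct
    split_ifs
    · exact hf n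
    · simp
  · intro n hn
    unfold ct
    rw [if_neg hn]

/-- the sum over a larger interval -/
theorem extend (F : ℤ → ℂ) (A B : ℤ) (hF : ∀ n, n ∉ Finset.Icc A B → F n = 0) (U : Finset ℤ)
    (hU : Finset.Icc A B ⊆ U) (g : ℤ → ℂ) :
    ∑ n ∈ Finset.Icc A B, F n * g n = ∑ n ∈ U, F n * g n :=
  Finset.sum_subset hU fun n _ hn => by rw [hF n hn, zero_mul]

end IClo

theorem us_Clo (hB : StBas) : StClo := by
  obtain ⟨-, hSp, -, hag, -, -⟩ := hB
  intro f hf k E A1 B1 A2 B2 h a hA hB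
  have s1 := hSp k _ h A1 B1 (IClo.sp_ct f hf A1 B1)
  have s2 := hSp k _ h A2 B2 (IClo.sp_ct f hf A2 B2)
  obtain ⟨S', hc, hS'⟩ := hag k (ct f A1 B1) (ct f A2 B2) h
    (Finset.Ico (min A1 A2) (max A1 A2) ∪ Finset.Ioc (min B1 B2) (max B1 B2)) (by
      intro n hn
      rw [Finset.mem_union, not_or, Finset.mem_Ico, Finset.mem_Ioc] at hn
      have e : (n ∈ Finset.Icc A1 B1) ↔ (n ∈ Finset.Icc A2 B2) := by
        rw [Finset.mem_Icc, Finset.mem_Icc]
        omega
      unfold ct
      by_cases h1 : n ∈ Finset.Icc A1 B1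
      · rw [if_pos h1, if_pos (e.1 h1)]
      · rw [if_neg h1, if_neg (fun h2 => h1 (e.2 h2))])
  have hcard : ((Finset.Ico (min A1 A2) (max A1 A2) ∪
      Finset.Ioc (min B1 B2) (max B1 B2)).card : ℤ) ≤ 2 * E := by
    have h1 := Finset.card_union_le (Finset.Ico (min A1 A2) (max A1 A2))
      (Finset.Ioc (min B1 B2) (max B1 B2))
    rw [Int.card_Ico, Int.card_Ioc] at h1
    rw [abs_le] at hA hB
    have h2 : max A1 A2 - min A1 A2 ≤ E := by omega
    have h3 : max B1 B2 - min B1 B2 ≤ E := by omega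
    omega
  have hS'c : (S'.card : ℝ) ≤ 2 ^ k * (2 * E) := by
    have h1 : (S'.card : ℝ) ≤ 2 ^ k * ((Finset.Ico (min A1 A2) (max A1 A2) ∪
      Finset.Ioc (min B1 B2) (max B1 B2)).card : ℝ) := by exact_mod_cast hc
    have h2 : ((Finset.Ico (min A1 A2) (max A1 A2) ∪
      Finset.Ioc (min B1 B2) (max B1 B2)).card : ℝ) ≤ 2 * E := by exact_mod_cast hcard
    exact h1.trans (mul_le_mul_of_nonneg_left h2 (by positivity))
  have hU1 : Finset.Icc A1 B1 ⊆ Finset.Icc (min A1 A2) (max B1 B2) :=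
    Finset.Icc_subset_Icc (min_le_left _ _) (le_max_left _ _)
  have hU2 : Finset.Icc A2 B2 ⊆ Finset.Icc (min A1 A2) (max B1 B2) :=
    Finset.Icc_subset_Icc (min_le_right _ _) (le_max_right _ _)
  unfold CK
  rw [IClo.extend _ A1 B1 s1.2 _ hU1, IClo.extend _ A2 B2 s2.2 _ hU2, ← Finset.sum_sub_distrib]
  refine (norm_sum_le _ _).trans ?_
  calc ∑ n ∈ Finset.Icc (min A1 A2) (max B1 B2),
        ‖DK k (ct f A1 B1) h n * ee (-(a * n)) - DK k (ct f A2 B2) h n * ee (-(a * n))‖
      ≤ ∑ n ∈ Finset.Icc (min A1 A2) (max B1 B2), if n ∈ S' then (2 : ℝ) else 0 := by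
        refine Finset.sum_le_sum fun n _ => ?_
        rw [← sub_mul, norm_mul, IClo.norm_ee, mul_one]
        split_ifs with hn
        · refine (norm_sub_le _ _).trans ?_
          have h1 := s1.1 n
          have h2 := s2.1 n
          linarith
        · rw [hS' n hn, sub_self, norm_zero]
    _ = 2 * ((Finset.Icc (min A1 A2) (max B1 B2)).filter (fun n => n ∈ S')).card := by
        rw [← Finset.sum_filter, Finset.sum_const, nsmul_eq_mul, mul_comm]
    _ ≤ 2 * S'.card := by
        have h1 : ((Finset.Icc (min A1 A2) (max B1 B2)).filter (fun n => n ∈ S')).card ≤ S'.card :=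
          Finset.card_le_card fun n hn => (Finset.mem_filter.1 hn).2
        have h2 : (((Finset.Icc (min A1 A2) (max B1 B2)).filter (fun n => n ∈ S')).card : ℝ) ≤
          S'.card := by exact_mod_cast h1
        linarith
    _ ≤ 2 * (2 ^ k * (2 * E)) := by linarith
    _ = 2 ^ (k + 2) * E := by ring

end Pool.Agent.US
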