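import Pool.Agent.Work.MP_0f91f8_co.US.Stmts2

set_option autoImplicit false

namespace Pool.Agent.US

open Pool.Agent.U3 Finset

namespace ICnt

/-- the box `[0,T)^k` -/
noncomputable def Qb (k T : ℕ) : Finset (Fin k → ℤ) := Fintype.piFinset fun _ => Finset.Ico (0 : ℤ) T

theorem card_Qb (k T : ℕ) : (Qb k T).card = T ^ k := by
  unfold Qb
  rw [Fintype.card_piFinset_const, Int.card_Ico]
  simp

theorem card_bk (k X : ℕ) : (bk k X).card = (2 * X + 1) ^ k := by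
  unfold bk
  rw [Fintype.card_piFinset_const, Int.card_Icc]
  congr 1
  omega

theorem mem_bk {k X : ℕ} {x : Fin k → ℤ} : x ∈ bk k X ↔ ∀ i, |x i| ≤ X := by
  unfold bk
  rw [Fintype.mem_piFinset]
  refine forall_congr' fun i => ?_
  rw [Finset.mem_Icc, abs_le]

theorem mem_Qb {k T : ℕ} {x : Fin k → ℤ} : x ∈ Qb k T ↔ ∀ i, 0 ≤ x i ∧ x i < T := by
  unfold Qb
  rw [Fintype.mem_piFinset]
  refine forall_congr' fun i => ?_
  rw [Finset.mem_Ico]

/-- the good `(q, t)` for `(x, d)` -/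
noncomputable def Sx {k : ℕ} (T : ℕ) (Pn : Finset ℕ) (Gt : ℕ → Finset ((Fin k → ℤ) × (Fin k → ℤ)))
    (x d : Fin k → ℤ) : Finset ((Fin k → ℤ) × ℕ) :=
  (Qb k T ×ˢ Pn).filter fun p => ((fun i => x i + p.1 i * d i), d) ∈ Gt p.2

theorem card_Sx_le {k : ℕ} (T : ℕ) (Pn : Finset ℕ)
    (Gt : ℕ → Finset ((Fin k → ℤ) × (Fin k → ℤ))) (x d : Fin k → ℤ) :
    (Sx T Pn Gt x d).card ≤ T ^ k * Pn.card := by
  unfold Sx
  refine (Finset.card_filter_le _ _).trans ?_
  rw [Finset.card_product, card_Qb]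

theorem one {k T X D : ℕ} (G : Finset ((Fin k → ℤ) × (Fin k → ℤ))) (hTD : T * D ≤ X)
    (hG : ∀ p ∈ G, (∀ i, |p.1 i| ≤ X) ∧ p.2 ∈ bk k D) (q : Fin k → ℤ) (hq : q ∈ Qb k T) :
    G.card ≤ ((bk k D ×ˢ bk k (2 * X)).filter fun y =>
      ((fun i => y.2 i + q i * y.1 i), y.1) ∈ G).card := by
  refine Finset.card_le_card_of_injOn (fun p => (p.2, fun i => p.1 i - q i * p.2 i)) ?_ ?_
  · intro p hp
    have hp' : p ∈ G := hp
    obtain ⟨h1, h2⟩ := hG p hp'
    rw [Finset.mem_coe, Finset.mem_filter, Finset.mem_product]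
    refine ⟨⟨h2, ?_⟩, ?_⟩
    · rw [mem_bk]
      intro i
      have h3 := mem_bk.1 h2 i
      have h4 := mem_Qb.1 hq i
      have h5 := h1 i
      have h6 : |q i * p.2 i| ≤ (T : ℤ) * D := by
        rw [abs_mul]
        refine mul_le_mul ?_ h3 (abs_nonneg _) (by positivity)
        rw [abs_of_nonneg h4.1]
        exact h4.2.le
      have h7 : ((T : ℤ) * D) ≤ X := by exact_mod_cast hTD
      show |p.1 i - q i * p.2 i| ≤ ((2 * X : ℕ) : ℤ)
      have h8 := abs_sub (p.1 i) (q i * p.2 i)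
      push_cast
      linarith
    · have : ((fun i => (p.1 i - q i * p.2 i) + q i * p.2 i), p.2) = p := by
        apply Prod.ext
        · funext i
          show p.1 i - q i * p.2 i + q i * p.2 i = p.1 i
          ring
        · rfl
      show ((fun i => (p.1 i - q i * p.2 i) + q i * p.2 i), p.2) ∈ G
      rw [this]
      exact hp'
  · intro p _ p' _ h
    have h1 : p.2 = p'.2 := congrArg Prod.fst h
    have h2 : (fun i => p.1 i - q i * p.2 i) = fun i => p'.1 i - q i * p'.2 i := congrArg Prod.snd h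
    apply Prod.ext _ h1
    funext i
    have h3 := congrFun h2 i
    rw [h1] at h3
    linarith

theorem lower {k T X D : ℕ} (Pn : Finset ℕ) (Gt : ℕ → Finset ((Fin k → ℤ) × (Fin k → ℤ)))
    (hTD : T * D ≤ X)
    (hG : ∀ t ∈ Pn, ∀ p ∈ Gt t, (∀ i, |p.1 i| ≤ X) ∧ p.2 ∈ bk k D) :
    T ^ k * ∑ t ∈ Pn, (Gt t).card ≤
      ∑ d ∈ bk k D, ∑ x ∈ bk k (2 * X), (Sx T Pn Gt x d).card := by
  have h1 : ∑ d ∈ bk k D, ∑ x ∈ bk k (2 * X), (Sx T Pn Gt x d).card =
      ∑ p ∈ Qb k T ×ˢ Pn, ((bk k D ×ˢ bk k (2 * X)).filter fun y =>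
        ((fun i => y.2 i + p.1 i * y.1 i), y.1) ∈ Gt p.2).card := by
    rw [← Finset.sum_product']
    simp only [Sx, Finset.card_filter]
    rw [Finset.sum_comm]
  rw [h1]
  calc T ^ k * ∑ t ∈ Pn, (Gt t).card = ∑ p ∈ Qb k T ×ˢ Pn, (Gt p.2).card := by
        rw [Finset.sum_product]
        show _ = ∑ x ∈ Qb k T, ∑ y ∈ Pn, (Gt y).card
        rw [Finset.sum_const, card_Qb, smul_eq_mul]
    _ ≤ _ := by
        refine Finset.sum_le_sum fun p hp => ?_
        rw [Finset.mem_product] at hp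
        exact one (Gt p.2) hTD (hG p.2 hp.2) p.1 hp.1

end ICnt

open ICnt in
theorem us_Cnt : StCnt := by
  classical
  intro k T X D κ Pn Gt hT hD hTD hκ hG hcard hPn
  have hX : 1 ≤ X := by
    have : 1 * 1 ≤ T * D := Nat.mul_le_mul hT hD
    omega
  have hTr : (1 : ℝ) ≤ T := by exact_mod_cast hT
  have hXr : (1 : ℝ) ≤ X := by exact_mod_cast hX
  have hDr : (1 : ℝ) ≤ D := by exact_mod_cast hD
  have hPr : (0 : ℝ) < Pn.card := by exact_mod_cast hPn.card_pos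
  set τ : ℝ := κ / (2 * 15 ^ k) * Pn.card * (T : ℝ) ^ k with hτ
  have hτ0 : 0 < τ := by positivity
  set M : (Fin k → ℤ) → ℝ := fun d => ∑ x ∈ bk k (2 * X), ((Sx T Pn Gt x d).card : ℝ) with hM
  set E : Finset (Fin k → ℤ) := (bk k D).filter fun d => ∃ x, τ ≤ ((Sx T Pn Gt x d).card : ℝ)
    with hE
  have hb2 : ((bk k (2 * X)).card : ℝ) ≤ (5 * (X : ℝ)) ^ k := by
    rw [card_bk]
    push_cast
    exact pow_le_pow_left₀ (by positivity) (by linarith) k
  have hb1 : ((bk k D).card : ℝ) ≤ (3 * (D : ℝ)) ^ k := by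
    rw [card_bk]
    push_cast
    exact pow_le_pow_left₀ (by positivity) (by linarith) k
  -- the total
  have htot : (T : ℝ) ^ k * (Pn.card * (κ * (X : ℝ) ^ k * (D : ℝ) ^ k)) ≤ ∑ d ∈ bk k D, M d := by
    have h1 := lower Pn Gt hTD hG
    have h2 : ((T ^ k * ∑ t ∈ Pn, (Gt t).card : ℕ) : ℝ) ≤
        ((∑ d ∈ bk k D, ∑ x ∈ bk k (2 * X), (Sx T Pn Gt x d).card : ℕ) : ℝ) := by
      exact_mod_cast h1
    push_cast at h2
    refine le_trans ?_ h2
    apply mul_le_mul_of_nonneg_left _ (by positivity)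
    calc (Pn.card : ℝ) * (κ * (X : ℝ) ^ k * (D : ℝ) ^ k)
        = ∑ t ∈ Pn, (κ * (X : ℝ) ^ k * (D : ℝ) ^ k) := by
          rw [Finset.sum_const, nsmul_eq_mul]
      _ ≤ _ := Finset.sum_le_sum fun t ht => hcard t ht
  -- outside E
  have hout : ∑ d ∈ (bk k D).filter (fun d => ¬ ∃ x, τ ≤ ((Sx T Pn Gt x d).card : ℝ)), M d ≤
      (3 * (D : ℝ)) ^ k * ((5 * (X : ℝ)) ^ k * τ) := by
    calc ∑ d ∈ (bk k D).filter (fun d => ¬ ∃ x, τ ≤ ((Sx T Pn Gt x d).card : ℝ)), M d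
        ≤ ∑ d ∈ (bk k D).filter (fun d => ¬ ∃ x, τ ≤ ((Sx T Pn Gt x d).card : ℝ)),
            ((5 * (X : ℝ)) ^ k * τ) := by
          refine Finset.sum_le_sum fun d hd => ?_
          have hd2 := (Finset.mem_filter.1 hd).2
          push Not at hd2
          calc M d ≤ ∑ x ∈ bk k (2 * X), τ := Finset.sum_le_sum fun x _ => (hd2 x).le
            _ = (bk k (2 * X)).card * τ := by rw [Finset.sum_const, nsmul_eq_mul]
            _ ≤ _ := mul_le_mul_of_nonneg_right hb2 hτ0.le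
      _ = (((bk k D).filter (fun d => ¬ ∃ x, τ ≤ ((Sx T Pn Gt x d).card : ℝ))).card : ℝ) *
            ((5 * (X : ℝ)) ^ k * τ) := by rw [Finset.sum_const, nsmul_eq_mul]
      _ ≤ _ := by
          apply mul_le_mul_of_nonneg_right _ (by positivity)
          refine le_trans ?_ hb1
          exact_mod_cast Finset.card_filter_le _ _
  have hin : ∑ d ∈ E, M d ≤ (E.card : ℝ) * ((5 * (X : ℝ)) ^ k * ((T : ℝ) ^ k * Pn.card)) := by
    calc ∑ d ∈ E, M d ≤ ∑ d ∈ E, ((5 * (X : ℝ)) ^ k * ((T : ℝ) ^ k * Pn.card)) := by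
          refine Finset.sum_le_sum fun d _ => ?_
          calc M d ≤ ∑ x ∈ bk k (2 * X), ((T : ℝ) ^ k * Pn.card) := by
                refine Finset.sum_le_sum fun x _ => ?_
                exact_mod_cast card_Sx_le T Pn Gt x d
            _ = (bk k (2 * X)).card * ((T : ℝ) ^ k * Pn.card) := by
                rw [Finset.sum_const, nsmul_eq_mul]
            _ ≤ _ := mul_le_mul_of_nonneg_right hb2 (by positivity)
      _ = _ := by rw [Finset.sum_const, nsmul_eq_mul]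
  have hsplit := Finset.sum_filter_add_sum_filter_not (bk k D)
    (fun d => ∃ x, τ ≤ ((Sx T Pn Gt x d).card : ℝ)) M
  have hval : (3 * (D : ℝ)) ^ k * ((5 * (X : ℝ)) ^ k * τ) =
      (T : ℝ) ^ k * (Pn.card * (κ * (X : ℝ) ^ k * (D : ℝ) ^ k)) / 2 := by
    have h15 : (15 : ℝ) ^ k = 3 ^ k * 5 ^ k := by rw [← mul_pow]; norm_num
    rw [hτ, mul_pow, mul_pow, h15]
    have h3 : (3 : ℝ) ^ k ≠ 0 := by positivity
    have h5 : (5 : ℝ) ^ k ≠ 0 := by positivity
    field_simp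
  have hmain : (T : ℝ) ^ k * (Pn.card * (κ * (X : ℝ) ^ k * (D : ℝ) ^ k)) / 2 ≤
      (E.card : ℝ) * ((5 * (X : ℝ)) ^ k * ((T : ℝ) ^ k * Pn.card)) := by
    have h1 : ∑ d ∈ E, M d = ∑ d ∈ bk k D, M d -
        ∑ d ∈ (bk k D).filter (fun d => ¬ ∃ x, τ ≤ ((Sx T Pn Gt x d).card : ℝ)), M d := by
      rw [← hsplit]; ring
    rw [hval] at hout
    linarith
  refine ⟨E, Finset.filter_subset _ _, ?_, ?_⟩
  · have hc : 0 < (5 * (X : ℝ)) ^ k * ((T : ℝ) ^ k * Pn.card) := by positivity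
    have h5 : (5 : ℝ) ^ k ≠ 0 := by positivity
    have h1 : κ / (2 * 5 ^ k) * (D : ℝ) ^ k * ((5 * (X : ℝ)) ^ k * ((T : ℝ) ^ k * Pn.card)) =
        (T : ℝ) ^ k * (Pn.card * (κ * (X : ℝ) ^ k * (D : ℝ) ^ k)) / 2 := by
      rw [mul_pow]
      field_simp
    exact le_of_mul_le_mul_right (h1.le.trans hmain) hc
  · intro d hd
    obtain ⟨x, hx⟩ := (Finset.mem_filter.1 hd).2
    refine ⟨x, (Sx T Pn Gt x d).image fun p => (p.1, (p.2 : ℤ)), ?_, ?_⟩
    · rw [Finset.card_image_of_injective]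
      · exact hx
      · intro p p' h
        have h1 : p.1 = p'.1 := (Prod.ext_iff.1 h).1
        have h2 : (p.2 : ℤ) = p'.2 := (Prod.ext_iff.1 h).2
        exact Prod.ext h1 (by exact_mod_cast h2)
    · intro p hp
      obtain ⟨p', hp', rfl⟩ := Finset.mem_image.1 hp
      unfold Sx at hp'
      rw [Finset.mem_filter, Finset.mem_product] at hp'
      exact ⟨mem_Qb.1 hp'.1.1, p'.2, hp'.1.2, rfl, hp'.2⟩

end Pool.Agent.US
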