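import Pool.Agent.Work.MP_0f91f8_co.US.Stmts
import Pool.Agent.Work.MP_0f91f8_co.U3.I_EE
import Pool.Agent.Work.MP_0f91f8_co.U3.I_ND
import Pool.Agent.Work.MP_0f91f8_co.U3.I_GS
import Pool.Agent.Work.MP_0f91f8_co.U3.I_Few

/-!
Block US, item Cov: the large frequencies lie in boundedly many short arcs.
-/

set_option autoImplicit false

namespace Pool.Agent.US

open Pool.Agent.U3
open scoped ComplexConjugate

namespace ICov

open Pool.Agent.U3.IFew (un norm_un un_mul card_le)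

/-- the trigonometric sum -/
noncomputable def C (F : ℤ → ℂ) (A B : ℤ) (a : ℝ) : ℂ := ∑ n ∈ Finset.Icc A B, F n * ee (-(a * n))

/-- few separated large frequencies -/
theorem few (F : ℤ → ℂ) (A B : ℤ) (κ Z : ℝ) {ι : Type} (s : Finset ι) (a : ι → ℝ)
    (hF : ∀ n, ‖F n‖ ≤ 1) (hκ : 0 < κ) (hZ : 1 ≤ Z) (hBA : (B - A + 1 : ℝ) ≤ Z)
    (hc : ∀ i ∈ s, κ * Z ≤ ‖C F A B (a i)‖)
    (hcon : ∀ i ∈ s, ∀ j ∈ s, i ≠ j → 2 / (κ ^ 2 * Z) < nd (a i - a j)) :
    (s.card : ℝ) ≤ 4 / (3 * κ ^ 2) := by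
  classical
  obtain ⟨eadd, enorm, econj, -, ezero, -, -⟩ := pr_EE
  have h2 : StGS := pr_GS pr_EE pr_ND
  rcases Nat.eq_zero_or_pos s.card with h0 | h0
  · rw [h0, Nat.cast_zero]; positivity
  have hk0 : (0 : ℝ) < s.card := by exact_mod_cast h0
  set c : ι → ℂ := fun i => C F A B (a i) with hcdef
  set G : ℤ → ℂ := fun m => ∑ i ∈ s, un (c i) * ee (-(a i * m)) with hG
  have hcard : ((Finset.Icc A B).card : ℝ) ≤ Z := card_le A B Z hZ hBA
  have hZ0 : 0 < Z := by linarith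
  -- the sum of the absolute values
  have e1 : ((∑ i ∈ s, ‖c i‖ : ℝ) : ℂ) = ∑ m ∈ Finset.Icc A B, F m * G m := by
    rw [Complex.ofReal_sum]
    have : ∀ i ∈ s, ((‖c i‖ : ℝ) : ℂ) =
        ∑ m ∈ Finset.Icc A B, F m * (un (c i) * ee (-(a i * m))) := by
      intro i _
      rw [← un_mul]
      have h3 : c i = ∑ n ∈ Finset.Icc A B, F n * ee (-(a i * n)) := rfl
      nth_rewrite 2 [h3]
      rw [Finset.mul_sum]
      refine Finset.sum_congr rfl fun m _ => ?_
      ring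
    rw [Finset.sum_congr rfl this, Finset.sum_comm]
    refine Finset.sum_congr rfl fun m _ => ?_
    rw [hG, Finset.mul_sum]
  have e2 : κ * Z * s.card ≤ ∑ i ∈ s, ‖c i‖ := by
    have := Finset.sum_le_sum hc
    rw [Finset.sum_const, nsmul_eq_mul] at this
    linarith
  have e3 : ∑ i ∈ s, ‖c i‖ ≤ ∑ m ∈ Finset.Icc A B, ‖G m‖ := by
    have h4 : ∑ i ∈ s, ‖c i‖ = ‖((∑ i ∈ s, ‖c i‖ : ℝ) : ℂ)‖ := by
      rw [Complex.norm_real, Real.norm_of_nonneg (Finset.sum_nonneg fun i _ => norm_nonneg _)]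
    rw [h4, e1]
    refine (norm_sum_le _ _).trans (Finset.sum_le_sum fun m _ => ?_)
    rw [norm_mul]
    exact mul_le_of_le_one_left (norm_nonneg _) (hF _)
  have e4 : (∑ m ∈ Finset.Icc A B, ‖G m‖) ^ 2 ≤ Z * ∑ m ∈ Finset.Icc A B, ‖G m‖ ^ 2 := by
    refine sq_sum_le_card_mul_sum_sq.trans ?_
    exact mul_le_mul_of_nonneg_right hcard (Finset.sum_nonneg fun m _ => sq_nonneg _)
  -- the second moment
  have e5 : ((∑ m ∈ Finset.Icc A B, ‖G m‖ ^ 2 : ℝ) : ℂ) = ∑ i ∈ s, ∑ j ∈ s,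
      un (c i) * conj (un (c j)) * ∑ m ∈ Finset.Icc A B, ee ((a j - a i) * m) := by
    rw [Complex.ofReal_sum]
    have : ∀ m ∈ Finset.Icc A B, ((‖G m‖ ^ 2 : ℝ) : ℂ) = ∑ i ∈ s, ∑ j ∈ s,
        un (c i) * conj (un (c j)) * ee ((a j - a i) * m) := by
      intro m _
      have h5 : ((‖G m‖ ^ 2 : ℝ) : ℂ) = G m * conj (G m) := by
        rw [Complex.mul_conj, Complex.normSq_eq_norm_sq]
      rw [h5, hG, map_sum, Finset.sum_mul_sum]
      refine Finset.sum_congr rfl fun i _ => Finset.sum_congr rfl fun j _ => ?_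
      rw [map_mul, econj]
      have h6 : ee ((a j - a i) * m) = ee (-(a i * m)) * ee (- -(a j * m)) := by
        rw [← eadd]
        congr 1
        ring
      rw [h6]
      ring
    rw [Finset.sum_congr rfl this, Finset.sum_comm]
    refine Finset.sum_congr rfl fun i _ => ?_
    rw [Finset.sum_comm]
    refine Finset.sum_congr rfl fun j _ => ?_
    rw [Finset.mul_sum]
  have e6 : ∀ i ∈ s, ∀ j ∈ s, ‖∑ m ∈ Finset.Icc A B, ee ((a j - a i) * m)‖ ≤
      (if i = j then Z else 0) + κ ^ 2 * Z / 4 := by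
    intro i hi j hj
    by_cases hij : i = j
    · subst hij
      rw [if_pos rfl]
      have h7 : ∑ m ∈ Finset.Icc A B, ee ((a i - a i) * m) = ((Finset.Icc A B).card : ℂ) := by
        rw [Finset.sum_congr rfl (fun m _ => by rw [sub_self, zero_mul, ezero]), Finset.sum_const,
          nsmul_eq_mul, mul_one]
      rw [h7, Complex.norm_natCast]
      have : 0 ≤ κ ^ 2 * Z / 4 := by positivity
      linarith
    · rw [if_neg hij, zero_add]
      have h8 := h2 A B (a j - a i)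
      have h9 := hcon j hj i hi (Ne.symm hij)
      have h10 : 0 < 2 / (κ ^ 2 * Z) := by positivity
      by_contra h11
      rw [not_le] at h11
      have h12 : κ ^ 2 * Z / 4 * (2 / (κ ^ 2 * Z)) = 1 / 2 := by
        field_simp
        norm_num
      have h13 : κ ^ 2 * Z / 4 * (2 / (κ ^ 2 * Z)) <
          ‖∑ m ∈ Finset.Icc A B, ee ((a j - a i) * m)‖ * nd (a j - a i) := by
        apply mul_lt_mul'' h11 h9
        · positivity
        · exact h10.le
      linarith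
  have e7 : ∑ m ∈ Finset.Icc A B, ‖G m‖ ^ 2 ≤ s.card * Z + (s.card : ℝ) ^ 2 * (κ ^ 2 * Z / 4) := by
    have h14 : ∑ m ∈ Finset.Icc A B, ‖G m‖ ^ 2 =
        ‖((∑ m ∈ Finset.Icc A B, ‖G m‖ ^ 2 : ℝ) : ℂ)‖ := by
      rw [Complex.norm_real, Real.norm_of_nonneg (Finset.sum_nonneg fun i _ => sq_nonneg _)]
    rw [h14, e5]
    calc ‖∑ i ∈ s, ∑ j ∈ s,
        un (c i) * conj (un (c j)) * ∑ m ∈ Finset.Icc A B, ee ((a j - a i) * m)‖
        ≤ ∑ i ∈ s, ∑ j ∈ s, ((if i = j then Z else 0) + κ ^ 2 * Z / 4) := by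
          refine (norm_sum_le _ _).trans (Finset.sum_le_sum fun i hi => ?_)
          refine (norm_sum_le _ _).trans (Finset.sum_le_sum fun j hj => ?_)
          rw [norm_mul, norm_mul, RCLike.norm_conj]
          refine le_trans ?_ (e6 i hi j hj)
          exact mul_le_of_le_one_left (norm_nonneg _)
            (mul_le_one₀ (norm_un _) (norm_nonneg _) (norm_un _))
      _ = s.card * Z + (s.card : ℝ) ^ 2 * (κ ^ 2 * Z / 4) := by
          have : ∀ i ∈ s, ∑ j ∈ s, ((if i = j then Z else 0) + κ ^ 2 * Z / 4) =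
              Z + s.card * (κ ^ 2 * Z / 4) := by
            intro i hi
            rw [Finset.sum_add_distrib, Finset.sum_ite_eq, if_pos hi, Finset.sum_const,
              nsmul_eq_mul]
          rw [Finset.sum_congr rfl this, Finset.sum_const, nsmul_eq_mul]
          ring
  -- conclusion
  have e8 : (κ * Z * s.card) ^ 2 ≤ Z * (s.card * Z + (s.card : ℝ) ^ 2 * (κ ^ 2 * Z / 4)) := by
    calc (κ * Z * s.card) ^ 2 ≤ (∑ m ∈ Finset.Icc A B, ‖G m‖) ^ 2 := by
          apply pow_le_pow_left₀ (by positivity)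
          exact e2.trans e3
      _ ≤ _ := e4
      _ ≤ _ := mul_le_mul_of_nonneg_left e7 hZ0.le
  have e9 : 3 * κ ^ 2 * s.card ≤ 4 := by
    have h15 : (Z ^ 2 * s.card) * (3 * κ ^ 2 * s.card) ≤ (Z ^ 2 * s.card) * 4 := by
      nlinarith [e8]
    exact le_of_mul_le_mul_left h15 (by positivity)
  rw [le_div_iff₀ (by positivity)]
  linarith

end ICov

open ICov in
theorem us_Cov : StCov := by
  intro κ hκ
  classical
  obtain ⟨-, nneg, -, nabs, -, nnn, -, -⟩ := pr_ND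
  refine ⟨⌊4 / (3 * κ ^ 2)⌋₊ + 1, by omega, fun G A B Z hG hZ hBA => ?_⟩
  have hZ0 : 0 < Z := by linarith
  -- good families
  let Gd : Finset ℝ → Prop := fun S => (∀ a ∈ S, κ * Z ≤ ‖C G A B a‖) ∧
    ∀ a ∈ S, ∀ b ∈ S, a ≠ b → 2 / (κ ^ 2 * Z) < nd (a - b)
  have hbd : ∀ S, Gd S → S.card ≤ ⌊4 / (3 * κ ^ 2)⌋₊ := fun S hS =>
    Nat.le_floor (few G A B κ Z S (fun a => a) hG hκ hZ hBA hS.1 hS.2)
  -- a good family of maximal size
  obtain ⟨S, hS, hmax⟩ : ∃ S, Gd S ∧ ∀ S', Gd S' → S'.card ≤ S.card := by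
    have hne : ∃ n, ∃ S, Gd S ∧ S.card = n := ⟨0, ∅, ⟨by simp, by simp⟩, rfl⟩
    have hP := Nat.findGreatest_spec (P := fun n => ∃ S, Gd S ∧ S.card = n)
      (n := ⌊4 / (3 * κ ^ 2)⌋₊) (Nat.zero_le _) ⟨∅, ⟨by simp, by simp⟩, rfl⟩
    obtain ⟨S, hS, hc⟩ := hP
    refine ⟨S, hS, fun S' hS' => ?_⟩
    rw [hc]
    exact Nat.le_findGreatest (hbd S' hS') ⟨S', hS', rfl⟩
  have hcard : S.card < ⌊4 / (3 * κ ^ 2)⌋₊ + 1 := Nat.lt_succ_of_le (hbd S hS)
  refine ⟨fun i => S.toList.getD i 0, fun a ha => ?_⟩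
  -- some member of the family is near to `a`
  obtain ⟨b, hb, hab⟩ : ∃ b ∈ S, nd (a - b) ≤ 2 / (κ ^ 2 * Z) := by
    by_contra hcon
    push Not at hcon
    have haS : a ∉ S := by
      intro haS
      have h1 := hcon a haS
      rw [sub_self] at h1
      have h2 := nabs 0
      rw [abs_zero] at h2
      have h3 : 0 < 2 / (κ ^ 2 * Z) := by positivity
      linarith
    have hgood : Gd (insert a S) := by
      refine ⟨fun x hx => ?_, fun x hx y hy hxy => ?_⟩
      · rcases Finset.mem_insert.1 hx with rfl | hx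
        · exact ha
        · exact hS.1 x hx
      · rcases Finset.mem_insert.1 hx with hxa | hx
        · rcases Finset.mem_insert.1 hy with hya | hy
          · exact absurd (hxa.trans hya.symm) hxy
          · rw [hxa]; exact hcon y hy
        · rcases Finset.mem_insert.1 hy with hya | hy
          · rw [hya, ← nneg, neg_sub]; exact hcon x hx
          · exact hS.2 x hx y hy hxy
    have h4 := hmax _ hgood
    rw [Finset.card_insert_of_notMem haS] at h4
    omega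
  obtain ⟨i, hi, hib⟩ := List.mem_iff_getElem.1 (Finset.mem_toList.2 hb)
  have hi' : i < ⌊4 / (3 * κ ^ 2)⌋₊ + 1 := by
    rw [Finset.length_toList] at hi
    omega
  refine ⟨⟨i, hi'⟩, ?_⟩
  have h5 : S.toList.getD i 0 = b := by
    rw [List.getD_eq_getElem _ _ hi, hib]
  show nd (a - S.toList.getD i 0) ≤ _
  rw [h5]
  exact hab

end Pool.Agent.US
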