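import Pool.Agent.Work.MP_0f91f8_co.US.Stmts

/-! Item Cub of block US (helper37): the cube lemma (greedy Cauchy-Schwarz). -/

set_option autoImplicit false

namespace Pool.Agent.US

namespace ICub

variable {k : ℕ}

/-- the shift in the direction of `s` -/
def sh (s : Fin k → Bool) (a : ℤ) (p : (Fin k → ℤ) × ℤ) : (Fin k → ℤ) × ℤ :=
  ((fun i => p.1 i - if s i then a else 0), p.2 + a)

/-- the box -/
def Box (T : ℕ) (S : Finset ((Fin k → ℤ) × ℤ)) : Prop :=
  ∀ p ∈ S, (∀ i, 0 ≤ p.1 i ∧ p.1 i < T) ∧ (T : ℤ) ≤ p.2 ∧ p.2 ≤ 2 * T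

/-- the line of a point -/
def pro (s : Fin k → Bool) (p : (Fin k → ℤ) × ℤ) : Fin k → ℤ :=
  fun i => p.1 i + if s i then p.2 else 0

open Classical in
theorem step (T : ℕ) (hT : 1 ≤ T) (s : Fin k → Bool) (S : Finset ((Fin k → ℤ) × ℤ))
    (hS : Box T S) (hN : 2 * (3 * (T : ℝ)) ^ k ≤ S.card) :
    ∃ a : ℤ, a ≠ 0 ∧ (S.card : ℝ) ^ 2 / (4 * T * (3 * T) ^ k) ≤
      ((S.filter fun p => sh s a p ∈ S).card : ℝ) := by
  by_contra hcon
  push Not at hcon
  set A : Finset ℤ := Finset.Icc (-(T : ℤ)) T with hA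
  set Y : Finset (Fin k → ℤ) := Fintype.piFinset (fun _ => Finset.Ico 0 (3 * (T : ℤ))) with hY
  set fib : (Fin k → ℤ) → Finset ((Fin k → ℤ) × ℤ) := fun y => S.filter fun p => pro s p = y
    with hfib
  have hYc : (Y.card : ℝ) = (3 * (T : ℝ)) ^ k := by
    rw [hY, Fintype.card_piFinset_const, Int.card_Ico]
    have : (3 * (T : ℤ) - 0).toNat = 3 * T := by omega
    rw [this]
    push_cast
    rfl
  have hmap : ∀ p ∈ S, pro s p ∈ Y := by
    intro p hp
    obtain ⟨h1, h2, h3⟩ := hS p hp
    rw [hY, Fintype.mem_piFinset]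
    intro i
    rw [Finset.mem_Ico]
    obtain ⟨h4, h5⟩ := h1 i
    unfold pro
    split_ifs <;> constructor <;> omega
  have hcard : (S.card : ℝ) = ∑ y ∈ Y, ((fib y).card : ℝ) := by
    rw [Finset.card_eq_sum_card_fiberwise hmap]
    push_cast
    rfl
  have h1 : (S.card : ℝ) ^ 2 ≤ Y.card * ∑ y ∈ Y, ((fib y).card : ℝ) ^ 2 := by
    rw [hcard]
    exact sq_sum_le_card_mul_sum_sq
  have h2 : ∑ y ∈ Y, ((fib y).card : ℝ) ^ 2 = ∑ p ∈ S, ((fib (pro s p)).card : ℝ) := by
    rw [← Finset.sum_fiberwise_of_maps_to hmap]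
    refine Finset.sum_congr rfl fun y _ => ?_
    rw [Finset.sum_congr rfl (fun p hp => by rw [(Finset.mem_filter.1 hp).2] :
      ∀ p ∈ S.filter (fun p => pro s p = y), ((fib (pro s p)).card : ℝ) = ((fib y).card : ℝ)),
      Finset.sum_const, nsmul_eq_mul, sq]
  have h3 : ∀ p ∈ S, ((fib (pro s p)).card : ℝ) ≤ ∑ a ∈ A, if sh s a p ∈ S then (1 : ℝ) else 0 := by
    intro p hp
    rw [Finset.sum_boole]
    refine Nat.cast_le.2 (Finset.card_le_card_of_injOn (fun p' => p'.2 - p.2) ?_ ?_)
    · intro p' hp'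
      obtain ⟨hp1, hp2⟩ := Finset.mem_filter.1 hp'
      obtain ⟨-, h5, h6⟩ := hS p hp
      obtain ⟨-, h7, h8⟩ := hS p' hp1
      refine Finset.mem_coe.2 (Finset.mem_filter.2 ⟨?_, ?_⟩)
      · show p'.2 - p.2 ∈ A
        rw [hA, Finset.mem_Icc]
        constructor <;> omega
      · have h9 : sh s (p'.2 - p.2) p = p' := by
          unfold sh
          refine Prod.ext ?_ ?_
          · funext i
            have h10 := congrFun hp2 i
            unfold pro at h10
            simp only
            split_ifs at h10 ⊢ <;> omega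
          · simp only
            omega
        rw [h9]
        exact hp1
    · intro p' hp' p'' hp'' he
      obtain ⟨hp1, hp2⟩ := Finset.mem_filter.1 hp'
      obtain ⟨hp3, hp4⟩ := Finset.mem_filter.1 hp''
      have he' : p'.2 - p.2 = p''.2 - p.2 := he
      have h11 : p'.2 = p''.2 := by omega
      refine Prod.ext ?_ h11
      funext i
      have h12 := congrFun (hp2.trans hp4.symm) i
      unfold pro at h12
      split_ifs at h12 <;> omega
  have h4 : ∑ p ∈ S, ((fib (pro s p)).card : ℝ) ≤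
      ∑ a ∈ A, ((S.filter fun p => sh s a p ∈ S).card : ℝ) := by
    refine (Finset.sum_le_sum h3).trans ?_
    rw [Finset.sum_comm]
    refine Finset.sum_le_sum fun a _ => ?_
    rw [Finset.sum_boole]
  have hT0 : (0 : ℝ) < T := by exact_mod_cast hT
  have hA0 : (0 : ℤ) ∈ A := by
    rw [hA, Finset.mem_Icc]
    constructor <;> omega
  have hAc : ((A.erase 0).card : ℝ) = 2 * T := by
    rw [Finset.card_erase_of_mem hA0, hA, Int.card_Icc]
    have : ((T : ℤ) + 1 - -(T : ℤ)).toNat - 1 = 2 * T := by omega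
    rw [this]
    push_cast
    rfl
  set X : ℝ := (S.card : ℝ) ^ 2 / (4 * T * (3 * T) ^ k) with hX
  have h5 : ∑ a ∈ A, ((S.filter fun p => sh s a p ∈ S).card : ℝ) < S.card + 2 * T * X := by
    rw [← Finset.add_sum_erase A _ hA0]
    refine add_lt_add_of_le_of_lt (Nat.cast_le.2 (Finset.card_filter_le _ _)) ?_
    have hne : (A.erase 0).Nonempty := by
      rw [← Finset.card_pos]
      have : (0 : ℝ) < ((A.erase 0).card : ℝ) := by rw [hAc]; positivity
      exact_mod_cast this
    have h6 : ∑ a ∈ A.erase 0, ((S.filter fun p => sh s a p ∈ S).card : ℝ) <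
        ∑ _a ∈ A.erase 0, X :=
      Finset.sum_lt_sum_of_nonempty hne fun a ha => hcon a (Finset.ne_of_mem_erase ha)
    rw [Finset.sum_const, nsmul_eq_mul, hAc] at h6
    exact h6
  have hM : (0 : ℝ) < (3 * (T : ℝ)) ^ k := by positivity
  rw [hYc, h2] at h1
  have h7 : (S.card : ℝ) ^ 2 < (3 * (T : ℝ)) ^ k * (S.card + 2 * T * X) :=
    lt_of_le_of_lt h1 (mul_lt_mul_of_pos_left (lt_of_le_of_lt h4 h5) hM)
  have h8 : (3 * (T : ℝ)) ^ k * (2 * T * X) = (S.card : ℝ) ^ 2 / 2 := by
    rw [hX]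
    field_simp
    ring
  rw [mul_add, h8] at h7
  have h9 : (3 * (T : ℝ)) ^ k * S.card ≤ (S.card : ℝ) ^ 2 / 2 := by
    nlinarith [mul_le_mul_of_nonneg_right hN (Nat.cast_nonneg (α := ℝ) S.card)]
  linarith

open Classical in
theorem ind (D : Finset (Fin k → Bool)) : ∀ (c η : ℝ), 0 < c → 0 < η → 2 ^ D.card * η < 1 →
    ∃ T0 : ℕ, ∀ T : ℕ, T0 ≤ T → ∀ S : Finset ((Fin k → ℤ) × ℤ), Box T S →
      c * (T : ℝ) ^ ((k : ℝ) + 1 - η) ≤ S.card →
      ∃ (p : (Fin k → ℤ) × ℤ) (a : (Fin k → Bool) → ℤ), (∀ s ∈ D, a s ≠ 0) ∧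
        ∀ E ⊆ D, ((fun i => p.1 i - ∑ s ∈ E, if s i then a s else 0), p.2 + ∑ s ∈ E, a s) ∈ S := by
  induction D using Finset.induction_on with
  | empty =>
    intro c η hc _ _
    refine ⟨1, fun T hT S _ hcard => ?_⟩
    have hT0 : (0 : ℝ) < T := by exact_mod_cast hT
    have h1 : (0 : ℝ) < S.card := lt_of_lt_of_le (by positivity) hcard
    have h2 : 0 < S.card := by exact_mod_cast h1
    obtain ⟨p, hp⟩ := Finset.card_pos.1 h2
    refine ⟨p, fun _ => 0, fun s hs => absurd hs (Finset.notMem_empty s), fun E hE => ?_⟩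
    rw [Finset.subset_empty.1 hE]
    simpa using hp
  | insert s D hs ih =>
    intro c η hc hη hlt
    rw [Finset.card_insert_of_notMem hs, pow_succ, mul_assoc] at hlt
    have hη1 : η < 1 := by
      have h1 : (1 : ℝ) ≤ 2 ^ D.card := one_le_pow₀ (by norm_num)
      nlinarith
    obtain ⟨T1, hT1⟩ := ih (c ^ 2 / (4 * 3 ^ k)) (2 * η) (by positivity) (by positivity) hlt
    have htend : Filter.Tendsto (fun T : ℕ => (T : ℝ) ^ (1 - η)) Filter.atTop Filter.atTop :=
      (tendsto_rpow_atTop (by linarith)).comp tendsto_natCast_atTop_atTop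
    obtain ⟨T2, hT2⟩ := Filter.eventually_atTop.1
      (htend.eventually_ge_atTop (2 * 3 ^ k / c))
    refine ⟨max T1 (max 1 T2), fun T hT S hS hcard => ?_⟩
    have hT1' : T1 ≤ T := (le_max_left _ _).trans hT
    have hT1'' : 1 ≤ T := ((le_max_left _ _).trans (le_max_right _ _)).trans hT
    have hT2' : T2 ≤ T := ((le_max_right _ _).trans (le_max_right _ _)).trans hT
    have hT0 : (0 : ℝ) < T := by exact_mod_cast hT1''
    have h2 := hT2 T hT2'
    have he1 : (T : ℝ) ^ ((k : ℝ) + 1 - η) = (T : ℝ) ^ k * (T : ℝ) ^ (1 - η) := by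
      rw [← Real.rpow_natCast, ← Real.rpow_add hT0]
      congr 1
      ring
    have hN : 2 * (3 * (T : ℝ)) ^ k ≤ S.card := by
      refine le_trans ?_ hcard
      rw [he1, mul_pow]
      rw [div_le_iff₀ hc] at h2
      have h3 : (0 : ℝ) ≤ (T : ℝ) ^ k := by positivity
      nlinarith [mul_le_mul_of_nonneg_left h2 h3]
    obtain ⟨a0, ha0, hcard'⟩ := step T hT1'' s S hS hN
    have hS' : Box T (S.filter fun p => sh s a0 p ∈ S) := fun p hp =>
      hS p (Finset.mem_filter.1 hp).1
    have hbig : c ^ 2 / (4 * 3 ^ k) * (T : ℝ) ^ ((k : ℝ) + 1 - 2 * η) ≤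
        ((S.filter fun p => sh s a0 p ∈ S).card : ℝ) := by
      refine le_trans ?_ hcard'
      rw [le_div_iff₀ (by positivity)]
      have h4 : (c * (T : ℝ) ^ ((k : ℝ) + 1 - η)) ^ 2 ≤ (S.card : ℝ) ^ 2 :=
        pow_le_pow_left₀ (by positivity) hcard 2
      refine le_trans (le_of_eq ?_) h4
      have he2 : ((T : ℝ) ^ ((k : ℝ) + 1 - η)) ^ 2 =
          (T : ℝ) ^ ((k : ℝ) + 1 - 2 * η) * ((T : ℝ) ^ k * T) := by
        have h5 : (T : ℝ) ^ k * T = (T : ℝ) ^ ((k : ℝ) + 1) := by
          rw [Real.rpow_add hT0, Real.rpow_one, Real.rpow_natCast]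
        rw [h5, ← Real.rpow_add hT0, ← Real.rpow_natCast, ← Real.rpow_mul hT0.le]
        congr 1
        push_cast
        ring
      rw [mul_pow c, he2, mul_pow (3 : ℝ)]
      field_simp
    obtain ⟨p, a, ha, hp⟩ := hT1 T hT1' _ hS' hbig
    refine ⟨p, Function.update a s a0, ?_, ?_⟩
    · intro s' hs'
      rcases Finset.mem_insert.1 hs' with h | h
      · rw [h, Function.update_self]
        exact ha0
      · have hne : s' ≠ s := fun h' => hs (h' ▸ h)
        rw [Function.update_of_ne hne]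
        exact ha s' h
    · intro E hE
      have hE' : E.erase s ⊆ D := by
        intro x hx
        have := hE (Finset.mem_of_mem_erase hx)
        rcases Finset.mem_insert.1 this with h | h
        · exact absurd h (Finset.ne_of_mem_erase hx)
        · exact h
      have hsum1 : ∀ i, ∑ x ∈ E.erase s, (if x i then Function.update a s a0 x else 0) =
          ∑ x ∈ E.erase s, (if x i then a x else 0) := fun i =>
        Finset.sum_congr rfl fun x hx => by
          rw [Function.update_of_ne (Finset.ne_of_mem_erase hx)]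
      have hsum2 : ∑ x ∈ E.erase s, Function.update a s a0 x = ∑ x ∈ E.erase s, a x :=
        Finset.sum_congr rfl fun x hx => by
          rw [Function.update_of_ne (Finset.ne_of_mem_erase hx)]
      have hmem := hp (E.erase s) hE'
      by_cases hsE : s ∈ E
      · have h6 := (Finset.mem_filter.1 hmem).2
        have h7 : (((fun i => p.1 i - ∑ s_1 ∈ E, if s_1 i then Function.update a s a0 s_1 else 0),
            p.2 + ∑ s_1 ∈ E, Function.update a s a0 s_1) : (Fin k → ℤ) × ℤ) =
            sh s a0 ((fun i => p.1 i - ∑ s ∈ E.erase s, if s i then a s else 0),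
              p.2 + ∑ s ∈ E.erase s, a s) := by
          unfold sh
          refine Prod.ext ?_ ?_
          · funext i
            simp only
            rw [← Finset.add_sum_erase E _ hsE, hsum1 i, Function.update_self]
            ring
          · simp only
            rw [← Finset.add_sum_erase E _ hsE, hsum2, Function.update_self]
            ring
        rw [h7]
        exact h6
      · have h8 := (Finset.mem_filter.1 hmem).1
        rw [Finset.erase_eq_of_notMem hsE] at h8 hsum1 hsum2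
        have h9 : (((fun i => p.1 i - ∑ s_1 ∈ E, if s_1 i then Function.update a s a0 s_1 else 0),
            p.2 + ∑ s_1 ∈ E, Function.update a s a0 s_1) : (Fin k → ℤ) × ℤ) =
            ((fun i => p.1 i - ∑ s ∈ E, if s i then a s else 0), p.2 + ∑ s ∈ E, a s) := by
          refine Prod.ext ?_ ?_
          · funext i
            simp only
            rw [hsum1 i]
          · simp only
            rw [hsum2]
        rw [h9]
        exact h8

end ICub

theorem us_Cub : StCub := by
  classical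
  intro k c θ hc hθ hlt
  obtain ⟨T0, hT0⟩ := ICub.ind (Finset.univ : Finset (Fin k → Bool)) c θ hc hθ (by
    rw [Finset.card_univ, Fintype.card_fun, Fintype.card_bool, Fintype.card_fin]
    exact hlt)
  refine ⟨T0, fun T hT S hS hcard => ?_⟩
  obtain ⟨p, a, ha, hp⟩ := hT0 T hT S hS hcard
  exact ⟨p.1, p.2, a, fun s => ha s (Finset.mem_univ s), fun E => hp E (Finset.subset_univ E)⟩

end Pool.Agent.US
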