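import Pool.Agent.Work.MP_0f91f8_co.US.Stmts
import Pool.Agent.Work.MP_0f91f8_co.U3.I_Scl

/-!
# Block US, item Dil: restriction to the multiples of `q`
-/

set_option autoImplicit false

namespace Pool.Agent.US

open Pool.Agent.U3
open scoped ComplexConjugate Classical

namespace IDil

theorem d1 (q : ℕ) (hq : 1 ≤ q) (F F' : ℤ → ℂ) (u : ℂ) (hu : ‖u‖ = 1)
    (h : ∀ m : ℤ, F ((q : ℤ) * m) = u * F' m) (a : ℤ) (ha : (q : ℤ) ∣ a) (m : ℤ) :
    D1 a F ((q : ℤ) * m) = D1 (a / q) F' m := by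
  obtain ⟨b, rfl⟩ := ha
  have hq' : (0 : ℤ) < q := by exact_mod_cast hq
  have hdiv : (q : ℤ) * b / q = b := Int.mul_ediv_cancel_left _ hq'.ne'
  have e1 : (q : ℤ) * m + q * b = q * (m + b) := by ring
  have hn : u * conj u = 1 := by
    rw [Complex.mul_conj, Complex.normSq_eq_norm_sq, hu]
    simp
  unfold D1
  rw [hdiv, e1, h, h, map_mul]
  calc u * F' (m + b) * (conj u * conj (F' m)) = (u * conj u) * (F' (m + b) * conj (F' m)) := by
        ring
    _ = F' (m + b) * conj (F' m) := by rw [hn, one_mul]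

theorem dk (q : ℕ) (hq : 1 ≤ q) : ∀ (k : ℕ) (F F' : ℤ → ℂ) (h : Fin k → ℤ),
    (∀ m : ℤ, F ((q : ℤ) * m) = F' m) → (∀ i, (q : ℤ) ∣ h i) → ∀ m : ℤ,
    DK k F h ((q : ℤ) * m) = DK k F' (fun i => h i / q) m
  | 0, F, F', h, hF, _, m => hF m
  | k + 1, F, F', h, hF, hh, m => by
    change DK k (D1 (h 0) F) (Fin.tail h) ((q : ℤ) * m) =
      DK k (D1 (h 0 / q) F') (fun i => Fin.tail h i / q) m
    refine dk q hq k _ _ _ (fun m => ?_) (fun i => hh i.succ) m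
    exact d1 q hq F F' 1 norm_one (fun m => by rw [one_mul, hF]) (h 0) (hh 0) m

theorem dk1 (q : ℕ) (hq : 1 ≤ q) (k : ℕ) (F F' : ℤ → ℂ) (u : ℂ) (hu : ‖u‖ = 1)
    (h : Fin (k + 1) → ℤ) (hF : ∀ m : ℤ, F ((q : ℤ) * m) = u * F' m) (hh : ∀ i, (q : ℤ) ∣ h i)
    (m : ℤ) : DK (k + 1) F h ((q : ℤ) * m) = DK (k + 1) F' (fun i => h i / q) m := by
  change DK k (D1 (h 0) F) (Fin.tail h) ((q : ℤ) * m) =
    DK k (D1 (h 0 / q) F') (fun i => Fin.tail h i / q) m
  exact dk q hq k _ _ _ (fun m => d1 q hq F F' u hu hF (h 0) (hh 0) m) (fun i => hh i.succ) m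

end IDil

open IDil in
/-- **item Dil**: restriction to the multiples of `q` -/
theorem us_Dil : StDil := by
  intro f hf k q A B h a hk hq hh
  obtain ⟨k, rfl⟩ := Nat.exists_eq_add_of_le' hk
  have hq' : (0 : ℤ) < q := by exact_mod_cast hq
  have hmap : (Finset.Icc A B).filter (fun n => (q : ℤ) ∣ n) =
      (Finset.Icc (cl A q) (B / q)).map ⟨fun m : ℤ => (q : ℤ) * m,
        fun x y hxy => mul_left_cancel₀ hq'.ne' hxy⟩ := by
    ext n
    simp only [Finset.mem_filter, Finset.mem_map, Function.Embedding.coeFn_mk]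
    constructor
    · rintro ⟨hn, m, rfl⟩
      exact ⟨m, (IScl.mem_iff A B q hq m).1 hn, rfl⟩
    · rintro ⟨m, hm, rfl⟩
      exact ⟨(IScl.mem_iff A B q hq m).2 hm, dvd_mul_right _ _⟩
  have hct : ∀ m : ℤ, ct f A B ((q : ℤ) * m) = f q * ct f (cl A q) (B / q) m := by
    intro m
    unfold ct
    by_cases hm : m ∈ Finset.Icc (cl A q) (B / q)
    · rw [if_pos hm, if_pos ((IScl.mem_iff A B q hq m).2 hm), hf.mul]
    · rw [if_neg hm, if_neg (fun h => hm ((IScl.mem_iff A B q hq m).1 h)), mul_zero]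
  rw [hmap, Finset.sum_map]
  unfold CK
  refine Finset.sum_congr rfl fun m _ => ?_
  simp only [Function.Embedding.coeFn_mk]
  rw [dk1 q hq k _ _ (f q) (hf.nrm _ hq'.ne') h hct hh m]
  have e2 : -(a * (((q : ℤ) * m : ℤ) : ℝ)) = -((q : ℝ) * a * (m : ℝ)) := by
    push_cast
    ring
  rw [e2]

end Pool.Agent.US
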