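import Pool.Agent.Work.MP_0f91f8_co.US.Stmts

/-!
# Block US, item Inv: the alternating sum of the reciprocals over a cube is not zero
-/

set_option autoImplicit false

namespace Pool.Agent.US

namespace IInv

theorem prod_zpow_sum {ι : Type} [DecidableEq ι] (u : ℝ) (hu : u ≠ 0) (a : ι → ℤ)
    (E : Finset ι) : ∏ s ∈ E, u ^ a s = u ^ ∑ s ∈ E, a s := by
  induction E using Finset.induction_on with
  | empty => simp
  | @insert s E hs ih =>
    rw [Finset.prod_insert hs, Finset.sum_insert hs, ih, zpow_add₀ hu]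

/-- One factor with its sign is positive. -/
theorem factor_pos (u : ℝ) (hu0 : 0 < u) (hu1 : u < 1) (b : ℤ) (hb : b ≠ 0) :
    0 < (if 0 < b then (1 : ℝ) else -1) * (1 - u ^ b) := by
  have hpow : ∀ n : ℕ, n ≠ 0 → u ^ n < 1 := fun n hn => pow_lt_one₀ hu0.le hu1 hn
  split_ifs with h
  · obtain ⟨n, rfl⟩ := Int.eq_ofNat_of_zero_le h.le
    have hn : n ≠ 0 := by
      intro h0
      exact hb (by rw [h0]; rfl)
    have h1 := hpow n hn
    rw [zpow_natCast]
    linarith
  · obtain ⟨n, hn⟩ : ∃ n : ℕ, b = -(n : ℤ) := ⟨(-b).toNat, by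
      rw [Int.toNat_of_nonneg (by omega)]; ring⟩
    have hn0 : n ≠ 0 := by
      intro h0
      apply hb
      rw [hn, h0]
      rfl
    have h1 := hpow n hn0
    have h2 : 0 < u ^ n := pow_pos hu0 n
    have h3 : 1 < (u ^ n)⁻¹ := (one_lt_inv₀ h2).2 h1
    rw [hn, zpow_neg, zpow_natCast]
    linarith

/-- The product formula for the alternating sum of powers. -/
theorem expand {ι : Type} [Fintype ι] [DecidableEq ι] (t : ℤ) (a : ι → ℤ) (m : Finset ι → ℕ)
    (hm : ∀ E : Finset ι, ((m E : ℕ) : ℤ) = t + ∑ s ∈ E, a s - 1) (u : ℝ) (hu : u ≠ 0) :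
    ∑ E : Finset ι, (-1 : ℝ) ^ E.card * u ^ m E = u ^ (t - 1) * ∏ s, (1 - u ^ a s) := by
  have h1 : ∏ s, (1 - u ^ a s) = ∏ s, (-(u ^ a s) + 1) :=
    Finset.prod_congr rfl fun s _ => by ring
  rw [h1, Finset.prod_add, Finset.powerset_univ, Finset.mul_sum]
  refine Finset.sum_congr rfl fun E _ => ?_
  have h2 : ∏ s ∈ E, -(u ^ a s) = (-1 : ℝ) ^ E.card * ∏ s ∈ E, u ^ a s := by
    rw [← Finset.prod_const, ← Finset.prod_mul_distrib]
    exact Finset.prod_congr rfl fun s _ => by ring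
  rw [h2, prod_zpow_sum u hu, Finset.prod_const_one, mul_one, ← zpow_natCast u (m E), hm,
    show t + ∑ s ∈ E, a s - 1 = (t - 1) + ∑ s ∈ E, a s by ring, zpow_add₀ hu]
  ring

end IInv

open IInv in
theorem us_Inv : StInv := by
  intro ι _ _ t a ha hE
  obtain ⟨m, hm⟩ : ∃ m : Finset ι → ℕ, ∀ E : Finset ι, ((m E : ℕ) : ℤ) = t + ∑ s ∈ E, a s - 1 :=
    ⟨fun E => (t + ∑ s ∈ E, a s - 1).toNat, fun E => Int.toNat_of_nonneg (by have := hE E; omega)⟩
  obtain ⟨σ, hσ⟩ : ∃ σ : ℝ, σ = ∏ s, if 0 < a s then (1 : ℝ) else -1 := ⟨_, rfl⟩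
  have hpos : ∀ u ∈ Set.Ioo (0 : ℝ) 1,
      0 < σ * ∑ E : Finset ι, (-1 : ℝ) ^ E.card * u ^ m E := by
    intro u hu
    have e1 : σ * (u ^ (t - 1) * ∏ s, (1 - u ^ a s)) =
        u ^ (t - 1) * ∏ s, ((if 0 < a s then (1 : ℝ) else -1) * (1 - u ^ a s)) := by
      rw [Finset.prod_mul_distrib, ← hσ]
      ring
    rw [expand t a m hm u hu.1.ne', e1]
    exact mul_pos (zpow_pos hu.1 _)
      (Finset.prod_pos fun s _ => factor_pos u hu.1 hu.2 (a s) (ha s))
  have hcont : Continuous fun u : ℝ => σ * ∑ E : Finset ι, (-1 : ℝ) ^ E.card * u ^ m E := by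
    fun_prop
  have hint := intervalIntegral.intervalIntegral_pos_of_pos_on
    (hcont.intervalIntegrable (μ := MeasureTheory.volume) 0 1) hpos zero_lt_one
  have hval : ∫ u in (0 : ℝ)..1, σ * ∑ E : Finset ι, (-1 : ℝ) ^ E.card * u ^ m E =
      σ * ∑ E : Finset ι, (-1 : ℝ) ^ E.card / ((t + ∑ s ∈ E, a s : ℤ) : ℝ) := by
    rw [intervalIntegral.integral_const_mul, intervalIntegral.integral_finsetSum]
    · congr 1
      refine Finset.sum_congr rfl fun E _ => ?_
      rw [intervalIntegral.integral_const_mul, integral_pow]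
      have h1 : ((t + ∑ s ∈ E, a s : ℤ) : ℝ) = (m E : ℝ) + 1 := by
        have h2 : t + ∑ s ∈ E, a s = ((m E : ℕ) : ℤ) + 1 := by
          rw [hm E]
          ring
        rw [h2]
        push_cast
        ring
      rw [h1]
      simp [div_eq_mul_inv]
    · intro E _
      exact (Continuous.intervalIntegrable (by fun_prop) _ _)
  rw [hval] at hint
  intro h0
  rw [h0, mul_zero] at hint
  exact lt_irrefl _ hint

end Pool.Agent.US
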