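import Pool.Agent.Work.MP_0f91f8_co.US.Stmts2

/-!
# Block US, item Mn: the main assembly
-/

set_option autoImplicit false

namespace Pool.Agent.US

open Pool.Agent.U3
open scoped ComplexConjugate Classical

namespace IMn

theorem cm_le {f : ℤ → ℂ} (hf : CM f) (n : ℤ) : ‖f n‖ ≤ 1 := by
  rcases eq_or_ne n 0 with rfl | h
  · rw [hf.zero, norm_zero]
    exact zero_le_one
  · exact (hf.nrm n h).le

theorem sp_ct {f : ℤ → ℂ} (hf : ∀ n, ‖f n‖ ≤ 1) (A B : ℤ) : Sp (ct f A B) A B := by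
  refine ⟨fun n => ?_, fun n hn => ?_⟩
  · unfold ct
    split_ifs
    · exact hf n
    · rw [norm_zero]
      exact zero_le_one
  · unfold ct
    rw [if_neg hn]

theorem al_mul {k : ℕ} (c : ℝ) (w : (Fin k → ℤ) → ℝ) (t : ℤ) (r d : Fin k → ℤ) :
    al (fun x => c * w x) t r d = c * al w t r d := by
  unfold al
  rw [Finset.mul_sum]
  refine Finset.sum_congr rfl fun s _ => ?_
  ring

theorem card_bk (k X : ℕ) : (bk k X).card = (2 * X + 1) ^ k := by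
  unfold bk
  rw [Fintype.card_piFinset, Finset.prod_const, Finset.card_univ, Fintype.card_fin, Int.card_Icc]
  congr 1
  omega

theorem card_bk_le (k X : ℕ) (hX : 1 ≤ X) : ((bk k X).card : ℝ) ≤ (3 * X : ℝ) ^ k := by
  rw [card_bk]
  push_cast
  have : (1 : ℝ) ≤ X := by exact_mod_cast hX
  exact pow_le_pow_left₀ (by positivity) (by linarith) k

theorem mem_bk {k X : ℕ} {r : Fin k → ℤ} : r ∈ bk k X ↔ ∀ i, |r i| ≤ X := by
  unfold bk
  rw [Fintype.mem_piFinset]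
  refine forall_congr' fun i => ?_
  rw [Finset.mem_Icc, abs_le]

theorem len {N t : ℕ} {A B' : ℤ} (ht : 1 ≤ t) (htN : t ≤ N) (hA : -(N : ℤ) ≤ A) (hB : B' ≤ N) :
    ((B' / (t : ℤ) : ℤ) : ℝ) - (cl A t : ℝ) + 1 ≤ 3 * N / t := by
  have ht0 : (0 : ℝ) < t := by exact_mod_cast ht
  have h1 : ((B' / (t : ℤ) : ℤ) : ℝ) * t ≤ N := by
    have e : B' / (t : ℤ) * t ≤ N := (Int.ediv_mul_le B' (by exact_mod_cast (by omega : t ≠ 0))).trans hB
    exact_mod_cast e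
  have h2 : (((-A) / (t : ℤ) : ℤ) : ℝ) * t ≤ N := by
    have e : (-A) / (t : ℤ) * t ≤ N :=
      (Int.ediv_mul_le (-A) (by exact_mod_cast (by omega : t ≠ 0))).trans (by omega)
    exact_mod_cast e
  have h3 : (t : ℝ) ≤ N := by exact_mod_cast htN
  unfold cl
  rw [le_div_iff₀ ht0]
  push_cast
  nlinarith

theorem cnt_large {ι : Type} (P : Finset ι) (v : ι → ℝ) (Z κb κ2 W : ℝ) (hZ : 0 < Z)
    (hv0 : ∀ p ∈ P, 0 ≤ v p) (hv : ∀ p ∈ P, v p ≤ Z)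
    (hP : (P.card : ℝ) * κ2 ^ 2 ≤ κb / 2 * W) (hs : κb * W * Z ^ 2 ≤ ∑ p ∈ P, v p ^ 2) :
    κb / 2 * W ≤ ((P.filter fun p => κ2 * Z ≤ v p).card : ℝ) := by
  have h1 := Finset.sum_filter_add_sum_filter_not P (fun p => κ2 * Z ≤ v p) fun p => v p ^ 2
  have h2 : ∑ p ∈ P.filter (fun p => κ2 * Z ≤ v p), v p ^ 2 ≤
      ((P.filter fun p => κ2 * Z ≤ v p).card : ℝ) * Z ^ 2 := by
    rw [← nsmul_eq_mul]
    refine Finset.sum_le_card_nsmul _ _ _ fun p hp => ?_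
    have hp' := (Finset.mem_filter.mp hp).1
    exact pow_le_pow_left₀ (hv0 p hp') (hv p hp') 2
  have h3 : ∑ p ∈ P.filter (fun p => ¬ κ2 * Z ≤ v p), v p ^ 2 ≤ (P.card : ℝ) * (κ2 * Z) ^ 2 := by
    refine le_trans (b := ((P.filter fun p => ¬ κ2 * Z ≤ v p).card : ℝ) * (κ2 * Z) ^ 2) ?_ ?_
    · rw [← nsmul_eq_mul]
      refine Finset.sum_le_card_nsmul _ _ _ fun p hp => ?_
      have hp' := Finset.mem_filter.mp hp
      exact pow_le_pow_left₀ (hv0 p hp'.1) (not_le.mp hp'.2).le 2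
    · refine mul_le_mul_of_nonneg_right ?_ (by positivity)
      exact_mod_cast Finset.card_filter_le _ _
  have h4 : (P.card : ℝ) * (κ2 * Z) ^ 2 ≤ κb / 2 * W * Z ^ 2 := by
    have := mul_le_mul_of_nonneg_right hP (sq_nonneg Z)
    calc (P.card : ℝ) * (κ2 * Z) ^ 2 = (P.card : ℝ) * κ2 ^ 2 * Z ^ 2 := by ring
      _ ≤ _ := this
  have h5 : κb / 2 * W * Z ^ 2 ≤ ((P.filter fun p => κ2 * Z ≤ v p).card : ℝ) * Z ^ 2 := by
    nlinarith
  exact le_of_mul_le_mul_right h5 (by positivity)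

/-- the property of `StPDk` with fixed constants -/
def PDkAt (k : ℕ) (κ κ' : ℝ) : Prop :=
    ∀ (F : ℤ → ℂ) (A B : ℤ) (Z : ℝ), Sp F A B → (B - A + 1 : ℝ) ≤ Z → 0 ≤ Z →
    ∀ (X D t : ℕ) (b g : Fin k → ℤ) (R : Finset (Fin k → ℤ)) (w : (Fin k → ℤ) → ℝ),
      1 ≤ X → 1 ≤ t → t * D ≤ X → (∀ r ∈ R, ∀ i, |r i| ≤ X) →
      κ * (X : ℝ) ^ k * Z ^ 2 ≤ ∑ r ∈ R, ‖CK k F A B (fun i => b i + g i * r i) (w r)‖ ^ 2 →
      κ' * (X : ℝ) ^ k * (D : ℝ) ^ k * Z ^ 2 ≤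
        ∑ d ∈ bk k D, ∑ r ∈ R.filter (fun r => ∀ s, cn t r d s ∈ R),
          ‖CK k F A B (fun i => t * g i * d i) (al w t r d)‖ ^ 2

theorem step3 {k : ℕ} {κa κb κ2 δ1 : ℝ} (hκb : 0 < κb) (hκ2 : κ2 ^ 2 = κb / (2 * 9 ^ k))
    (hδ1 : 0 < δ1) (hκa : κa = δ1 ^ 3 / 72) (hPk : PDkAt k κa κb) (hB5 : StBas)
    {N t Q X D : ℕ} {f : ℤ → ℂ} (hf : ∀ n, ‖f n‖ ≤ 1) {A B' : ℤ} (ht : 1 ≤ t) (htN : t ≤ N)
    (hA : -(N : ℤ) ≤ A) (hB : B' ≤ N) (htQ : t ∣ Q) (H : Fin k → ℤ) (w : (Fin k → ℤ) → ℝ)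
    (Rt : Finset (Fin k → ℤ)) (hX : 1 ≤ X) (hD : 1 ≤ D) (htD : t * D ≤ X)
    (hRt : ∀ r ∈ Rt, ∀ i, |r i| ≤ X) (hcard : δ1 / 2 * (X : ℝ) ^ k ≤ Rt.card)
    (hgood : ∀ r ∈ Rt, δ1 / 2 * N / t ≤ ‖CK k (ct f (cl A t) (B' / t)) (cl A t) (B' / t)
      (fun i => (Q * H i * r i) / t) (t * w r)‖) :
    κb / 2 * ((X : ℝ) ^ k * (D : ℝ) ^ k) ≤ (((Rt ×ˢ bk k D).filter fun p =>
      κ2 * (3 * N / t) ≤ ‖CK k (ct f (cl A t) (B' / t)) (cl A t) (B' / t)
        (fun i => Q * H i * p.2 i) (t * al w t p.1 p.2)‖).card : ℝ) := by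
  obtain ⟨m, rfl⟩ := htQ
  have ht0 : (0 : ℝ) < t := by exact_mod_cast ht
  have htz : (t : ℤ) ≠ 0 := by exact_mod_cast (by omega : t ≠ 0)
  have hN0 : (0 : ℝ) < N := by exact_mod_cast (by omega : 0 < N)
  have hZ : (0 : ℝ) < 3 * N / t := by positivity
  have hSp := sp_ct hf (cl A t) (B' / t)
  have hlen := len ht htN hA hB
  have hsum := hPk (ct f (cl A t) (B' / t)) (cl A t) (B' / t) (3 * N / t) hSp hlen hZ.le X D t
    (fun _ => 0) (fun i => m * H i) Rt (fun r => t * w r) hX ht htD hRt (by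
      have e1 : ∀ r ∈ Rt, (δ1 / 2 * N / t) ^ 2 ≤
          ‖CK k (ct f (cl A t) (B' / t)) (cl A t) (B' / t) (fun i => 0 + m * H i * r i)
            (t * w r)‖ ^ 2 := by
        intro r hr
        have e2 := hgood r hr
        have e3 : (fun i => ((t * m : ℕ) : ℤ) * H i * r i / (t : ℤ)) =
            fun i => 0 + (m : ℤ) * H i * r i := by
          funext i
          push_cast
          rw [zero_add, mul_assoc (t : ℤ), mul_assoc (t : ℤ), Int.mul_ediv_cancel_left _ htz]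
        rw [e3] at e2
        exact pow_le_pow_left₀ (by positivity) e2 2
      have e4 := Finset.card_nsmul_le_sum Rt _ _ e1
      rw [nsmul_eq_mul] at e4
      refine le_trans ?_ e4
      have e5 : κa * (X : ℝ) ^ k * (3 * N / t) ^ 2 =
          δ1 / 2 * (X : ℝ) ^ k * (δ1 / 2 * N / t) ^ 2 := by
        rw [hκa]
        field_simp
        ring
      rw [e5]
      exact mul_le_mul_of_nonneg_right hcard (by positivity))
  have key := cnt_large (Rt ×ˢ bk k D) (fun p => ‖CK k (ct f (cl A t) (B' / t)) (cl A t) (B' / t)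
        (fun i => ((t * m : ℕ) : ℤ) * H i * p.2 i) (t * al w t p.1 p.2)‖) (3 * N / t) κb κ2
        ((X : ℝ) ^ k * (D : ℝ) ^ k) hZ (fun p _ => norm_nonneg _)
        (fun p _ => hB5.2.2.2.2.1 k _ _ _ _ _ _ hSp hlen hZ.le) ?_ ?_
  · exact key
  · rw [Finset.card_product, hκ2]
    push_cast
    have c1 : (Rt.card : ℝ) ≤ (3 * X : ℝ) ^ k := by
      refine le_trans ?_ (card_bk_le k X hX)
      exact_mod_cast Finset.card_le_card fun r hr => mem_bk.mpr (hRt r hr)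
    have c2 := card_bk_le k D hD
    have c3 : (Rt.card : ℝ) * ((bk k D).card : ℝ) ≤ (3 * X : ℝ) ^ k * (3 * D : ℝ) ^ k :=
      mul_le_mul c1 c2 (by positivity) (by positivity)
    have c4 : (3 * X : ℝ) ^ k * (3 * D : ℝ) ^ k = 9 ^ k * ((X : ℝ) ^ k * (D : ℝ) ^ k) := by
      rw [mul_pow, mul_pow, show (9 : ℝ) = 3 * 3 by norm_num, mul_pow]
      ring
    rw [c4] at c3
    have c5 : (0 : ℝ) ≤ κb / (2 * 9 ^ k) := by positivity
    calc (Rt.card : ℝ) * ((bk k D).card : ℝ) * (κb / (2 * 9 ^ k))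
        ≤ 9 ^ k * ((X : ℝ) ^ k * (D : ℝ) ^ k) * (κb / (2 * 9 ^ k)) :=
          mul_le_mul_of_nonneg_right c3 c5
      _ = κb / 2 * ((X : ℝ) ^ k * (D : ℝ) ^ k) := by
          field_simp
  · rw [Finset.sum_product_right]
    refine le_trans (le_of_eq ?_) (hsum.trans ?_)
    · ring
    · refine Finset.sum_le_sum fun d _ => ?_
      refine le_trans (Finset.sum_le_sum_of_subset_of_nonneg (Finset.filter_subset _ _)
        fun _ _ _ => by positivity) (le_of_eq ?_)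
      refine Finset.sum_congr rfl fun r _ => ?_
      rw [al_mul]
      have e6 : (fun i => (t : ℤ) * ((m : ℤ) * H i) * d i) =
          fun i => ((t * m : ℕ) : ℤ) * H i * d i := by
        funext i
        push_cast
        ring
      rw [e6]

end IMn

open IMn in
theorem us_Mn (h0 : StSt0) (hBad : StBad) (hSel : StSel) (hP : StPDk) (hC : StCnt) (hO : StOne)
    (hB : StBas) : StMn := by
  intro k H δ hk _ hδ
  obtain ⟨δ1, hδ1, hSt⟩ := h0 k δ hδ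
  obtain ⟨κb, hκb, hPk⟩ := hP k (δ1 ^ 3 / 72) (by positivity)
  obtain ⟨κ2, hκ2p, hκ2s⟩ : ∃ κ2 : ℝ, 0 < κ2 ∧ κ2 ^ 2 = κb / (2 * 9 ^ k) :=
    ⟨Real.sqrt (κb / (2 * 9 ^ k)), Real.sqrt_pos.mpr (by positivity), Real.sq_sqrt (by positivity)⟩
  obtain ⟨c, hc⟩ : ∃ c : ℝ, c = κb / 2 := ⟨_, rfl⟩
  have hc0 : 0 < c := by
    rw [hc]
    positivity
  obtain ⟨ε, θ, P0, hε, hε1, hθ, hθ1, hP0, hOne⟩ := hO k (c / (2 * 15 ^ k)) κ2 (by positivity) hκ2p
  obtain ⟨P1, hP01, hS⟩ := hSel ε θ (64 / δ1 ^ 2) P0 hε hε1 hθ hθ1 hP0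
  obtain ⟨Bo, C, No, hO2⟩ := hOne P1 hP01
  obtain ⟨Ps, hPs⟩ : ∃ Ps : Finset ℕ, Ps = (Finset.Icc P0 P1).filter Nat.Prime := ⟨_, rfl⟩
  have hPs' : ∀ q ∈ Ps, q.Prime := fun q hq => by
    rw [hPs] at hq
    exact (Finset.mem_filter.mp hq).2
  obtain ⟨Nb, hb⟩ := hBad Ps hPs'
  obtain ⟨Q, hQ⟩ : ∃ Q : ℕ, Q = ∏ q ∈ Ps, q := ⟨_, rfl⟩
  have hQ1 : 1 ≤ Q := by
    rw [hQ]
    exact Finset.prod_pos fun q hq => (hPs' q hq).pos
  have hdvd : ∀ q ∈ Ps, q ∣ Q := fun q hq => by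
    rw [hQ]
    exact Finset.dvd_prod_of_mem _ hq
  have hP1 : 1 ≤ P1 := by omega
  have hP1r : (1 : ℝ) ≤ P1 := by exact_mod_cast hP1
  have hQ1r : (1 : ℝ) ≤ Q := by exact_mod_cast hQ1
  refine ⟨Q, max Bo P1, min (c / (2 * 5 ^ k) / (16 * Q * P1) ^ k / P1) (3 * κ2 / P1), C,
    max (max No Nb) (16 * Q * P1), hQ1, le_max_of_le_right hP1,
    lt_min (by positivity) (by positivity), ?_⟩
  intro N hN f hf A B' hA hB' R hR hcard hbig
  have hN1 : No ≤ N := (le_max_left _ _).trans ((le_max_left _ _).trans hN)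
  have hN2 : Nb ≤ N := (le_max_right _ _).trans ((le_max_left _ _).trans hN)
  have hN3 : 16 * Q * P1 ≤ N := (le_max_right _ _).trans hN
  have hfn := cm_le hf
  have hQN : Q ≤ N := by nlinarith
  have hPN : P1 ≤ N := by nlinarith
  obtain ⟨R1, hR1, hcard1, hbig1⟩ := hSt f hfn H Q N A B' hQ1 hQN hA hB' R hR hcard hbig
  obtain ⟨X, hXd⟩ : ∃ X : ℕ, X = N / Q := ⟨_, rfl⟩
  obtain ⟨D, hDd⟩ : ∃ D : ℕ, D = X / (4 * P1) := ⟨_, rfl⟩
  rw [← hXd] at hR1 hcard1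
  have hX16 : 16 * P1 ≤ X := by
    rw [hXd, Nat.le_div_iff_mul_le (by omega)]
    calc 16 * P1 * Q = 16 * Q * P1 := by ring
      _ ≤ N := hN3
  have hX : 1 ≤ X := by omega
  have hXN : X ≤ N := by
    rw [hXd]
    exact Nat.div_le_self _ _
  have hD1 : 1 ≤ D := by
    rw [hDd, Nat.le_div_iff_mul_le (by omega)]
    omega
  have hDX' : D * (4 * P1) ≤ X := by
    rw [hDd]
    exact Nat.div_mul_le_self _ _
  have hDX : ∀ t ≤ P1, t * D ≤ X := fun t ht => by nlinarith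
  have hDN' : D ≤ N := by nlinarith
  have hND : N ≤ 16 * Q * P1 * D := by
    have a1 : N < Q * (X + 1) := by
      rw [hXd]
      exact Nat.lt_mul_div_succ N (by omega)
    have a2 : X < 4 * P1 * (D + 1) := by
      rw [hDd]
      exact Nat.lt_mul_div_succ X (by omega)
    have a3 : X + 1 ≤ 4 * P1 * (2 * D) := by nlinarith
    calc N ≤ Q * (X + 1) := a1.le
      _ ≤ Q * (4 * P1 * (2 * D)) := Nat.mul_le_mul_left _ a3
      _ = 8 * (Q * P1 * D) := by ring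
      _ ≤ 16 * (Q * P1 * D) := by omega
      _ = _ := by ring
  have hN0 : (0 : ℝ) < N := by exact_mod_cast (by omega : 0 < N)
  have hXr : (1 : ℝ) ≤ X := by exact_mod_cast hX
  choose! w hw using hbig1
  have hR1ne : R1.Nonempty := by
    rw [← Finset.card_pos]
    have : (0 : ℝ) < δ1 * (X : ℝ) ^ k := by positivity
    exact_mod_cast lt_of_lt_of_le this hcard1
  obtain ⟨T, Pn, hPT, hTP, hTPn, hPn, hθT, hhalf⟩ := hS (Fin k → ℤ) R1 (fun t r =>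
    ‖CK k (ct f (cl A t) (B' / t)) (cl A t) (B' / t) (fun i => (Q * H i * r i) / t) (t * w r)‖ <
      δ1 / 2 * N / t) hR1ne (fun r hr => by
    have h1 := hb N hN2 f hf k A B' (fun i => Q * H i * r i) (w r) δ1 hk hδ1 hA hB' (fun q hq i => by
      have h2 : (q : ℤ) ∣ (Q : ℤ) := by exact_mod_cast hdvd q hq
      exact (h2.mul_right _).mul_right _) (hw r hr)
    refine le_trans (le_of_eq ?_) h1
    refine Finset.sum_congr ?_ fun _ _ => rfl
    ext t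
    simp only [hPs, Finset.mem_filter, and_assoc])
  have hPnQ : ∀ t ∈ Pn, t ∣ Q := fun t ht => by
    obtain ⟨a1, a2, a3, -⟩ := hPn t ht
    refine hdvd t ?_
    rw [hPs, Finset.mem_filter, Finset.mem_Icc]
    exact ⟨⟨hPT.trans a2, a3⟩, a1⟩
  obtain ⟨Gt, hGt⟩ : ∃ Gt : ℕ → Finset ((Fin k → ℤ) × (Fin k → ℤ)), ∀ t, Gt t =
      ((R1.filter fun r => ¬ ‖CK k (ct f (cl A t) (B' / t)) (cl A t) (B' / t)
        (fun i => (Q * H i * r i) / t) (t * w r)‖ < δ1 / 2 * N / t) ×ˢ bk k D).filter fun p =>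
      κ2 * (3 * N / t) ≤ ‖CK k (ct f (cl A t) (B' / t)) (cl A t) (B' / t)
        (fun i => Q * H i * p.2 i) (t * al w t p.1 p.2)‖ := ⟨_, fun _ => rfl⟩
  have hR1X : ∀ r ∈ R1, ∀ i, |r i| ≤ X := fun r hr => mem_bk.mp (hR1 hr)
  obtain ⟨E, hE1, hE2, hE3⟩ := hC k T X D c Pn Gt (by omega) hD1 (hDX T hTP) hc0
    (fun t _ p hp => by
      rw [hGt, Finset.mem_filter, Finset.mem_product, Finset.mem_filter] at hp
      exact ⟨hR1X _ hp.1.1.1, hp.1.2⟩)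
    (fun t ht => by
      obtain ⟨a1, a2, a3, -⟩ := hPn t ht
      have a4 : (R1.card : ℝ) ≤ 2 * _ := hhalf t ht
      rw [hGt, hc, mul_assoc]
      refine step3 hκb hκ2s hδ1 rfl hPk hB hfn a1.one_lt.le (a3.trans hPN) hA hB' (hPnQ t ht) H w
        _ hX hD1 (hDX t a3) (fun r hr => hR1X r (Finset.mem_filter.mp hr).1) ?_ (fun r hr => ?_)
      · linarith
      · exact not_lt.mp (Finset.mem_filter.mp hr).2)
    ⟨T, hTPn⟩
  have hd : ∀ d ∈ E, ∃ t ∈ Pn, ∃ (α : ℝ) (M : ℕ), 1 ≤ M ∧ M ≤ Bo ∧ nd (M * α) ≤ C / N ∧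
      κ2 * (3 * N / t) ≤ ‖CK k (ct f (cl A t) (B' / t)) (cl A t) (B' / t)
        (fun i => Q * H i * d i) α‖ := by
    intro d hdE
    obtain ⟨x, S, hScard, hSp⟩ := hE3 d hdE
    refine hO2 N hN1 f hfn A B' (fun i => Q * H i * d i) x d w T Pn S hA hB' hPT hTP
      (fun t ht => (hPn t ht).2) hθT hScard (fun p hp => ?_)
    obtain ⟨hq, t, ht, hpt, hG⟩ := hSp p hp
    rw [hGt] at hG
    exact ⟨hq, t, ht, hpt, (Finset.mem_filter.mp hG).2⟩
  choose! τ hτ hτ2 using hd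
  have hPncard : Pn.card ≤ P1 := by
    have : Pn ⊆ Finset.Icc 1 P1 := fun t ht => by
      obtain ⟨a1, a2, a3, -⟩ := hPn t ht
      exact Finset.mem_Icc.mpr ⟨a1.one_lt.le, a3⟩
    simpa using Finset.card_le_card this
  obtain ⟨t, htP, htc⟩ := Finset.exists_le_card_fiber_of_nsmul_le_card_of_maps_to (s := E) (t := Pn)
    (f := τ) (b := (E.card : ℝ) / P1) hτ ⟨T, hTPn⟩ (by
      rw [nsmul_eq_mul, mul_div_assoc', div_le_iff₀ (by linarith), mul_comm]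
      exact mul_le_mul_of_nonneg_left (by exact_mod_cast hPncard) (by positivity))
  obtain ⟨a1, a2, a3, -⟩ := hPn t htP
  have ht0 : (0 : ℝ) < t := by exact_mod_cast a1.pos
  refine ⟨t, E.filter fun d => τ d = t, a1.one_lt.le, a3.trans (le_max_right _ _), ?_, ?_, ?_⟩
  · intro d hd i
    have h1 := mem_bk.mp (hE1 (Finset.mem_filter.mp hd).1) i
    exact h1.trans (by exact_mod_cast hDN')
  · refine le_trans ?_ htc
    refine le_trans (mul_le_mul_of_nonneg_right (min_le_left _ _) (by positivity)) ?_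
    have h1 : (N : ℝ) ^ k ≤ (16 * Q * P1) ^ k * (D : ℝ) ^ k := by
      rw [← mul_pow]
      exact pow_le_pow_left₀ hN0.le (by exact_mod_cast hND) k
    have h2 : c / (2 * 5 ^ k) / (16 * Q * P1) ^ k / P1 * (N : ℝ) ^ k ≤
        c / (2 * 5 ^ k) / (16 * Q * P1) ^ k / P1 * ((16 * Q * P1) ^ k * (D : ℝ) ^ k) :=
      mul_le_mul_of_nonneg_left h1 (by positivity)
    refine h2.trans ?_
    have h3 : c / (2 * 5 ^ k) / (16 * Q * P1) ^ k / P1 * ((16 * Q * P1) ^ k * (D : ℝ) ^ k) =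
        c / (2 * 5 ^ k) * (D : ℝ) ^ k / P1 := by
      have : ((16 : ℝ) * Q * P1) ^ k ≠ 0 := by positivity
      field_simp
    rw [h3]
    exact div_le_div_of_nonneg_right hE2 (by linarith)
  · intro d hd
    obtain ⟨hdE, hdt⟩ := Finset.mem_filter.mp hd
    obtain ⟨α, M, b1, b2, b3, b4⟩ := hτ2 d hdE
    rw [hdt] at b4
    refine ⟨α, M, b1, b2.trans (le_max_left _ _), b3, le_trans ?_ b4⟩
    refine le_trans (mul_le_mul_of_nonneg_right (min_le_right _ _) hN0.le) ?_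
    rw [div_mul_eq_mul_div, div_le_iff₀ (by linarith)]
    have h4 : (t : ℝ) ≤ P1 := by exact_mod_cast a3
    have h5 : κ2 * (3 * N / t) * P1 = 3 * κ2 * N * (P1 / t) := by
      field_simp
    rw [h5]
    have h6 : 1 ≤ (P1 : ℝ) / t := (one_le_div ht0).mpr h4
    have h7 : 0 ≤ 3 * κ2 * N := by positivity
    nlinarith

end Pool.Agent.US
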