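import Pool.Agent.Work.MP_0f91f8_co.US.Stmts2
import Pool.Agent.Work.MP_0f91f8_co.U3.All

/-!
# Block US, item One: one difference, from many good pairs to a rational frequency
-/

set_option autoImplicit false

namespace Pool.Agent.US

open Pool.Agent.U3
open scoped ComplexConjugate Classical

namespace AuxOne

/-- real bounds for the integer quotient -/
theorem quo (y : ℤ) (t : ℕ) (ht : 1 ≤ t) :
    (((y / (t : ℤ) : ℤ)) : ℝ) ≤ (y : ℝ) / t ∧ (y : ℝ) / t < ((y / (t : ℤ) : ℤ) : ℝ) + 1 := by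
  have ht0 : (0 : ℤ) < (t : ℤ) := by exact_mod_cast ht
  have htr : (0 : ℝ) < (t : ℝ) := by exact_mod_cast ht
  have h1 : (y / (t : ℤ)) * t ≤ y := Int.ediv_mul_le y ht0.ne'
  have h2 : y < (y / (t : ℤ) + 1) * t := Int.lt_ediv_add_one_mul_self y ht0
  constructor
  · rw [le_div_iff₀ htr]
    exact_mod_cast h1
  · rw [div_lt_iff₀ htr]
    exact_mod_cast h2

theorem diff (y : ℤ) (N T t : ℕ) (ε : ℝ) (hT : 1 ≤ T) (hTt : T ≤ t) (ht : (t : ℝ) ≤ (1 + ε) * T)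
    (hy : |y| ≤ (N : ℤ)) : |y / (t : ℤ) - y / (T : ℤ)| ≤ ((⌈ε * N / T⌉₊ + 1 : ℕ) : ℤ) := by
  have hTr : (0 : ℝ) < (T : ℝ) := by exact_mod_cast hT
  have htr : (0 : ℝ) < (t : ℝ) := by exact_mod_cast (hT.trans hTt)
  have hTtr : (T : ℝ) ≤ t := by exact_mod_cast hTt
  obtain ⟨a1, a2⟩ := quo y t (hT.trans hTt)
  obtain ⟨b1, b2⟩ := quo y T hT
  have hyr : |(y : ℝ)| ≤ N := by exact_mod_cast hy
  have h1 : |(y : ℝ) / t - y / T| ≤ ε * N / T := by
    have e1 : (y : ℝ) / t - y / T = y * (-((t - T) / (t * T))) := by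
      field_simp
      ring
    have hnn : (0 : ℝ) ≤ ((t : ℝ) - T) / (t * T) := div_nonneg (by linarith) (by positivity)
    rw [e1, abs_mul, abs_neg, abs_of_nonneg hnn]
    have h2 : ((t : ℝ) - T) / (t * T) ≤ ε / T := by
      rw [div_le_div_iff₀ (by positivity) hTr]
      have h3 : (t : ℝ) - T ≤ ε * T := by linarith
      have h4 : (0 : ℝ) ≤ t - T := by linarith
      have h5 : 0 ≤ ε * T := h4.trans h3
      calc ((t : ℝ) - T) * T ≤ (ε * T) * T := by gcongr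
        _ ≤ (ε * T) * t := by gcongr
        _ = ε * (t * T) := by ring
    have h6 : 0 ≤ ((t : ℝ) - T) / (t * T) := div_nonneg (by linarith) (by positivity)
    calc |(y : ℝ)| * (((t : ℝ) - T) / (t * T)) ≤ N * (ε / T) :=
          mul_le_mul hyr h2 h6 (Nat.cast_nonneg N)
      _ = ε * N / T := by ring
  have h7 : (ε * N / T : ℝ) ≤ (⌈ε * N / T⌉₊ : ℝ) := Nat.le_ceil _
  have h8 : |((y / (t : ℤ) : ℤ) : ℝ) - ((y / (T : ℤ) : ℤ) : ℝ)| ≤ (⌈ε * N / T⌉₊ : ℝ) + 1 := by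
    rw [abs_le] at h1 ⊢
    constructor <;> linarith [h1.1, h1.2]
  have h9 : ((|y / (t : ℤ) - y / (T : ℤ)| : ℤ) : ℝ) ≤ (((⌈ε * N / T⌉₊ + 1 : ℕ) : ℤ) : ℝ) := by
    push_cast
    exact h8
  exact_mod_cast h9

/-- a nonzero coefficient forces a nonempty interval -/
theorem nonem (k : ℕ) (F : ℤ → ℂ) (A B : ℤ) (h : Fin k → ℤ) (a : ℝ) (hne : 0 < ‖CK k F A B h a‖) :
    A ≤ B := by
  by_contra hlt
  have h1 : Finset.Icc A B = ∅ := Finset.Icc_eq_empty hlt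
  unfold CK at hne
  rw [h1, Finset.sum_empty, norm_zero] at hne
  exact lt_irrefl _ hne

theorem clB (A B : ℤ) (t : ℕ) (ht : 1 ≤ t) (h : cl A t ≤ B / (t : ℤ)) : A ≤ B := by
  have ht0 : (0 : ℤ) < (t : ℤ) := by exact_mod_cast ht
  unfold cl at h
  have h1 : ((-A) / (t : ℤ)) * t ≤ -A := Int.ediv_mul_le (-A) ht0.ne'
  have h2 : (B / (t : ℤ)) * t ≤ B := Int.ediv_mul_le B ht0.ne'
  nlinarith

theorem est (hCl : StClo) (k : ℕ) (κ2 ε : ℝ) (hκ : 0 < κ2) (hε0 : 0 < ε) (hε1 : ε ≤ 1)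
    (hε : ε ≤ κ2 / 2 ^ (k + 6)) (N T t : ℕ) (f : ℤ → ℂ) (hf : ∀ n, ‖f n‖ ≤ 1) (A B' : ℤ)
    (h : Fin k → ℤ) (α : ℝ) (hT : 1 ≤ T) (hTt : T ≤ t) (ht : (t : ℝ) ≤ (1 + ε) * T)
    (hA : -(N : ℤ) ≤ A) (hB : B' ≤ N) (hN0 : 0 < N) (hN : 2 ^ (k + 7) / κ2 * T ≤ N)
    (hc : κ2 * (3 * N / t) ≤ ‖CK k (ct f (cl A t) (B' / t)) (cl A t) (B' / t) h α‖) :
    κ2 / 4 * (3 * N / T) ≤ ‖CK k (ct f (cl A T) (B' / T)) (cl A T) (B' / T) h α‖ := by
  have hTr : (0 : ℝ) < (T : ℝ) := by exact_mod_cast hT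
  have htr : (0 : ℝ) < (t : ℝ) := by exact_mod_cast (hT.trans hTt)
  have hNr : (0 : ℝ) < (N : ℝ) := by exact_mod_cast hN0
  have hpos : 0 < κ2 * (3 * N / t) := by positivity
  have h1 : cl A t ≤ B' / (t : ℤ) := nonem _ _ _ _ _ _ (hpos.trans_le hc)
  have h2 : A ≤ B' := clB A B' t (hT.trans hTt) h1
  have hA2 : |-A| ≤ (N : ℤ) := by
    rw [abs_neg, abs_le]
    exact ⟨hA, h2.trans hB⟩
  have hB2 : |B'| ≤ (N : ℤ) := by
    rw [abs_le]
    exact ⟨hA.trans h2, hB⟩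
  have d1 := diff (-A) N T t ε hT hTt ht hA2
  have d2 := diff B' N T t ε hT hTt ht hB2
  have d1' : |cl A t - cl A T| ≤ ((⌈ε * N / T⌉₊ + 1 : ℕ) : ℤ) := by
    unfold cl
    have e1 : -((-A) / (t : ℤ)) - -((-A) / (T : ℤ)) = -((-A) / (t : ℤ) - (-A) / (T : ℤ)) := by ring
    rw [e1, abs_neg]
    exact d1
  have h3 := hCl f hf k (⌈ε * N / T⌉₊ + 1) (cl A t) (B' / t) (cl A T) (B' / T) h α d1' d2
  have h4 : (((⌈ε * N / T⌉₊ + 1 : ℕ) : ℝ)) ≤ ε * N / T + 2 := by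
    have := (Nat.ceil_lt_add_one (show (0 : ℝ) ≤ ε * N / T by positivity)).le
    push_cast
    linarith
  have h5 : (2 : ℝ) ^ (k + 2) * ((⌈ε * N / T⌉₊ + 1 : ℕ) : ℝ) ≤ κ2 * N / (8 * T) := by
    have e1 : (2 : ℝ) ^ (k + 2) * (ε * N / T) ≤ κ2 * N / (16 * T) := by
      calc (2 : ℝ) ^ (k + 2) * (ε * N / T) ≤ (2 : ℝ) ^ (k + 2) * ((κ2 / 2 ^ (k + 6)) * N / T) := by
            gcongr
        _ = κ2 * N / (16 * T) := by
            have : (2 : ℝ) ^ (k + 6) = 2 ^ (k + 2) * 16 := by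
              rw [show k + 6 = (k + 2) + 4 by ring, pow_add]; norm_num
            rw [this]
            field_simp
    have e2 : (2 : ℝ) ^ (k + 2) * 2 ≤ κ2 * N / (16 * T) := by
      rw [le_div_iff₀ (by positivity)]
      have e3 : (2 : ℝ) ^ (k + 7) * T ≤ κ2 * N := by
        rw [div_mul_eq_mul_div, div_le_iff₀ hκ] at hN
        linarith
      have e4 : (2 : ℝ) ^ (k + 7) = 2 ^ (k + 2) * 32 := by
        rw [show k + 7 = (k + 2) + 5 by ring, pow_add]; norm_num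
      rw [e4] at e3
      linarith
    calc (2 : ℝ) ^ (k + 2) * ((⌈ε * N / T⌉₊ + 1 : ℕ) : ℝ) ≤ (2 : ℝ) ^ (k + 2) * (ε * N / T + 2) := by
          gcongr
      _ = (2 : ℝ) ^ (k + 2) * (ε * N / T) + (2 : ℝ) ^ (k + 2) * 2 := by ring
      _ ≤ κ2 * N / (16 * T) + κ2 * N / (16 * T) := add_le_add e1 e2
      _ = κ2 * N / (8 * T) := by field_simp; ring
  have h6 : κ2 * (3 * N / t) ≥ 3 / 2 * (κ2 * N / T) := by
    have h7 : (t : ℝ) ≤ 2 * T := ht.trans (by nlinarith)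
    have e1 : κ2 * (3 * N / t) = 3 * κ2 * N / t := by ring
    have e2 : 3 / 2 * (κ2 * N / T) = 3 * κ2 * N / (2 * T) := by field_simp
    rw [e1, e2]
    exact div_le_div_of_nonneg_left (by positivity) htr h7
  have h8 : ‖CK k (ct f (cl A t) (B' / t)) (cl A t) (B' / t) h α‖ ≤
      ‖CK k (ct f (cl A T) (B' / T)) (cl A T) (B' / T) h α‖ +
      2 ^ (k + 2) * ((⌈ε * N / T⌉₊ + 1 : ℕ) : ℝ) := by
    have := norm_sub_norm_le (CK k (ct f (cl A t) (B' / t)) (cl A t) (B' / t) h α)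
      (CK k (ct f (cl A T) (B' / T)) (cl A T) (B' / T) h α)
    linarith
  have h9 : κ2 / 4 * (3 * N / T) = 3 / 4 * (κ2 * N / T) := by ring
  have h10 : κ2 * N / (8 * T) = 1 / 8 * (κ2 * N / T) := by field_simp
  rw [h9]
  rw [h10] at h5
  have h11 : 0 < κ2 * N / T := by positivity
  linarith

end AuxOne

theorem us_One (hCl : StClo) (hCo : StCov) (hCu : StCub) (hR : StRel) (hB : StBas) : StOne := by
  intro k c1 κ2 hc1 hκ2
  obtain ⟨K, hK1, hK⟩ := hCo (κ2 / 4) (by positivity)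
  have hKr : (0 : ℝ) < K := by exact_mod_cast hK1
  set θ : ℝ := 1 / 2 ^ (2 ^ k + 1) with hθ
  have hθ0 : 0 < θ := by rw [hθ]; positivity
  have hθ1 : θ < 1 := by
    rw [hθ, div_lt_one (by positivity)]
    exact one_lt_pow₀ (by norm_num) (Nat.succ_ne_zero _)
  have hθ2 : (2 : ℝ) ^ (2 ^ k) * θ < 1 := by
    rw [hθ, pow_succ]
    rw [mul_one_div, div_lt_one (by positivity)]
    have : (0 : ℝ) < 2 ^ (2 ^ k) := by positivity
    linarith
  obtain ⟨T0, hT0⟩ := hCu k (c1 / (2 * K)) θ (by positivity) hθ0 hθ2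
  set ε : ℝ := min 1 (κ2 / 2 ^ (k + 6)) with hε
  have hε0 : 0 < ε := by rw [hε]; exact lt_min one_pos (by positivity)
  have hε1 : ε ≤ 1 := min_le_left _ _
  have hε2 : ε ≤ κ2 / 2 ^ (k + 6) := min_le_right _ _
  refine ⟨ε, θ, max T0 2, hε0, hε1, hθ0, hθ1, le_max_right _ _, ?_⟩
  intro P1 hP1
  obtain ⟨B1, hB11, hB1⟩ := hR k P1
  refine ⟨B1, 2 * B1 * (2 * P1 / (3 * (κ2 / 4) ^ 2)), max P1 ⌈2 ^ (k + 7) / κ2 * P1⌉₊, ?_⟩
  intro N hN f hf A B' h x d w T Pn S hA hB' hTP hTP1 hPn hTc hSc hS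
  have hT2 : 2 ≤ T := (le_max_right _ _).trans hTP
  have hTT0 : T0 ≤ T := (le_max_left _ _).trans hTP
  have hT1 : 1 ≤ T := by omega
  have hTr : (0 : ℝ) < T := by exact_mod_cast hT1
  have hNP : P1 ≤ N := (le_max_left _ _).trans hN
  have hNT : T ≤ N := hTP1.trans hNP
  have hN0 : 0 < N := by omega
  have hNr : (0 : ℝ) < N := by exact_mod_cast hN0
  have hNTr : (T : ℝ) ≤ N := by exact_mod_cast hNT
  have hTP1r : (T : ℝ) ≤ P1 := by exact_mod_cast hTP1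
  have hNk : 2 ^ (k + 7) / κ2 * (T : ℝ) ≤ N := by
    have h1 : (⌈2 ^ (k + 7) / κ2 * (P1 : ℝ)⌉₊ : ℝ) ≤ N := by
      exact_mod_cast (le_max_right _ _).trans hN
    have h2 := Nat.le_ceil (2 ^ (k + 7) / κ2 * (P1 : ℝ))
    have h3 : 2 ^ (k + 7) / κ2 * (T : ℝ) ≤ 2 ^ (k + 7) / κ2 * (P1 : ℝ) := by gcongr
    linarith
  -- the frequencies
  set al' : (Fin k → ℤ) × ℤ → ℝ := fun p => (p.2 : ℝ) * al w p.2 (fun i => x i + p.1 i * d i) d
    with hal
  set η : ℝ := 2 / ((κ2 / 4) ^ 2 * (3 * N / T)) with hη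
  have hη0 : 0 ≤ η := by rw [hη]; positivity
  -- covering
  set I1 := cl A T with hI1
  set I2 := B' / (T : ℤ) with hI2
  have hSpF : Sp (ct f I1 I2) I1 I2 := by
    constructor
    · intro n
      unfold ct
      split_ifs
      · exact hf n
      · simp
    · intro n hn
      unfold ct
      rw [if_neg hn]
  have hSpG := hB.2.1 k (ct f I1 I2) h I1 I2 hSpF
  have hlen : ((I2 : ℝ) - I1 + 1 : ℝ) ≤ 3 * N / T := by
    obtain ⟨a1, -⟩ := AuxOne.quo B' T hT1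
    obtain ⟨b1, -⟩ := AuxOne.quo (-A) T hT1
    have hI1r : (I1 : ℝ) = -(((-A) / (T : ℤ) : ℤ) : ℝ) := by
      rw [hI1]; unfold cl; push_cast; rfl
    have hB'r : (B' : ℝ) ≤ N := by exact_mod_cast hB'
    have hAr : ((-A : ℤ) : ℝ) ≤ N := by
      have : -A ≤ (N : ℤ) := by linarith
      exact_mod_cast this
    have h1 : (B' : ℝ) / T ≤ N / T := by gcongr
    have h2 : ((-A : ℤ) : ℝ) / T ≤ N / T := by gcongr
    have h3 : (1 : ℝ) ≤ N / T := by
      rw [le_div_iff₀ hTr]; linarith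
    rw [hI1r]
    have h4 : 3 * (N : ℝ) / T = N / T + N / T + N / T := by ring
    rw [h4]
    linarith
  have hZ1 : (1 : ℝ) ≤ 3 * N / T := by
    rw [le_div_iff₀ hTr]; linarith
  obtain ⟨σ, hσ⟩ := hK (DK k (ct f I1 I2) h) I1 I2 (3 * N / T) hSpG.1 hZ1 hlen
  have hcov : ∀ p ∈ S, ∃ i, nd (al' p - σ i) ≤ η := by
    intro p hp
    obtain ⟨hp1, t, ht, hpt, hge⟩ := hS p hp
    obtain ⟨ht1, ht2, ht3⟩ := hPn t ht
    have h1 := AuxOne.est hCl k κ2 ε hκ2 hε0 hε1 hε2 N T t f hf A B' h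
      (t * al w t (fun i => x i + p.1 i * d i) d) hT1 ht1 ht3 hA hB' hN0 hNk hge
    have h2 : al' p = t * al w t (fun i => x i + p.1 i * d i) d := by
      rw [hal]
      simp only [hpt]
      push_cast
      rfl
    rw [h2]
    exact hσ _ h1
  -- popular index
  have hnon : Nonempty (Fin K) := ⟨⟨0, by omega⟩⟩
  have hne : (Finset.univ : Finset (Fin K)).Nonempty := Finset.univ_nonempty
  choose! ix hix using hcov
  obtain ⟨i0, -, hi0⟩ : ∃ y ∈ (Finset.univ : Finset (Fin K)),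
      (S.card : ℝ) / K ≤ (S.filter fun p => ix p = y).card := by
    refine Finset.exists_le_card_fiber_of_nsmul_le_card_of_maps_to
      (fun p _ => Finset.mem_univ _) hne ?_
    rw [Finset.card_univ, Fintype.card_fin, nsmul_eq_mul]
    rw [mul_div_cancel₀ _ hKr.ne']
  set Si := S.filter fun p => ix p = i0 with hSi
  have hSiS : ∀ p ∈ Si, p ∈ S ∧ ix p = i0 := fun p hp => Finset.mem_filter.1 hp
  have hSc2 : c1 / (2 * K) * (T : ℝ) ^ ((k : ℝ) + 1 - θ) ≤ Si.card := by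
    refine le_trans ?_ hi0
    rw [le_div_iff₀ hKr]
    have e1 : (T : ℝ) ^ ((k : ℝ) + 1 - θ) = (T : ℝ) ^ (1 - θ) * (T : ℝ) ^ k := by
      rw [← Real.rpow_natCast (T : ℝ) k, ← Real.rpow_add hTr]
      congr 1
      ring
    rw [e1]
    refine le_trans ?_ hSc
    have e2 : c1 / (2 * K) * ((T : ℝ) ^ (1 - θ) * (T : ℝ) ^ k) * K =
        c1 * ((T : ℝ) ^ (1 - θ) / 2) * (T : ℝ) ^ k := by
      field_simp
    rw [e2]
    have e3 : (T : ℝ) ^ (1 - θ) / 2 ≤ Pn.card := by linarith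
    gcongr
  obtain ⟨q, t, a, ha, hE⟩ := hT0 T hTT0 Si (by
    intro p hp
    obtain ⟨hp1, t, ht, hpt, -⟩ := hS p (hSiS p hp).1
    obtain ⟨ht1, ht2, ht3⟩ := hPn t ht
    refine ⟨hp1, ?_, ?_⟩
    · rw [hpt]; exact_mod_cast ht1
    · rw [hpt]
      have : (t : ℝ) ≤ 2 * T := ht3.trans (by nlinarith)
      exact_mod_cast this) hSc2
  obtain ⟨M, hM1, hM2, hM3⟩ := hB1 (fun y => w (fun i => x i + y i * d i)) q t a (σ i0) η ha hη0
    (by
      intro E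
      obtain ⟨-, t', ht', hpt, -⟩ := hS _ (hSiS _ (hE E)).1
      obtain ⟨ht1, ht2, -⟩ := hPn t' ht'
      simp only at hpt
      rw [hpt]
      constructor
      · exact_mod_cast hT1.trans ht1
      · exact_mod_cast ht2) (by
      intro E
      have h1 := hix _ (hSiS _ (hE E)).1
      rw [(hSiS _ (hE E)).2] at h1
      refine le_of_eq_of_le ?_ h1
      congr 1
      rw [hal]
      simp only
      congr 2
      unfold al
      refine Finset.sum_congr rfl fun u _ => ?_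
      congr 2
      funext i
      unfold cn
      by_cases hu : u i
      · simp only [hu, if_true]
        ring
      · simp only [hu]
        simp)
  obtain ⟨nd1, nd2, nd3, nd4, nd5, nd6, nd7, nd8⟩ := u_ND
  have h0 := hE ∅
  simp only [Finset.sum_empty, sub_zero, add_zero] at h0
  have h0S := (hSiS _ h0).1
  obtain ⟨-, t', ht', hpt, hge⟩ := hS _ h0S
  refine ⟨t', ht', al' (q, t), M, hM1, hM2, ?_, ?_⟩
  · have h1 := hix _ h0S
    rw [(hSiS _ h0).2] at h1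
    have h2 : (M : ℝ) * al' (q, t) = M * σ i0 + M * (al' (q, t) - σ i0) := by ring
    rw [h2]
    have h3 := nd3 ((M : ℝ) * σ i0) (M * (al' (q, t) - σ i0))
    have h4 := nd5 (al' (q, t) - σ i0) M
    have hMr : (M : ℝ) ≤ B1 := by exact_mod_cast hM2
    have h5 : (M : ℝ) * nd (al' (q, t) - σ i0) ≤ B1 * η :=
      mul_le_mul hMr h1 (nd6 _).1 (Nat.cast_nonneg _)
    have h6 : nd ((M : ℝ) * σ i0 + M * (al' (q, t) - σ i0)) ≤ 2 * B1 * η := by linarith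
    refine h6.trans ?_
    have h7 : η ≤ (2 * P1 / (3 * (κ2 / 4) ^ 2)) / N := by
      rw [hη, div_div, div_le_div_iff₀ (by positivity) (by positivity)]
      have e1 : 2 * (P1 : ℝ) * ((κ2 / 4) ^ 2 * (3 * N / T)) = 2 * (3 * (κ2 / 4) ^ 2 * N) * (P1 / T) := by
        ring
      rw [e1]
      have e2 : (1 : ℝ) ≤ P1 / T := by
        rw [le_div_iff₀ hTr]; linarith
      exact le_mul_of_one_le_right (by positivity) e2
    calc 2 * (B1 : ℝ) * η ≤ 2 * B1 * ((2 * P1 / (3 * (κ2 / 4) ^ 2)) / N) := by gcongr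
      _ = _ := by ring
  · have h2 : al' (q, t) = t' * al w t' (fun i => x i + q i * d i) d := by
      rw [hal]
      simp only at hpt ⊢
      rw [hpt]
      push_cast
      rfl
    rw [h2]
    exact hge

end Pool.Agent.US
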