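import Pool.Agent.Work.MP_0f91f8_co.US.Stmts

/-!
# Block US, item PDk: positive definiteness in all coordinates
-/

set_option autoImplicit false

namespace Pool.Agent.US

open Pool.Agent.U3
open scoped ComplexConjugate Classical

namespace PDk

/-- `Fin.cons` for integer vectors -/
def cc {k : ℕ} (r0 : ℤ) (r' : Fin k → ℤ) : Fin (k + 1) → ℤ := Fin.cons r0 r'

theorem cc_zero {k : ℕ} (r0 : ℤ) (r' : Fin k → ℤ) : cc r0 r' 0 = r0 := rfl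

theorem cc_succ {k : ℕ} (r0 : ℤ) (r' : Fin k → ℤ) (i : Fin k) : cc r0 r' i.succ = r' i := rfl

theorem cc_tail {k : ℕ} (r : Fin (k + 1) → ℤ) : cc (r 0) (Fin.tail r) = r := Fin.cons_self_tail r

theorem tail_cc {k : ℕ} (r0 : ℤ) (r' : Fin k → ℤ) : Fin.tail (cc r0 r') = r' := rfl

theorem mem_bk {k X : ℕ} {r : Fin k → ℤ} : r ∈ bk k X ↔ ∀ i, r i ∈ Finset.Icc (-(X : ℤ)) X :=
  Fintype.mem_piFinset

theorem card_Icc (X : ℕ) : (Finset.Icc (-(X : ℤ)) X).card = 2 * X + 1 := by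
  rw [Int.card_Icc]
  omega

theorem card_bk (k X : ℕ) (hX : 1 ≤ X) : ((bk k X).card : ℝ) ≤ 3 ^ k * (X : ℝ) ^ k := by
  unfold bk
  rw [Fintype.card_piFinset_const, card_Icc, ← mul_pow]
  push_cast
  have h1 : (1 : ℝ) ≤ X := by exact_mod_cast hX
  exact pow_le_pow_left₀ (by positivity) (by linarith) k

theorem sum_bk (k X : ℕ) (f : (Fin (k + 1) → ℤ) → ℝ) :
    ∑ r ∈ bk (k + 1) X, f r =
      ∑ r0 ∈ Finset.Icc (-(X : ℤ)) X, ∑ r' ∈ bk k X, f (cc r0 r') := by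
  rw [← Finset.sum_product']
  refine Finset.sum_nbij' (fun r => (r 0, Fin.tail r)) (fun p => cc p.1 p.2) ?_ ?_ ?_ ?_ ?_
  · intro r hr
    rw [mem_bk] at hr
    rw [Finset.mem_product]
    exact ⟨hr 0, mem_bk.2 fun i => hr i.succ⟩
  · intro p hp
    rw [Finset.mem_product] at hp
    rw [mem_bk]
    intro i
    refine Fin.cases ?_ ?_ i
    · exact hp.1
    · intro j
      exact mem_bk.1 hp.2 j
  · intro r _
    exact cc_tail r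
  · intro p _
    rfl
  · intro r _
    show f r = f (cc (r 0) (Fin.tail r))
    rw [cc_tail]

theorem sumR (k X : ℕ) (R : Finset (Fin (k + 1) → ℤ)) (hR : ∀ r ∈ R, ∀ i, |r i| ≤ X)
    (f : (Fin (k + 1) → ℤ) → ℝ) :
    ∑ r ∈ R, f r = ∑ r0 ∈ Finset.Icc (-(X : ℤ)) X, ∑ r' ∈ bk k X,
      if cc r0 r' ∈ R then f (cc r0 r') else 0 := by
  have h1 : R = (bk (k + 1) X).filter (fun r => r ∈ R) := by
    ext r
    rw [Finset.mem_filter, mem_bk]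
    constructor
    · intro hr
      refine ⟨fun i => ?_, hr⟩
      rw [Finset.mem_Icc]
      exact abs_le.1 (hR r hr i)
    · exact fun h => h.2
  calc ∑ r ∈ R, f r = ∑ r ∈ (bk (k + 1) X).filter (fun r => r ∈ R), f r := by rw [← h1]
    _ = ∑ r ∈ bk (k + 1) X, if r ∈ R then f r else 0 := Finset.sum_filter _ _
    _ = _ := sum_bk k X _

theorem cn_cc {k : ℕ} (t r0 d0 : ℤ) (r' d' : Fin k → ℤ) (s0 : Bool) (s' : Fin k → Bool) :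
    cn t (cc r0 r') (cc d0 d') (Fin.cons s0 s' : Fin (k + 1) → Bool) =
      cc (r0 + if s0 then t * d0 else 0) (cn t r' d' s') := by
  funext i
  refine Fin.cases ?_ ?_ i
  · rfl
  · intro j
    rfl

theorem sg_cons {k : ℕ} (s0 : Bool) (s' : Fin k → Bool) :
    sg (Fin.cons s0 s' : Fin (k + 1) → Bool) = (if s0 then 1 else -1) * sg s' := by
  unfold sg
  rw [Fin.prod_univ_succ]
  simp

theorem al_cc {k : ℕ} (w : (Fin (k + 1) → ℤ) → ℝ) (t r0 d0 : ℤ) (r' d' : Fin k → ℤ) :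
    al w t (cc r0 r') (cc d0 d') =
      al (fun x => w (cc (r0 + t * d0) x) - w (cc r0 x)) t r' d' := by
  unfold al
  rw [← (Fin.consEquiv (fun _ : Fin (k + 1) => Bool)).sum_comp, Fintype.sum_prod_type,
    Fintype.sum_bool, ← Finset.sum_add_distrib]
  refine Finset.sum_congr rfl fun s' _ => ?_
  have e1 : ∀ s0 : Bool, (Fin.consEquiv (fun _ : Fin (k + 1) => Bool)) (s0, s') =
      (Fin.cons s0 s' : Fin (k + 1) → Bool) := fun _ => rfl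
  rw [e1, e1, sg_cons, sg_cons, cn_cc, cn_cc]
  simp only [if_true, Bool.false_eq_true, if_false, add_zero]
  ring

theorem corners {k : ℕ} (R : Finset (Fin (k + 1) → ℤ)) (t r0 d0 : ℤ) (r' d' : Fin k → ℤ)
    (h : ∀ s', cc r0 (cn t r' d' s') ∈ R ∧ cc (r0 + t * d0) (cn t r' d' s') ∈ R)
    (s : Fin (k + 1) → Bool) : cn t (cc r0 r') (cc d0 d') s ∈ R := by
  have e1 : s = (Fin.cons (s 0) (Fin.tail s) : Fin (k + 1) → Bool) := (Fin.cons_self_tail s).symm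
  rw [e1, cn_cc]
  cases s 0
  · simpa using (h (Fin.tail s)).1
  · simpa using (h (Fin.tail s)).2

/-- popularity -/
theorem popular {α : Type} (P : Finset α) (Φ Ψ : α → ℝ) (c τ M L T : ℝ) (hc : (P.card : ℝ) ≤ c)
    (hτ : 0 ≤ τ) (hM : 0 ≤ M) (hL : 0 ≤ L) (hT : T ≤ ∑ p ∈ P, Φ p) (hΦ : ∀ p ∈ P, Φ p ≤ M)
    (hΨ : ∀ p ∈ P, τ ≤ Φ p → L ≤ Ψ p) (hΨ0 : ∀ p ∈ P, 0 ≤ Ψ p) (hcτ : c * τ ≤ T / 2) :
    T / 2 * L ≤ M * ∑ p ∈ P, Ψ p := by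
  have h1 : ∑ p ∈ P, Φ p ≤ ∑ p ∈ P, (τ + M * if τ ≤ Φ p then 1 else 0) := by
    refine Finset.sum_le_sum fun p hp => ?_
    split_ifs with h
    · have := hΦ p hp
      linarith
    · push Not at h
      linarith
  rw [Finset.sum_add_distrib, Finset.sum_const, nsmul_eq_mul, ← Finset.mul_sum] at h1
  have h2 : (P.card : ℝ) * τ ≤ c * τ := mul_le_mul_of_nonneg_right hc hτ
  have h3 : T / 2 ≤ M * ∑ p ∈ P, (if τ ≤ Φ p then (1 : ℝ) else 0) := by linarith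
  have h4 : (∑ p ∈ P, (if τ ≤ Φ p then (1 : ℝ) else 0)) * L ≤ ∑ p ∈ P, Ψ p := by
    rw [Finset.sum_mul]
    refine Finset.sum_le_sum fun p hp => ?_
    split_ifs with h
    · rw [one_mul]
      exact hΨ p hp h
    · rw [zero_mul]
      exact hΨ0 p hp
  calc T / 2 * L ≤ M * (∑ p ∈ P, (if τ ≤ Φ p then (1 : ℝ) else 0)) * L :=
        mul_le_mul_of_nonneg_right h3 hL
    _ = M * ((∑ p ∈ P, (if τ ≤ Φ p then (1 : ℝ) else 0)) * L) := by ring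
    _ ≤ M * ∑ p ∈ P, Ψ p := mul_le_mul_of_nonneg_left h4 hM

/-- the body of `StPDk` -/
def Pk (k : ℕ) : Prop :=
  ∀ (κ : ℝ), 0 < κ → ∃ κ' : ℝ, 0 < κ' ∧
    ∀ (F : ℤ → ℂ) (A B : ℤ) (Z : ℝ), Sp F A B → (B - A + 1 : ℝ) ≤ Z → 0 ≤ Z →
    ∀ (X D t : ℕ) (b g : Fin k → ℤ) (R : Finset (Fin k → ℤ)) (w : (Fin k → ℤ) → ℝ),
      1 ≤ X → 1 ≤ t → t * D ≤ X → (∀ r ∈ R, ∀ i, |r i| ≤ X) →
      κ * (X : ℝ) ^ k * Z ^ 2 ≤ ∑ r ∈ R, ‖CK k F A B (fun i => b i + g i * r i) (w r)‖ ^ 2 →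
      κ' * (X : ℝ) ^ k * (D : ℝ) ^ k * Z ^ 2 ≤
        ∑ d ∈ bk k D, ∑ r ∈ R.filter (fun r => ∀ s, cn t r d s ∈ R),
          ‖CK k F A B (fun i => t * g i * d i) (al w t r d)‖ ^ 2

theorem base : Pk 0 := by
  intro κ hκ
  refine ⟨κ, hκ, ?_⟩
  intro F A B Z hF hZ hZ0 X D t b g R w hX ht htD hR h
  have e1 : bk 0 D = {fun i => i.elim0} := by
    ext r
    rw [mem_bk, Finset.mem_singleton]
    constructor
    · intro _
      exact Subsingleton.elim _ _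
    · intro _ i
      exact i.elim0
  rw [e1, Finset.sum_singleton]
  have e2 : ∀ (r d : Fin 0 → ℤ), al w t r d = w r := by
    intro r d
    unfold al
    rw [Fintype.sum_unique]
    have : ∀ s, cn (t : ℤ) r d s = r := fun s => Subsingleton.elim _ _
    rw [this]
    simp [sg]
  have e3 : R.filter (fun r => ∀ s, cn (t : ℤ) r (fun i => i.elim0) s ∈ R) = R := by
    refine Finset.filter_true_of_mem fun r hr s => ?_
    have : cn (t : ℤ) r (fun i => i.elim0) s = r := Subsingleton.elim _ _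
    rw [this]
    exact hr
  rw [e3]
  have e4 : ∑ r ∈ R, ‖CK 0 F A B (fun i => (t : ℤ) * g i * (fun i : Fin 0 => (i.elim0 : ℤ)) i)
      (al w t r (fun i => i.elim0))‖ ^ 2 =
      ∑ r ∈ R, ‖CK 0 F A B (fun i => b i + g i * r i) (w r)‖ ^ 2 := by
    refine Finset.sum_congr rfl fun r _ => ?_
    rw [e2]
    rfl
  rw [e4]
  simpa using h

theorem cons_arg {k : ℕ} (b g : Fin (k + 1) → ℤ) (r0 : ℤ) (r' : Fin k → ℤ) :
    (fun i => b i + g i * cc r0 r' i) =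
      (Fin.cons (b 0 + g 0 * r0) (fun i => Fin.tail b i + Fin.tail g i * r' i) :
        Fin (k + 1) → ℤ) := by
  funext i
  refine Fin.cases ?_ ?_ i
  · rfl
  · intro j
    rfl

theorem cons_arg2 {k : ℕ} (t : ℤ) (g : Fin (k + 1) → ℤ) (d0 : ℤ) (d' : Fin k → ℤ) :
    (fun i => t * g i * cc d0 d' i) =
      (Fin.cons (t * g 0 * d0) (fun i => t * Fin.tail g i * d' i) : Fin (k + 1) → ℤ) := by
  funext i
  refine Fin.cases ?_ ?_ i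
  · rfl
  · intro j
    rfl

/-- the slices -/
noncomputable def RR {k : ℕ} (R : Finset (Fin (k + 1) → ℤ)) (X t : ℕ) (p : ℤ × ℤ) :
    Finset (Fin k → ℤ) :=
  (bk k X).filter (fun r' => cc p.2 r' ∈ R ∧ cc (p.2 + t * p.1) r' ∈ R)

theorem step (hB : StBas) (hW : StWin) (k : ℕ) (ih : Pk k) : Pk (k + 1) := by
  obtain ⟨-, hB2, hB3, -, hB5, hB6⟩ := hB
  intro κ hκ
  obtain ⟨κ1, hκ1def⟩ : ∃ κ1 : ℝ, κ1 = κ ^ 2 / (4 * 3 ^ k) := ⟨_, rfl⟩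
  have hκ1 : 0 < κ1 := by
    rw [hκ1def]
    positivity
  obtain ⟨κ2, hκ2, hind⟩ := ih (κ1 / 18) (by positivity)
  refine ⟨κ2 * κ1 / (2 * 3 ^ k), by positivity, ?_⟩
  intro F A B Z hF hZ hZ0 X D t b g R w hX ht htD hR hsum
  rcases Nat.eq_zero_or_pos D with hD | hD
  · subst hD
    have h0 : κ2 * κ1 / (2 * 3 ^ k) * (X : ℝ) ^ (k + 1) * ((0 : ℕ) : ℝ) ^ (k + 1) * Z ^ 2 = 0 := by
      simp
    rw [h0]
    exact Finset.sum_nonneg fun d _ => Finset.sum_nonneg fun r _ => by positivity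
  rcases hZ0.eq_or_lt with hz | hz
  · rw [← hz]
    have h0 : κ2 * κ1 / (2 * 3 ^ k) * (X : ℝ) ^ (k + 1) * (D : ℝ) ^ (k + 1) * (0 : ℝ) ^ 2 = 0 := by
      simp
    rw [h0]
    exact Finset.sum_nonneg fun d _ => Finset.sum_nonneg fun r _ => by positivity
  have hX1 : (1 : ℝ) ≤ X := by exact_mod_cast hX
  have hD1 : (1 : ℝ) ≤ D := by exact_mod_cast hD
  have hX0 : (0 : ℝ) < X := by linarith
  have hD0 : (0 : ℝ) < D := by linarith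
  obtain ⟨I, hI⟩ : ∃ I : Finset ℤ, I = Finset.Icc (-(X : ℤ)) X := ⟨_, rfl⟩
  obtain ⟨J, hJ⟩ : ∃ J : Finset ℤ, J = Finset.Icc (-(D : ℤ)) D := ⟨_, rfl⟩
  -- the windows
  obtain ⟨Rs, hRs⟩ : ∃ Rs : (Fin k → ℤ) → Finset ℤ,
    Rs = fun r' => I.filter (fun r0 => cc r0 r' ∈ R) := ⟨_, rfl⟩
  obtain ⟨f, hf⟩ : ∃ f : ℤ → (Fin k → ℤ) → ℝ, f = fun r0 r' =>
    ‖∑ n ∈ Finset.Icc A B, D1 (b 0 + g 0 * r0)
      (DK k F (fun i => Fin.tail b i + Fin.tail g i * r' i)) n * ee (-(w (cc r0 r') * n))‖ ^ 2 :=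
    ⟨_, rfl⟩
  obtain ⟨y, hy⟩ : ∃ y : ℤ → ℤ → (Fin k → ℤ) → ℝ, y = fun d0 r0 r' =>
    ‖∑ n ∈ Finset.Icc A B, D1 (t * g 0 * d0)
      (DK k F (fun i => Fin.tail b i + Fin.tail g i * r' i)) n *
        ee (-((w (cc (r0 + t * d0) r') - w (cc r0 r')) * n))‖ ^ 2 := ⟨_, rfl⟩
  have hy0 : ∀ d0 r0 r', 0 ≤ y d0 r0 r' := by
    intro d0 r0 r'
    rw [hy]
    positivity
  have hwin : ∀ r', ((D : ℝ) + 1) * (∑ r0 ∈ Rs r', f r0 r') ^ 2 ≤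
      4 * X * Z ^ 2 * ∑ d ∈ J, ∑ r0 ∈ (Rs r').filter (fun r0 => r0 + t * d ∈ Rs r'),
        y d r0 r' := by
    intro r'
    rw [hf, hy, hJ]
    refine hW _ A B Z (hB2 k F _ A B hF) hZ hZ0 X D t (b 0) (g 0) (Rs r')
      (fun r0 => w (cc r0 r')) hX ht htD ?_
    intro r0 hr0
    rw [hRs, hI] at hr0
    exact abs_le.2 (Finset.mem_Icc.1 (Finset.mem_filter.1 hr0).1)
  have hS : ∑ r ∈ R, ‖CK (k + 1) F A B (fun i => b i + g i * r i) (w r)‖ ^ 2 =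
      ∑ r' ∈ bk k X, ∑ r0 ∈ Rs r', f r0 r' := by
    rw [sumR k X R hR, Finset.sum_comm]
    refine Finset.sum_congr rfl fun r' _ => ?_
    rw [hRs, ← hI]
    show _ = ∑ r0 ∈ I.filter (fun r0 => cc r0 r' ∈ R), f r0 r'
    rw [Finset.sum_filter]
    refine Finset.sum_congr rfl fun r0 _ => ?_
    rw [cons_arg, (hB6 k F A B _ _ _).1, hf]
  have hcard := card_bk k X hX
  -- Cauchy-Schwarz over the tails
  have hCS : (κ * (X : ℝ) ^ (k + 1) * Z ^ 2) ^ 2 ≤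
      3 ^ k * (X : ℝ) ^ k * ∑ r' ∈ bk k X, (∑ r0 ∈ Rs r', f r0 r') ^ 2 := by
    rw [hS] at hsum
    have h1 : (∑ r' ∈ bk k X, ∑ r0 ∈ Rs r', f r0 r') ^ 2 ≤
        ((bk k X).card : ℝ) * ∑ r' ∈ bk k X, (∑ r0 ∈ Rs r', f r0 r') ^ 2 :=
      sq_sum_le_card_mul_sum_sq
    calc (κ * (X : ℝ) ^ (k + 1) * Z ^ 2) ^ 2 ≤ (∑ r' ∈ bk k X, ∑ r0 ∈ Rs r', f r0 r') ^ 2 :=
          pow_le_pow_left₀ (by positivity) hsum 2
      _ ≤ _ := h1
      _ ≤ _ := mul_le_mul_of_nonneg_right hcard (Finset.sum_nonneg fun _ _ => by positivity)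
  obtain ⟨TY, hTY⟩ : ∃ TY : ℝ, TY = ∑ r' ∈ bk k X, ∑ d ∈ J,
    ∑ r0 ∈ (Rs r').filter (fun r0 => r0 + t * d ∈ Rs r'), y d r0 r' := ⟨_, rfl⟩
  have hlow : κ1 * (X : ℝ) ^ (k + 1) * D * Z ^ 2 ≤ TY := by
    have h1 : ((D : ℝ) + 1) * ∑ r' ∈ bk k X, (∑ r0 ∈ Rs r', f r0 r') ^ 2 ≤
        4 * X * Z ^ 2 * TY := by
      rw [hTY, Finset.mul_sum, Finset.mul_sum]
      exact Finset.sum_le_sum fun r' _ => hwin r'
    have h2 : ((D : ℝ) + 1) * (κ * (X : ℝ) ^ (k + 1) * Z ^ 2) ^ 2 ≤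
        3 ^ k * (X : ℝ) ^ k * (4 * X * Z ^ 2 * TY) := by
      calc ((D : ℝ) + 1) * (κ * (X : ℝ) ^ (k + 1) * Z ^ 2) ^ 2
          ≤ ((D : ℝ) + 1) *
            (3 ^ k * (X : ℝ) ^ k * ∑ r' ∈ bk k X, (∑ r0 ∈ Rs r', f r0 r') ^ 2) :=
            mul_le_mul_of_nonneg_left hCS (by positivity)
        _ = 3 ^ k * (X : ℝ) ^ k *
            (((D : ℝ) + 1) * ∑ r' ∈ bk k X, (∑ r0 ∈ Rs r', f r0 r') ^ 2) := by ring
        _ ≤ _ := mul_le_mul_of_nonneg_left h1 (by positivity)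
    have h3 : (κ ^ 2 * (X : ℝ) ^ (k + 1) * ((D : ℝ) + 1) * Z ^ 2) * ((X : ℝ) ^ (k + 1) * Z ^ 2) ≤
        (4 * 3 ^ k * TY) * ((X : ℝ) ^ (k + 1) * Z ^ 2) := by
      calc (κ ^ 2 * (X : ℝ) ^ (k + 1) * ((D : ℝ) + 1) * Z ^ 2) * ((X : ℝ) ^ (k + 1) * Z ^ 2)
          = ((D : ℝ) + 1) * (κ * (X : ℝ) ^ (k + 1) * Z ^ 2) ^ 2 := by ring
        _ ≤ 3 ^ k * (X : ℝ) ^ k * (4 * X * Z ^ 2 * TY) := h2
        _ = (4 * 3 ^ k * TY) * ((X : ℝ) ^ (k + 1) * Z ^ 2) := by ring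
    have h4 : κ ^ 2 * (X : ℝ) ^ (k + 1) * ((D : ℝ) + 1) * Z ^ 2 ≤ 4 * 3 ^ k * TY :=
      le_of_mul_le_mul_right h3 (by positivity)
    have h5 : κ1 * (4 * 3 ^ k) = κ ^ 2 := by
      rw [hκ1def]
      field_simp
    have h6 : κ1 * (X : ℝ) ^ (k + 1) * D * Z ^ 2 * (4 * 3 ^ k) ≤ TY * (4 * 3 ^ k) := by
      calc κ1 * (X : ℝ) ^ (k + 1) * D * Z ^ 2 * (4 * 3 ^ k)
          = (κ1 * (4 * 3 ^ k)) * (X : ℝ) ^ (k + 1) * D * Z ^ 2 := by ring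
        _ = κ ^ 2 * (X : ℝ) ^ (k + 1) * D * Z ^ 2 := by rw [h5]
        _ ≤ κ ^ 2 * (X : ℝ) ^ (k + 1) * ((D : ℝ) + 1) * Z ^ 2 := by
          have : 0 ≤ κ ^ 2 * (X : ℝ) ^ (k + 1) * Z ^ 2 := by positivity
          nlinarith
        _ ≤ TY * (4 * 3 ^ k) := by linarith
    exact le_of_mul_le_mul_right h6 (by positivity)
  -- exchange
  obtain ⟨Φ, hΦ⟩ : ∃ Φ : ℤ × ℤ → ℝ, Φ = fun p => ∑ r' ∈ RR R X t p, y p.1 p.2 r' := ⟨_, rfl⟩
  have hexch : TY = ∑ p ∈ J ×ˢ I, Φ p := by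
    rw [hTY, Finset.sum_product, Finset.sum_comm]
    refine Finset.sum_congr rfl fun d0 _ => ?_
    have h1 : ∀ r' ∈ bk k X, ∑ r0 ∈ (Rs r').filter (fun r0 => r0 + t * d0 ∈ Rs r'),
        y d0 r0 r' = ∑ r0 ∈ I, if cc r0 r' ∈ R ∧ cc (r0 + t * d0) r' ∈ R then
          y d0 r0 r' else 0 := by
      intro r' _
      rw [← Finset.sum_filter]
      refine Finset.sum_congr ?_ fun _ _ => rfl
      ext r0
      rw [hRs]
      simp only [Finset.mem_filter]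
      constructor
      · rintro ⟨⟨h1, h2⟩, h3, h4⟩
        exact ⟨h1, h2, h4⟩
      · rintro ⟨h1, h2, h3⟩
        refine ⟨⟨h1, h2⟩, ?_, h3⟩
        rw [hI, Finset.mem_Icc]
        exact abs_le.1 (hR _ h3 0)
    rw [Finset.sum_congr rfl h1, Finset.sum_comm]
    refine Finset.sum_congr rfl fun r0 _ => ?_
    rw [hΦ]
    show _ = ∑ r' ∈ RR R X t (d0, r0), y d0 r0 r'
    unfold RR
    rw [Finset.sum_filter]
  have hyCK : ∀ d0 r0 r', y d0 r0 r' = ‖CK k (D1 (t * g 0 * d0) F) A B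
      (fun i => Fin.tail b i + Fin.tail g i * r' i)
      (w (cc (r0 + t * d0) r') - w (cc r0 r'))‖ ^ 2 := by
    intro d0 r0 r'
    rw [← (hB6 k F A B _ _ _).2, (hB6 k F A B _ _ _).1, hy]
  have hΦM : ∀ p ∈ J ×ˢ I, Φ p ≤ 3 ^ k * (X : ℝ) ^ k * Z ^ 2 := by
    intro p _
    rw [hΦ]
    show ∑ r' ∈ RR R X t p, y p.1 p.2 r' ≤ _
    have h1 : ∀ r' ∈ RR R X t p, y p.1 p.2 r' ≤ Z ^ 2 := by
      intro r' _
      rw [hyCK]
      exact pow_le_pow_left₀ (norm_nonneg _)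
        (hB5 k _ A B _ _ Z (hB3 _ F A B hF) hZ hZ0) 2
    have h2 := Finset.sum_le_card_nsmul _ _ _ h1
    rw [nsmul_eq_mul] at h2
    refine h2.trans (mul_le_mul_of_nonneg_right ?_ (by positivity))
    refine le_trans ?_ hcard
    unfold RR
    exact_mod_cast Finset.card_filter_le _ _
  -- induction
  obtain ⟨Ψ, hΨ⟩ : ∃ Ψ : ℤ × ℤ → ℝ, Ψ = fun p => ∑ d' ∈ bk k D,
    ∑ r' ∈ (RR R X t p).filter (fun r' => ∀ s, cn t r' d' s ∈ RR R X t p),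
      ‖CK k (D1 (t * g 0 * p.1) F) A B (fun i => t * Fin.tail g i * d' i)
        (al (fun x => w (cc (p.2 + t * p.1) x) - w (cc p.2 x)) t r' d')‖ ^ 2 := ⟨_, rfl⟩
  have hΨ0 : ∀ p ∈ J ×ˢ I, 0 ≤ Ψ p := by
    intro p _
    rw [hΨ]
    exact Finset.sum_nonneg fun d _ => Finset.sum_nonneg fun r _ => by positivity
  have hgood : ∀ p ∈ J ×ˢ I, κ1 / 18 * (X : ℝ) ^ k * Z ^ 2 ≤ Φ p →
      κ2 * (X : ℝ) ^ k * (D : ℝ) ^ k * Z ^ 2 ≤ Ψ p := by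
    intro p _ hp
    rw [hΨ]
    refine hind (D1 (t * g 0 * p.1) F) A B Z (hB3 _ F A B hF) hZ hZ0 X D t (Fin.tail b)
      (Fin.tail g) (RR R X t p) (fun x => w (cc (p.2 + t * p.1) x) - w (cc p.2 x)) hX ht htD ?_ ?_
    · intro r hr i
      unfold RR at hr
      exact abs_le.2 (Finset.mem_Icc.1 (mem_bk.1 (Finset.mem_filter.1 hr).1 i))
    · refine hp.trans (le_of_eq ?_)
      rw [hΦ]
      exact Finset.sum_congr rfl fun r' _ => hyCK _ _ _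
  have hcardP : ((J ×ˢ I).card : ℝ) ≤ 9 * X * D := by
    rw [Finset.card_product, hI, hJ, card_Icc, card_Icc]
    push_cast
    nlinarith
  have hpop := popular (J ×ˢ I) Φ Ψ (9 * X * D) (κ1 / 18 * (X : ℝ) ^ k * Z ^ 2)
    (3 ^ k * (X : ℝ) ^ k * Z ^ 2) (κ2 * (X : ℝ) ^ k * (D : ℝ) ^ k * Z ^ 2)
    (κ1 * (X : ℝ) ^ (k + 1) * D * Z ^ 2) hcardP (by positivity) (by positivity) (by positivity)
    (hexch ▸ hlow) hΦM hgood hΨ0 (le_of_eq (by ring))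
  have hfin : κ2 * κ1 / (2 * 3 ^ k) * (X : ℝ) ^ (k + 1) * (D : ℝ) ^ (k + 1) * Z ^ 2 ≤
      ∑ p ∈ J ×ˢ I, Ψ p := by
    have h1 : (κ2 * κ1 / (2 * 3 ^ k) * (X : ℝ) ^ (k + 1) * (D : ℝ) ^ (k + 1) * Z ^ 2) *
        (3 ^ k * (X : ℝ) ^ k * Z ^ 2) ≤
        (∑ p ∈ J ×ˢ I, Ψ p) * (3 ^ k * (X : ℝ) ^ k * Z ^ 2) := by
      have h2 : (κ2 * κ1 / (2 * 3 ^ k) * (X : ℝ) ^ (k + 1) * (D : ℝ) ^ (k + 1) * Z ^ 2) *
          (3 ^ k * (X : ℝ) ^ k * Z ^ 2) = κ1 * (X : ℝ) ^ (k + 1) * D * Z ^ 2 / 2 *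
            (κ2 * (X : ℝ) ^ k * (D : ℝ) ^ k * Z ^ 2) := by
        field_simp
        ring
      rw [h2, mul_comm (∑ p ∈ J ×ˢ I, Ψ p)]
      exact hpop
    exact le_of_mul_le_mul_right h1 (by positivity)
  refine hfin.trans ?_
  -- the last comparison
  rw [sum_bk, ← hJ, Finset.sum_product]
  refine Finset.sum_le_sum fun d0 _ => ?_
  rw [hΨ]
  show ∑ r0 ∈ I, ∑ d' ∈ bk k D,
    ∑ r' ∈ (RR R X t (d0, r0)).filter (fun r' => ∀ s, cn t r' d' s ∈ RR R X t (d0, r0)),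
      ‖CK k (D1 (t * g 0 * d0) F) A B (fun i => t * Fin.tail g i * d' i)
        (al (fun x => w (cc (r0 + t * d0) x) - w (cc r0 x)) t r' d')‖ ^ 2 ≤ _
  rw [Finset.sum_comm]
  refine Finset.sum_le_sum fun d' _ => ?_
  rw [sumR k X (R.filter (fun r => ∀ s, cn t r (cc d0 d') s ∈ R))
    (fun r hr => hR r (Finset.mem_filter.1 hr).1), ← hI]
  refine Finset.sum_le_sum fun r0 _ => ?_
  rw [← Finset.sum_filter]
  have hsub : (RR R X t (d0, r0)).filter (fun r' => ∀ s, cn t r' d' s ∈ RR R X t (d0, r0)) ⊆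
      (bk k X).filter (fun r' => cc r0 r' ∈ R.filter (fun r => ∀ s, cn t r (cc d0 d') s ∈ R)) := by
    intro r' hr'
    rw [Finset.mem_filter] at hr'
    obtain ⟨h1, h2⟩ := hr'
    unfold RR at h1 h2
    rw [Finset.mem_filter] at h1
    rw [Finset.mem_filter, Finset.mem_filter]
    refine ⟨h1.1, h1.2.1, ?_⟩
    exact corners R t r0 d0 r' d' fun s' => (Finset.mem_filter.1 (h2 s')).2
  refine le_trans (Finset.sum_le_sum_of_subset_of_nonneg hsub fun _ _ _ => by positivity) ?_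
  refine Finset.sum_le_sum fun r' _ => ?_
  rw [cons_arg2, (hB6 k F A B _ _ _).2, al_cc]

end PDk

/-- **Item PDk**: positive definiteness in all coordinates. -/
theorem us_PDk (hB : StBas) (hW : StWin) : StPDk := by
  intro k
  induction k with
  | zero => exact PDk.base
  | succ k ih => exact PDk.step hB hW k ih

end Pool.Agent.US
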