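import Pool.Agent.Work.MP_0f91f8_co.US.Stmts2
import Pool.Agent.Work.MP_0f91f8_co.U3.I_EE

/-!
# Item Pig: all frequencies may be taken equal
-/

set_option autoImplicit false

namespace Pool.Agent.US

open Pool.Agent.U3
open scoped ComplexConjugate Classical

namespace IPig

/-- the coefficient has period one -/
theorem CK_per (hE : StEE) (k : ℕ) (F : ℤ → ℂ) (A B : ℤ) (h : Fin k → ℤ) (a : ℝ) (z : ℤ) :
    CK k F A B h (a - z) = CK k F A B h a := by
  unfold CK
  refine Finset.sum_congr rfl fun n _ => ?_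
  congr 1
  have e : -((a - z) * n) = -(a * n) + ((z * n : ℤ) : ℝ) := by
    push_cast
    ring
  rw [e, hE.2.2.2.2.2.1]

/-- the coefficient is Lipschitz -/
theorem CK_lip (hE : StEE) (hB : StBas) (k : ℕ) (F : ℤ → ℂ) (A B : ℤ) (N : ℕ) (hS : Sp F A B)
    (hN : 1 ≤ N) (hA : -(N : ℤ) ≤ A) (hB' : B ≤ N) (h : Fin k → ℤ) (a b : ℝ) :
    ‖CK k F A B h a - CK k F A B h b‖ ≤ 3 * N * (2 * Real.pi * N * |a - b|) := by
  have hD := (hB.2.1 k F h A B hS).1
  have hN' : (1 : ℝ) ≤ N := by exact_mod_cast hN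
  unfold CK
  rw [← Finset.sum_sub_distrib]
  refine (norm_sum_le _ _).trans ?_
  have h1 : ∀ n ∈ Finset.Icc A B, ‖DK k F h n * ee (-(a * n)) - DK k F h n * ee (-(b * n))‖ ≤
      2 * Real.pi * N * |a - b| := by
    intro n hn
    rw [Finset.mem_Icc] at hn
    rw [← mul_sub, norm_mul]
    have h2 := hE.2.2.2.2.2.2 (-(a * n)) (-(b * n))
    have h3 : |-(a * n) - -(b * n)| = |(n : ℝ)| * |a - b| := by
      rw [← abs_mul, ← abs_neg]
      congr 1
      ring
    have h4 : |(n : ℝ)| ≤ N := by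
      rw [abs_le]
      constructor
      · have : -(N : ℤ) ≤ n := hA.trans hn.1
        exact_mod_cast this
      · have : n ≤ (N : ℤ) := hn.2.trans hB'
        exact_mod_cast this
    rw [h3] at h2
    calc ‖DK k F h n‖ * ‖ee (-(a * n)) - ee (-(b * n))‖
        ≤ 1 * (2 * Real.pi * (|(n : ℝ)| * |a - b|)) :=
          mul_le_mul (hD n) h2 (norm_nonneg _) zero_le_one
      _ ≤ 2 * Real.pi * N * |a - b| := by
          have h5 : |(n : ℝ)| * |a - b| ≤ N * |a - b| :=
            mul_le_mul_of_nonneg_right h4 (abs_nonneg _)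
          have h6 := mul_le_mul_of_nonneg_left h5 Real.two_pi_pos.le
          linarith
  refine (Finset.sum_le_sum h1).trans ?_
  rw [Finset.sum_const, nsmul_eq_mul]
  refine mul_le_mul_of_nonneg_right ?_ (by positivity)
  rw [Int.card_Icc]
  have h7 : ((B + 1 - A).toNat : ℝ) ≤ 2 * N + 1 := by
    have : (B + 1 - A).toNat ≤ 2 * N + 1 := by omega
    exact_mod_cast this
  linarith

end IPig

open IPig in
theorem us_Pig (hB : StBas) : StPig := by
  have hE : StEE := pr_EE
  intro k B0 κ C hκ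
  obtain ⟨J, hJ⟩ : ∃ J : ℕ, J = ⌈80 * C / κ⌉₊ + 1 := ⟨_, rfl⟩
  obtain ⟨T, hT⟩ : ∃ T : Finset (ℕ × ℕ × ℕ), T = Finset.range (B0 + 1) ×ˢ
    (Finset.range (B0 + 1) ×ˢ Finset.range J) := ⟨_, rfl⟩
  have hTn : T.Nonempty := by
    refine ⟨(0, 0, 0), ?_⟩
    rw [hT]
    simp [hJ]
  have hTc : (0 : ℝ) < T.card := by exact_mod_cast hTn.card_pos
  refine ⟨1 / T.card, by positivity, ?_⟩
  intro N hN F A B g E hS hA hB' hd
  have hN' : (0 : ℝ) < N := by exact_mod_cast hN
  -- the data of one difference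
  have key : ∀ d ∈ E, ∃ y ∈ T, ∃ α : ℝ, κ * N ≤ ‖CK k F A B (fun i => g i * d i) α‖ ∧
      |α - ((y.2.1 : ℝ) / y.1 + (y.2.2 * κ / 40 - C) / N)| ≤ κ / (40 * N) := by
    intro d hdE
    obtain ⟨α, M, hM1, hM2, hnd, hCK⟩ := hd d hdE
    have hM0 : (0 : ℝ) < M := by exact_mod_cast hM1
    have hM1' : (1 : ℝ) ≤ M := by exact_mod_cast hM1
    obtain ⟨a, ha⟩ : ∃ a : ℤ, a = round (M * α) := ⟨_, rfl⟩
    obtain ⟨β, hβ⟩ : ∃ β : ℝ, β = α - a / M := ⟨_, rfl⟩
    have hβ1 : |β| ≤ C / N := by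
      have h1 : |(M : ℝ) * α - a| ≤ C / N := by
        have h2 : nd (M * α) = |(M : ℝ) * α - round ((M : ℝ) * α)| := rfl
        rw [h2, ← ha] at hnd
        exact hnd
      have h3 : (M : ℝ) * β = M * α - a := by
        rw [hβ]
        field_simp
      have h4 : (M : ℝ) * |β| = |(M : ℝ) * α - a| := by
        rw [← h3, abs_mul, abs_of_pos hM0]
      have h5 : 0 ≤ |β| := abs_nonneg _
      nlinarith
    rw [abs_le] at hβ1
    have hC1 : -C ≤ β * N := by
      have := mul_le_mul_of_nonneg_right hβ1.1 hN'.le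
      rwa [neg_mul, div_mul_cancel₀ _ hN'.ne'] at this
    have hC2 : β * N ≤ C := by
      have := mul_le_mul_of_nonneg_right hβ1.2 hN'.le
      rwa [div_mul_cancel₀ _ hN'.ne'] at this
    obtain ⟨j, hj⟩ : ∃ j : ℕ, j = ⌊(β * N + C) * (40 / κ)⌋₊ := ⟨_, rfl⟩
    have hnn : 0 ≤ (β * N + C) * (40 / κ) := mul_nonneg (by linarith) (by positivity)
    have hj1 : (j : ℝ) ≤ (β * N + C) * (40 / κ) := by
      rw [hj]
      exact Nat.floor_le hnn
    have hj2 : (β * N + C) * (40 / κ) < j + 1 := by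
      rw [hj]
      exact Nat.lt_floor_add_one _
    have hjJ : j < J := by
      have h1 : (j : ℝ) ≤ 80 * C / κ := by
        refine hj1.trans ?_
        calc (β * N + C) * (40 / κ) ≤ (2 * C) * (40 / κ) :=
              mul_le_mul_of_nonneg_right (by linarith) (by positivity)
          _ = 80 * C / κ := by ring
      have h2 : (j : ℝ) ≤ ⌈80 * C / κ⌉₊ := h1.trans (Nat.le_ceil _)
      have h3 : j ≤ ⌈80 * C / κ⌉₊ := by exact_mod_cast h2
      omega
    have hMz : (0 : ℤ) < M := by exact_mod_cast hM1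
    have hr0 := Int.emod_nonneg a hMz.ne'
    have hr1 := Int.emod_lt_of_pos a hMz
    have hdiv := Int.mul_ediv_add_emod a M
    obtain ⟨r, hr⟩ : ∃ r : ℕ, (r : ℤ) = a % M := ⟨(a % M).toNat, by omega⟩
    obtain ⟨z, hz⟩ : ∃ z : ℤ, z = a / M := ⟨_, rfl⟩
    rw [← hr, ← hz] at hdiv
    have hrM : r < M := by
      rw [← hr] at hr1
      exact_mod_cast hr1
    refine ⟨(M, r, j), ?_, α - z, ?_, ?_⟩
    · rw [hT, Finset.mem_product, Finset.mem_product, Finset.mem_range, Finset.mem_range,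
        Finset.mem_range]
      exact ⟨by show M < B0 + 1; omega, by show r < B0 + 1; omega, hjJ⟩
    · rw [CK_per hE]
      exact hCK
    · show |α - z - ((r : ℝ) / M + (j * κ / 40 - C) / N)| ≤ κ / (40 * N)
      have hdr : (a : ℝ) = M * z + r := by
        have : ((M * z + r : ℤ) : ℝ) = (a : ℝ) := by exact_mod_cast hdiv
        push_cast at this
        exact this.symm
      have e1 : α - z - ((r : ℝ) / M + (j * κ / 40 - C) / N) =
          ((β * N + C) - j * κ / 40) / N := by
        rw [hβ, hdr]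
        field_simp
        ring
      rw [e1, abs_div, abs_of_pos hN', div_le_div_iff₀ hN' (by positivity)]
      have h1 : j * κ / 40 ≤ β * N + C := by
        have := mul_le_mul_of_nonneg_right hj1 (show 0 ≤ κ / 40 by positivity)
        have e2 : (β * N + C) * (40 / κ) * (κ / 40) = β * N + C := by
          field_simp
        rw [e2] at this
        linarith
      have h2 : β * N + C < (j + 1) * κ / 40 := by
        have := mul_lt_mul_of_pos_right hj2 (show 0 < κ / 40 by positivity)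
        have e2 : (β * N + C) * (40 / κ) * (κ / 40) = β * N + C := by
          field_simp
        rw [e2] at this
        linarith
      have h3 : |β * N + C - j * κ / 40| ≤ κ / 40 := by
        rw [abs_le]
        constructor <;> linarith
      have h4 : |β * N + C - j * κ / 40| * (40 * N) ≤ κ / 40 * (40 * N) :=
        mul_le_mul_of_nonneg_right h3 (by positivity)
      calc |β * N + C - j * κ / 40| * (40 * N) ≤ κ / 40 * (40 * N) := h4
        _ = κ * N := by ring
  choose! y hyT α hα1 hα2 using key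
  obtain ⟨t, htT, ht⟩ := Finset.exists_le_card_fiber_of_nsmul_le_card_of_maps_to
    (b := (1 / T.card * E.card : ℝ)) hyT hTn (by
      rw [nsmul_eq_mul]
      apply le_of_eq
      field_simp)
  refine ⟨(t.2.1 : ℝ) / t.1 + (t.2.2 * κ / 40 - C) / N, E.filter fun d => y d = t,
    Finset.filter_subset _ _, ?_, ?_⟩
  · exact ht
  · intro d hd'
    rw [Finset.mem_filter] at hd'
    have h1 := hα1 d hd'.1
    have h2 := hα2 d hd'.1
    rw [hd'.2] at h2
    have h3 := CK_lip hE hB k F A B N hS hN hA hB' (fun i => g i * d i) (α d)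
      ((t.2.1 : ℝ) / t.1 + (t.2.2 * κ / 40 - C) / N)
    obtain ⟨α0, hα0⟩ : ∃ α0 : ℝ, α0 = (t.2.1 : ℝ) / t.1 + (t.2.2 * κ / 40 - C) / N := ⟨_, rfl⟩
    rw [← hα0] at h2 h3 ⊢
    have h4 : 3 * N * (2 * Real.pi * N * |α d - α0|) ≤ κ / 2 * N := by
      have h5 : 3 * N * (2 * Real.pi * N * |α d - α0|) ≤
          3 * N * (2 * Real.pi * N * (κ / (40 * N))) := by
        refine mul_le_mul_of_nonneg_left ?_ (by positivity)
        exact mul_le_mul_of_nonneg_left h2 (by positivity)
      have e3 : 3 * N * (2 * Real.pi * N * (κ / (40 * N))) = 3 * Real.pi / 20 * (κ * N) := by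
        field_simp
        ring
      rw [e3] at h5
      have h6 := Real.pi_lt_d2
      have h7 : 0 < κ * N := mul_pos hκ hN'
      nlinarith
    have h8 := norm_sub_norm_le (CK k F A B (fun i => g i * d i) (α d))
      (CK k F A B (fun i => g i * d i) α0)
    linarith

end Pool.Agent.US
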