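import Pool.Agent.Work.MP_0f91f8_co.US.Stmts2
import Pool.Agent.Work.MP_0f91f8_co.U3.I_EE
import Pool.Agent.Work.MP_0f91f8_co.U3.I_Co2

/-!
# Block US, item Red: one difference less
-/

set_option autoImplicit false

namespace Pool.Agent.US

open Pool.Agent.U3
open scoped ComplexConjugate Classical

namespace IRed

lemma card_Icc (N : ℕ) : (Finset.Icc (-(N : ℤ)) N).card = 2 * N + 1 := by
  rw [Int.card_Icc]
  omega

lemma sub_Icc {N : ℕ} {A B : ℤ} (hA : -(N : ℤ) ≤ A) (hB : B ≤ N) :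
    Finset.Icc A B ⊆ Finset.Icc (-(N : ℤ)) N := by
  intro n hn
  rw [Finset.mem_Icc] at hn ⊢
  omega

lemma sp_out {F : ℤ → ℂ} {A B : ℤ} (h : Sp F A B) {N : ℕ} (hA : -(N : ℤ) ≤ A) (hB : B ≤ N)
    {n : ℤ} (hn : (N : ℤ) < |n|) : F n = 0 := by
  refine h.2 n fun hc => ?_
  have h1 := Finset.mem_Icc.1 (sub_Icc hA hB hc)
  exact absurd (abs_le.2 h1) (not_le.2 hn)

/-- a sum over `[A,B]` is a sum over `[-N,N]` -/
lemma sum_ext {F : ℤ → ℂ} {A B : ℤ} (h : Sp F A B) {N : ℕ} (hA : -(N : ℤ) ≤ A) (hB : B ≤ N)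
    (c : ℤ → ℂ) : ∑ n ∈ Finset.Icc A B, F n * c n = ∑ n ∈ Finset.Icc (-(N : ℤ)) N, F n * c n := by
  refine Finset.sum_subset (sub_Icc hA hB) fun n _ hn => ?_
  rw [h.2 n hn, zero_mul]

/-- the analytic part: many large correlations with shifts `g0 d0` imply a large coefficient -/
lemma fourier {N : ℕ} (hN : 1 ≤ N) {G : ℤ → ℂ} {A B : ℤ} (hG : Sp G A B) (hA : -(N : ℤ) ≤ A)
    (hB : B ≤ N) (α0 κ μ τ : ℝ) (hκ : 0 < κ) (hτ : 0 ≤ τ) (J : Finset ℤ)
    (hJ : μ * N ≤ J.card) (hlt : 3 * τ ^ 2 < μ * κ ^ 2)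
    (hbig : ∀ j ∈ J, κ * N ≤ ‖∑ n ∈ Finset.Icc A B, D1 j G n * ee (-(α0 * n))‖) :
    ∃ a : ℝ, τ * N ≤ ‖∑ n ∈ Finset.Icc A B, G n * ee (-(a * n))‖ := by
  by_contra hcon
  push Not at hcon
  have hEE : StEE := pr_EE
  have hN0 : (0 : ℝ) < N := by exact_mod_cast hN
  have hCo := pr_Co2 hEE N G (fun n => G n * ee (α0 * n)) (τ * N) (by positivity)
    (fun n hn => ⟨sp_out hG hA hB hn, by simp only [sp_out hG hA hB hn, zero_mul]⟩)
    (fun a => by
      rw [← sum_ext hG hA hB (fun n => ee (-(a * n)))]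
      exact (hcon a).le)
  -- the correlations
  have hcor : ∀ j : ℤ, ∑ n ∈ Finset.Icc A B, D1 j G n * ee (-(α0 * n)) =
      ∑ n ∈ Finset.Icc (-(N : ℤ)) N, G (n + j) * conj (G n * ee (α0 * n)) := by
    intro j
    have h1 : ∀ n : ℤ, D1 j G n * ee (-(α0 * n)) = G (n + j) * conj (G n * ee (α0 * n)) := by
      intro n
      unfold D1
      rw [map_mul, hEE.2.2.1]
      ring
    rw [Finset.sum_congr rfl fun n _ => h1 n]
    refine Finset.sum_subset (sub_Icc hA hB) fun n _ hn => ?_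
    rw [hG.2 n hn, zero_mul, map_zero, mul_zero]
  have hJsub : J ⊆ Finset.Icc (-(2 * N : ℤ)) (2 * N) := by
    intro j hj
    by_contra hc
    have h2 := hbig j hj
    rw [hcor j] at h2
    have h3 : ∑ n ∈ Finset.Icc (-(N : ℤ)) N, G (n + j) * conj (G n * ee (α0 * n)) = 0 := by
      refine Finset.sum_eq_zero fun n hn => ?_
      have h4 : (N : ℤ) < |n + j| := by
        rw [Finset.mem_Icc] at hn hc
        rw [lt_abs]
        omega
      rw [sp_out hG hA hB h4, zero_mul]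
    rw [h3, norm_zero] at h2
    have : 0 < κ * N := by positivity
    linarith
  have hw : ∑ n ∈ Finset.Icc (-(N : ℤ)) N, ‖G n * ee (α0 * n)‖ ^ 2 ≤ 3 * N := by
    calc ∑ n ∈ Finset.Icc (-(N : ℤ)) N, ‖G n * ee (α0 * n)‖ ^ 2 ≤
        ∑ _n ∈ Finset.Icc (-(N : ℤ)) N, (1 : ℝ) := by
          refine Finset.sum_le_sum fun n _ => ?_
          rw [norm_mul, hEE.2.1, mul_one]
          exact pow_le_one₀ (norm_nonneg _) (hG.1 n)
      _ = 2 * N + 1 := by
          rw [Finset.sum_const, nsmul_eq_mul, mul_one, card_Icc]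
          push_cast
          ring
      _ ≤ 3 * N := by
          have : (1 : ℝ) ≤ N := by exact_mod_cast hN
          linarith
  have hlow : (J.card : ℝ) * (κ * N) ^ 2 ≤ ∑ j ∈ Finset.Icc (-(2 * N : ℤ)) (2 * N),
      ‖∑ n ∈ Finset.Icc (-(N : ℤ)) N, G (n + j) * conj (G n * ee (α0 * n))‖ ^ 2 := by
    calc (J.card : ℝ) * (κ * N) ^ 2 = ∑ _j ∈ J, (κ * N) ^ 2 := by
          rw [Finset.sum_const, nsmul_eq_mul]
      _ ≤ ∑ j ∈ J, ‖∑ n ∈ Finset.Icc (-(N : ℤ)) N, G (n + j) * conj (G n * ee (α0 * n))‖ ^ 2 := by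
          refine Finset.sum_le_sum fun j hj => ?_
          rw [← hcor j]
          exact pow_le_pow_left₀ (by positivity) (hbig j hj) 2
      _ ≤ _ := Finset.sum_le_sum_of_subset_of_nonneg hJsub fun _ _ _ => sq_nonneg _
  have h5 : μ * N * (κ * N) ^ 2 ≤ (τ * N) ^ 2 * (3 * N) :=
    (mul_le_mul_of_nonneg_right hJ (sq_nonneg _)).trans
      (hlow.trans (hCo.trans (mul_le_mul_of_nonneg_left hw (sq_nonneg _))))
  have h6 : (μ * κ ^ 2) * (N : ℝ) ^ 3 ≤ (3 * τ ^ 2) * (N : ℝ) ^ 3 := by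
    calc (μ * κ ^ 2) * (N : ℝ) ^ 3 = μ * N * (κ * N) ^ 2 := by ring
      _ ≤ (τ * N) ^ 2 * (3 * N) := h5
      _ = _ := by ring
  have h7 := le_of_mul_le_mul_right h6 (by positivity)
  linarith

/-- counting: many tails have many heads -/
lemma count {k N : ℕ} (hN : 1 ≤ N) (κ : ℝ) (hκ : 0 < κ) (E : Finset (Fin (k + 1) → ℤ))
    (hE : ∀ d ∈ E, ∀ i, |d i| ≤ N) (hc : κ * (N : ℝ) ^ (k + 1) ≤ E.card) :
    ∃ R' : Finset (Fin k → ℤ), (∀ r ∈ R', ∀ i, |r i| ≤ N) ∧ κ / 6 * (N : ℝ) ^ k ≤ R'.card ∧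
      ∀ r ∈ R', κ / (2 * 3 ^ k) * N ≤ ((E.filter fun d => Fin.tail d = r).card : ℝ) := by
  have hN0 : (0 : ℝ) < N := by exact_mod_cast hN
  have hN1 : (1 : ℝ) ≤ N := by exact_mod_cast hN
  set T : Finset (Fin k → ℤ) := E.image Fin.tail with hT
  have hTb : T ⊆ bk k N := by
    intro r hr
    obtain ⟨d, hd, rfl⟩ := Finset.mem_image.1 hr
    unfold bk
    rw [Fintype.mem_piFinset]
    intro i
    rw [Finset.mem_Icc]
    exact abs_le.1 (hE d hd i.succ)
  have hTc : (T.card : ℝ) ≤ (3 * N) ^ k := by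
    have h1 : T.card ≤ (2 * N + 1) ^ k := by
      refine (Finset.card_le_card hTb).trans (le_of_eq ?_)
      unfold bk
      rw [Fintype.card_piFinset]
      simp only [card_Icc, Finset.prod_const, Finset.card_univ, Fintype.card_fin]
    calc (T.card : ℝ) ≤ (((2 * N + 1) ^ k : ℕ) : ℝ) := by exact_mod_cast h1
      _ = (2 * N + 1) ^ k := by push_cast; ring
      _ ≤ (3 * N) ^ k := pow_le_pow_left₀ (by positivity) (by linarith) k
  set f : (Fin k → ℤ) → ℝ := fun r => ((E.filter fun d => Fin.tail d = r).card : ℝ) with hf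
  have hsum : (E.card : ℝ) = ∑ r ∈ T, f r := by
    have h1 := Finset.card_eq_sum_card_image (Fin.tail : (Fin (k + 1) → ℤ) → (Fin k → ℤ)) E
    rw [h1]
    push_cast
    rfl
  have hfib : ∀ r, f r ≤ 3 * N := by
    intro r
    have h1 : (E.filter fun d => Fin.tail d = r).card ≤ (Finset.Icc (-(N : ℤ)) N).card := by
      refine Finset.card_le_card_of_injOn (fun d => d 0) ?_ ?_
      · intro d hd
        rw [Finset.mem_coe, Finset.mem_filter] at hd
        rw [Finset.mem_coe, Finset.mem_Icc]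
        exact abs_le.1 (hE d hd.1 0)
      · intro d hd d' hd' h
        rw [Finset.mem_coe, Finset.mem_filter] at hd hd'
        rw [← Fin.cons_self_tail d, ← Fin.cons_self_tail d', hd.2, hd'.2]
        simp only at h
        rw [h]
    rw [card_Icc] at h1
    calc f r ≤ ((2 * N + 1 : ℕ) : ℝ) := Nat.cast_le.2 h1
      _ = 2 * N + 1 := by push_cast; ring
      _ ≤ 3 * N := by linarith
  set R' : Finset (Fin k → ℤ) := T.filter fun r => κ / (2 * 3 ^ k) * N ≤ f r with hR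
  refine ⟨R', ?_, ?_, fun r hr => (Finset.mem_filter.1 hr).2⟩
  · intro r hr i
    have h1 := hTb (Finset.mem_filter.1 hr).1
    unfold bk at h1
    rw [Fintype.mem_piFinset] at h1
    exact abs_le.2 (Finset.mem_Icc.1 (h1 i))
  · have h1 : ∑ r ∈ T, f r = ∑ r ∈ R', f r + ∑ r ∈ T.filter (fun r => ¬ κ / (2 * 3 ^ k) * N ≤ f r),
        f r := (Finset.sum_filter_add_sum_filter_not T _ f).symm
    have h2 : ∑ r ∈ T.filter (fun r => ¬ κ / (2 * 3 ^ k) * N ≤ f r), f r ≤
        κ / 2 * (N : ℝ) ^ (k + 1) := by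
      calc ∑ r ∈ T.filter (fun r => ¬ κ / (2 * 3 ^ k) * N ≤ f r), f r ≤
          ∑ _r ∈ T.filter (fun r => ¬ κ / (2 * 3 ^ k) * N ≤ f r), κ / (2 * 3 ^ k) * N :=
            Finset.sum_le_sum fun r hr => (not_le.1 (Finset.mem_filter.1 hr).2).le
        _ = ((T.filter (fun r => ¬ κ / (2 * 3 ^ k) * N ≤ f r)).card : ℝ) *
            (κ / (2 * 3 ^ k) * N) := by rw [Finset.sum_const, nsmul_eq_mul]
        _ ≤ (3 * N) ^ k * (κ / (2 * 3 ^ k) * N) := by
            refine mul_le_mul_of_nonneg_right ?_ (by positivity)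
            refine le_trans ?_ hTc
            exact_mod_cast Finset.card_filter_le _ _
        _ = _ := by
            rw [mul_pow, pow_succ]
            field_simp
    have h3 : ∑ r ∈ R', f r ≤ R'.card * (3 * N) := by
      calc ∑ r ∈ R', f r ≤ ∑ _r ∈ R', (3 * N : ℝ) := Finset.sum_le_sum fun r _ => hfib r
        _ = _ := by rw [Finset.sum_const, nsmul_eq_mul]
    have h4 : κ / 2 * (N : ℝ) ^ (k + 1) ≤ R'.card * (3 * N) := by
      have : κ * (N : ℝ) ^ (k + 1) ≤ R'.card * (3 * N) + κ / 2 * (N : ℝ) ^ (k + 1) := by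
        linarith
      linarith
    have h5 : (κ / 6 * (N : ℝ) ^ k) * (3 * N) ≤ R'.card * (3 * N) := by
      calc (κ / 6 * (N : ℝ) ^ k) * (3 * N) = κ / 2 * (N : ℝ) ^ (k + 1) := by
            rw [pow_succ]
            ring
        _ ≤ _ := h4
    exact le_of_mul_le_mul_right h5 (by positivity)

end IRed

open IRed in
/-- one difference less -/
theorem us_Red (hB : StBas) : StRed := by
  intro k κ hκ
  obtain ⟨-, hSp, -, -, -, hCK⟩ := hB
  have h3k : (0 : ℝ) < 2 * 3 ^ k := by positivity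
  set μ : ℝ := κ / (2 * 3 ^ k) with hμ
  have hμ0 : 0 < μ := by positivity
  set c : ℝ := μ * κ ^ 2 / 4 with hc
  have hc0 : 0 < c := by positivity
  refine ⟨min (κ / 6) (min 1 c), lt_min (by positivity) (lt_min one_pos hc0), ?_⟩
  intro N hN F A B g α0 E hF hA hB' hg hE hcard hbig
  have hN0 : (0 : ℝ) < N := by exact_mod_cast hN
  set τ : ℝ := min (κ / 6) (min 1 c) with hτ
  have hτ0 : 0 < τ := lt_min (by positivity) (lt_min one_pos hc0)
  have hτ1 : τ ≤ 1 := (min_le_right _ _).trans (min_le_left _ _)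
  have hτc : τ ≤ c := (min_le_right _ _).trans (min_le_right _ _)
  have hlt : 3 * τ ^ 2 < μ * κ ^ 2 := by
    have h1 : τ ^ 2 ≤ c := by nlinarith
    have h2 : 4 * c = μ * κ ^ 2 := by
      rw [hc]
      ring
    linarith
  obtain ⟨R', hR1, hR2, hR3⟩ := count hN κ hκ E hE hcard
  refine ⟨R', hR1, ?_, ?_⟩
  · exact (mul_le_mul_of_nonneg_right (min_le_left _ _) (by positivity)).trans hR2
  · intro r hr
    have hG := hSp k F (fun i => g i.succ * r i) A B hF
    obtain ⟨a, ha⟩ := fourier hN hG hA hB' α0 κ μ τ hκ hτ0.le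
      ((E.filter fun d => Fin.tail d = r).image fun d => g 0 * d 0)
      (by
        rw [Finset.card_image_of_injOn]
        · exact hR3 r hr
        · intro d hd d' hd' h
          rw [Finset.mem_coe, Finset.mem_filter] at hd hd'
          simp only at h
          have h1 : d 0 = d' 0 := mul_left_cancel₀ (hg 0) h
          rw [← Fin.cons_self_tail d, ← Fin.cons_self_tail d', hd.2, hd'.2, h1])
      hlt
      (by
        intro j hj
        obtain ⟨d, hd, rfl⟩ := Finset.mem_image.1 hj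
        rw [Finset.mem_filter] at hd
        have h1 := hbig d hd.1
        have h2 : (fun i => g i * d i) =
            Fin.cons (α := fun _ => ℤ) (g 0 * d 0) (fun i => g i.succ * r i) := by
          funext i
          refine Fin.cases ?_ (fun i => ?_) i
          · rw [Fin.cons_zero]
          · rw [Fin.cons_succ, ← hd.2]
            rfl
        rw [h2, (hCK k F A B (g 0 * d 0) (fun i => g i.succ * r i) α0).1] at h1
        exact h1)
    exact ⟨a, ha⟩

end Pool.Agent.US
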