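import Pool.Agent.Work.MP_0f91f8_co.US.Stmts

/-!
# Block US, item Sel: selection of a block of primes
-/

set_option autoImplicit false

namespace Pool.Agent.US

open Pool.Agent.U3
open scoped ComplexConjugate Classical

namespace XSel

/-- The primes in a long interval have a large sum of reciprocals. -/
theorem primes (P0 : ℕ) (K : ℝ) : ∃ P1 : ℕ, P0 ≤ P1 ∧
    K < ∑ t ∈ (Finset.Icc P0 P1).filter Nat.Prime, 1 / (t : ℝ) := by
  have hnn : ∀ n : ℕ, 0 ≤ Set.indicator {p : ℕ | p.Prime} (fun n : ℕ => (1 : ℝ) / n) n := fun n =>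
    Set.indicator_nonneg (fun m _ => by positivity) n
  have hf := (not_summable_iff_tendsto_nat_atTop_of_nonneg hnn).1 not_summable_one_div_on_primes
  obtain ⟨N, hN⟩ := Filter.eventually_atTop.1 (hf.eventually_gt_atTop
    (K + ∑ i ∈ Finset.range P0, Set.indicator {p : ℕ | p.Prime} (fun n : ℕ => (1 : ℝ) / n) i))
  refine ⟨max P0 N, le_max_left _ _, ?_⟩
  have h1 := hN (max P0 N + 1) ((le_max_right P0 N).trans (Nat.le_succ _))
  have h2 : Finset.range (max P0 N + 1) = Finset.range P0 ∪ Finset.Icc P0 (max P0 N) := by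
    ext i
    rw [Finset.mem_union, Finset.mem_range, Finset.mem_range, Finset.mem_Icc]
    have := le_max_left P0 N
    omega
  have h3 : Disjoint (Finset.range P0) (Finset.Icc P0 (max P0 N)) := by
    rw [Finset.disjoint_left]
    intro i hi hi'
    rw [Finset.mem_range] at hi
    rw [Finset.mem_Icc] at hi'
    omega
  rw [h2, Finset.sum_union h3] at h1
  have h4 : ∑ i ∈ Finset.Icc P0 (max P0 N),
      Set.indicator {p : ℕ | p.Prime} (fun n : ℕ => (1 : ℝ) / n) i =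
      ∑ t ∈ (Finset.Icc P0 (max P0 N)).filter Nat.Prime, 1 / (t : ℝ) := by
    rw [Finset.sum_filter]
    refine Finset.sum_congr rfl fun i _ => ?_
    by_cases hi : i.Prime
    · rw [if_pos hi, Set.indicator_of_mem (by exact hi)]
    · rw [if_neg hi, Set.indicator_of_notMem (by exact hi)]
  rw [h4] at h1
  linarith

/-- The primes which are not nice. -/
theorem notNice {ι : Type} (P : Finset ℕ) (R : Finset ι) (bad : ℕ → ι → Prop) (C0 : ℝ)
    (hR : R.Nonempty) (hbad : ∀ r ∈ R, ∑ t ∈ P.filter (fun t => bad t r), 1 / (t : ℝ) ≤ C0) :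
    ∑ t ∈ P.filter (fun t => ¬ ((R.card : ℝ) ≤ 2 * (R.filter fun r => ¬ bad t r).card)),
      1 / (t : ℝ) ≤ 2 * C0 := by
  have hR0 : (0 : ℝ) < R.card := by exact_mod_cast hR.card_pos
  have h1 : ∑ t ∈ P.filter (fun t => ¬ ((R.card : ℝ) ≤ 2 * (R.filter fun r => ¬ bad t r).card)),
      (R.card : ℝ) / 2 * (1 / (t : ℝ)) ≤ ∑ t ∈ P, ∑ r ∈ R, if bad t r then 1 / (t : ℝ) else 0 := by
    refine le_trans (Finset.sum_le_sum (g := fun t => ∑ r ∈ R, if bad t r then 1 / (t : ℝ) else 0)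
      fun t ht => ?_) (Finset.sum_le_sum_of_subset_of_nonneg (Finset.filter_subset _ _)
        fun t _ _ => Finset.sum_nonneg fun r _ => ?_)
    · rw [Finset.mem_filter, not_le] at ht
      rw [← Finset.sum_filter, Finset.sum_const, nsmul_eq_mul]
      have h2 : (R.filter fun r => bad t r).card + (R.filter fun r => ¬ bad t r).card = R.card :=
        Finset.card_filter_add_card_filter_not _
      have h3 : ((R.filter fun r => bad t r).card : ℝ) + ((R.filter fun r => ¬ bad t r).card : ℝ) =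
        R.card := by exact_mod_cast h2
      have h4 : (0 : ℝ) ≤ 1 / (t : ℝ) := by positivity
      refine mul_le_mul_of_nonneg_right ?_ h4
      linarith [ht.2]
    · split_ifs
      · positivity
      · exact le_rfl
  rw [Finset.sum_comm] at h1
  have h5 : ∑ r ∈ R, ∑ t ∈ P, (if bad t r then 1 / (t : ℝ) else 0) ≤ R.card * C0 := by
    rw [← nsmul_eq_mul]
    refine Finset.sum_le_card_nsmul _ _ _ fun r hr => ?_
    rw [← Finset.sum_filter]
    exact hbad r hr
  rw [← Finset.mul_sum] at h1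
  have h6 := h1.trans h5
  have h7 : (R.card : ℝ) * (1 / 2 * ∑ t ∈ P.filter
      (fun t => ¬ ((R.card : ℝ) ≤ 2 * (R.filter fun r => ¬ bad t r).card)), 1 / (t : ℝ)) ≤
      R.card * C0 := by
    refine le_trans (le_of_eq ?_) h6
    ring
  have h8 := le_of_mul_le_mul_left h7 hR0
  linarith

/-- A sparse set (at all scales) has a bounded sum of reciprocals. -/
theorem sparse (ε θ : ℝ) (P0 : ℕ) (hε : 0 < ε) (hθ : 0 < θ) (hP0 : 2 ≤ P0) (S : Finset ℕ)
    (hS : ∀ t ∈ S, P0 ≤ t)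
    (h : ∀ T ∈ S, 2 * ((S.filter fun t : ℕ => T ≤ t ∧ (t : ℝ) ≤ (1 + ε) * T).card : ℝ) <
      (T : ℝ) ^ (1 - θ)) :
    ∑ t ∈ S, 1 / (t : ℝ) ≤ (1 - (1 + ε) ^ (-θ))⁻¹ := by
  have hP0' : (0 : ℝ) < P0 := by
    have : 0 < P0 := by omega
    exact_mod_cast this
  have hx0 : (0 : ℝ) < (1 + ε) ^ (-θ) := Real.rpow_pos_of_pos (by linarith) _
  have hx1 : (1 + ε) ^ (-θ) < (1 : ℝ) :=
    Real.rpow_lt_one_of_one_lt_of_neg (by linarith) (by linarith)
  have hL : 0 < Real.log (1 + ε) := Real.log_pos (by linarith)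
  obtain ⟨j, hj⟩ : ∃ j : ℕ → ℕ,
      j = fun t : ℕ => ⌊Real.log ((t : ℝ) / P0) / Real.log (1 + ε)⌋₊ := ⟨_, rfl⟩
  have hblock : ∀ t ∈ S, (P0 : ℝ) * (1 + ε) ^ (j t) ≤ t ∧
      (t : ℝ) < P0 * (1 + ε) ^ (j t) * (1 + ε) := by
    intro t ht
    have h1 : (P0 : ℝ) ≤ t := by exact_mod_cast hS t ht
    have ht0 : (0 : ℝ) < t := by linarith
    have hq : (1 : ℝ) ≤ (t : ℝ) / P0 := by rwa [le_div_iff₀ hP0', one_mul]
    have hq0 : (0 : ℝ) < (t : ℝ) / P0 := by linarith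
    have hlq : 0 ≤ Real.log ((t : ℝ) / P0) / Real.log (1 + ε) :=
      div_nonneg (Real.log_nonneg hq) hL.le
    have h2 := Nat.floor_le hlq
    have h3 := Nat.lt_floor_add_one (Real.log ((t : ℝ) / P0) / Real.log (1 + ε))
    rw [le_div_iff₀ hL] at h2
    rw [div_lt_iff₀ hL] at h3
    have e : j t = ⌊Real.log ((t : ℝ) / P0) / Real.log (1 + ε)⌋₊ := by rw [hj]
    rw [← e] at h2 h3
    have h4 : (1 + ε) ^ (j t) ≤ (t : ℝ) / P0 := by
      rw [← Real.log_le_log_iff (by positivity) hq0, Real.log_pow]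
      exact h2
    have h5 : (t : ℝ) / P0 < (1 + ε) ^ (j t + 1) := by
      rw [← Real.log_lt_log_iff hq0 (by positivity), Real.log_pow]
      push_cast
      exact h3
    rw [le_div_iff₀ hP0'] at h4
    rw [div_lt_iff₀ hP0', pow_succ] at h5
    constructor <;> nlinarith
  have hfib : ∑ t ∈ S, 1 / (t : ℝ) =
      ∑ i ∈ S.image j, ∑ t ∈ S.filter (fun t => j t = i), 1 / (t : ℝ) :=
    (Finset.sum_fiberwise_of_maps_to (fun t ht => Finset.mem_image_of_mem j ht) _).symm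
  rw [hfib]
  have hterm : ∀ i ∈ S.image j, ∑ t ∈ S.filter (fun t => j t = i), 1 / (t : ℝ) ≤
      ((1 + ε) ^ (-θ)) ^ i := by
    intro i hi
    have hne : (S.filter (fun t => j t = i)).Nonempty := by
      rw [Finset.mem_image] at hi
      obtain ⟨t, ht, hti⟩ := hi
      exact ⟨t, Finset.mem_filter.2 ⟨ht, hti⟩⟩
    obtain ⟨T, hT⟩ : ∃ T, T = (S.filter (fun t => j t = i)).min' hne := ⟨_, rfl⟩
    have hTm : T ∈ S.filter (fun t => j t = i) := by rw [hT]; exact Finset.min'_mem _ _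
    rw [Finset.mem_filter] at hTm
    obtain ⟨b1, -⟩ := hblock T hTm.1
    rw [hTm.2] at b1
    have hT0 : (0 : ℝ) < T := lt_of_lt_of_le (by positivity) b1
    have hle : ∀ t ∈ S.filter (fun t => j t = i), T ≤ t := fun t ht => by
      rw [hT]
      exact Finset.min'_le _ _ ht
    have hsub : S.filter (fun t => j t = i) ⊆
        S.filter fun t : ℕ => T ≤ t ∧ (t : ℝ) ≤ (1 + ε) * T := by
      intro t ht
      have h1 := hle t ht
      rw [Finset.mem_filter] at ht ⊢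
      refine ⟨ht.1, h1, ?_⟩
      obtain ⟨-, b2⟩ := hblock t ht.1
      rw [ht.2] at b2
      have : (P0 : ℝ) * (1 + ε) ^ i * (1 + ε) ≤ T * (1 + ε) :=
        mul_le_mul_of_nonneg_right b1 (by linarith)
      linarith
    have hc : ((S.filter (fun t => j t = i)).card : ℝ) ≤
        ((S.filter fun t : ℕ => T ≤ t ∧ (t : ℝ) ≤ (1 + ε) * T).card : ℝ) := by
      exact_mod_cast Finset.card_le_card hsub
    have h2 : ∑ t ∈ S.filter (fun t => j t = i), 1 / (t : ℝ) ≤
        ((S.filter (fun t => j t = i)).card : ℝ) * (1 / (T : ℝ)) := by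
      rw [← nsmul_eq_mul]
      refine Finset.sum_le_card_nsmul _ _ _ fun t ht => ?_
      exact one_div_le_one_div_of_le hT0 (by exact_mod_cast hle t ht)
    refine h2.trans ?_
    have h3 := h T hTm.1
    have h4 : (T : ℝ) ^ (1 - θ) = T * (T : ℝ) ^ (-θ) := by
      rw [sub_eq_add_neg, Real.rpow_add hT0, Real.rpow_one]
    rw [h4] at h3
    have hTθ : 0 < (T : ℝ) ^ (-θ) := Real.rpow_pos_of_pos hT0 _
    have h5 : ((S.filter (fun t => j t = i)).card : ℝ) * (1 / (T : ℝ)) ≤ (T : ℝ) ^ (-θ) := by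
      rw [mul_one_div, div_le_iff₀ hT0]
      have : 0 < (T : ℝ) ^ (-θ) * T := mul_pos hTθ hT0
      nlinarith
    refine h5.trans ?_
    have h6 : (1 + ε) ^ i ≤ (T : ℝ) := by
      have : (1 : ℝ) ≤ P0 := by
        have : 1 ≤ P0 := by omega
        exact_mod_cast this
      have h7 : (0 : ℝ) < (1 + ε) ^ i := by positivity
      nlinarith
    have h8 : ((1 + ε) ^ (-θ)) ^ i = ((1 + ε) ^ i : ℝ) ^ (-θ) := by
      rw [← Real.rpow_natCast, ← Real.rpow_natCast, ← Real.rpow_mul (by linarith),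
        ← Real.rpow_mul (by linarith), mul_comm]
    rw [h8]
    exact Real.rpow_le_rpow_of_nonpos (by positivity) h6 (by linarith)
  refine (Finset.sum_le_sum hterm).trans ?_
  rw [← tsum_geometric_of_lt_one hx0.le hx1]
  exact (summable_geometric_of_lt_one hx0.le hx1).sum_le_tsum _ fun i _ => by positivity

end XSel

theorem us_Sel : StSel := by
  intro ε θ C0 P0 hε _ hθ _ hP0
  obtain ⟨P1, hP1, hsum⟩ := XSel.primes P0 (2 * C0 + (1 - (1 + ε) ^ (-θ))⁻¹)
  refine ⟨P1, hP1, fun ι R bad hR hbad => ?_⟩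
  obtain ⟨S, hS⟩ : ∃ S, S = ((Finset.Icc P0 P1).filter Nat.Prime).filter
    (fun t => (R.card : ℝ) ≤ 2 * (R.filter fun r => ¬ bad t r).card) := ⟨_, rfl⟩
  have h1 := XSel.notNice ((Finset.Icc P0 P1).filter Nat.Prime) R bad C0 hR (fun r hr => by
    rw [Finset.filter_filter]
    exact hbad r hr)
  have h2 : ∑ t ∈ (Finset.Icc P0 P1).filter Nat.Prime, 1 / (t : ℝ) = ∑ t ∈ S, 1 / (t : ℝ) +
      ∑ t ∈ ((Finset.Icc P0 P1).filter Nat.Prime).filter
        (fun t => ¬ ((R.card : ℝ) ≤ 2 * (R.filter fun r => ¬ bad t r).card)), 1 / (t : ℝ) := by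
    rw [hS]
    exact (Finset.sum_filter_add_sum_filter_not _ _ _).symm
  have h3 : (1 - (1 + ε) ^ (-θ))⁻¹ < ∑ t ∈ S, 1 / (t : ℝ) := by linarith
  have hmem : ∀ t ∈ S, P0 ≤ t ∧ t ≤ P1 ∧ t.Prime ∧
      (R.card : ℝ) ≤ 2 * (R.filter fun r => ¬ bad t r).card := by
    intro t ht
    rw [hS, Finset.mem_filter, Finset.mem_filter, Finset.mem_Icc] at ht
    exact ⟨ht.1.1.1, ht.1.1.2, ht.1.2, ht.2⟩
  have h4 : ∃ T ∈ S, (T : ℝ) ^ (1 - θ) ≤
      2 * ((S.filter fun t : ℕ => T ≤ t ∧ (t : ℝ) ≤ (1 + ε) * T).card : ℝ) := by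
    by_contra hcon
    push Not at hcon
    have h5 := XSel.sparse ε θ P0 hε hθ hP0 S (fun t ht => (hmem t ht).1) hcon
    linarith
  obtain ⟨T, hT, h5⟩ := h4
  refine ⟨T, S.filter fun t : ℕ => T ≤ t ∧ (t : ℝ) ≤ (1 + ε) * T, (hmem T hT).1, (hmem T hT).2.1,
    Finset.mem_filter.2 ⟨hT, le_rfl, ?_⟩, fun t ht => ?_, h5, fun t ht => ?_⟩
  · have : (0 : ℝ) ≤ T := Nat.cast_nonneg _
    nlinarith
  · rw [Finset.mem_filter] at ht
    exact ⟨(hmem t ht.1).2.2.1, ht.2.1, (hmem t ht.1).2.1, ht.2.2⟩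
  · rw [Finset.mem_filter] at ht
    exact (hmem t ht.1).2.2.2

end Pool.Agent.US
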