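import Pool.Agent.Work.MP_0f91f8_co.US.Stmts2

/-! # Item St0 of the block US: steps divisible by `Q` -/

set_option autoImplicit false

namespace Pool.Agent.US

open Pool.Agent.U3
open scoped ComplexConjugate Classical

namespace ISt0

theorem sp_ct {f : ℤ → ℂ} (hf : ∀ n, ‖f n‖ ≤ 1) (A B : ℤ) : Sp (ct f A B) A B := by
  constructor
  · intro n
    unfold ct
    split_ifs
    · exact hf n
    · simp
  · intro n hn
    unfold ct
    rw [if_neg hn]

theorem card_bk (k X : ℕ) : ((bk k X).card : ℝ) = (2 * (X : ℝ) + 1) ^ k := by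
  unfold bk
  rw [Fintype.card_piFinset]
  simp only [Int.card_Icc, Finset.prod_const, Finset.card_univ, Fintype.card_fin]
  have h : ((X : ℤ) + 1 - -(X : ℤ)).toNat = 2 * X + 1 := by omega
  rw [h]
  push_cast
  ring

theorem card_bk_le (k X : ℕ) (hX : 1 ≤ X) : ((bk k X).card : ℝ) ≤ (3 * (X : ℝ)) ^ k := by
  rw [card_bk]
  have : (1 : ℝ) ≤ X := by exact_mod_cast hX
  exact pow_le_pow_left₀ (by positivity) (by linarith) k

end ISt0

open ISt0 in
/-- Item St0. -/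
theorem us_St0 (hP : StPDk) (hB : StBas) : StSt0 := by
  intro k δ hδ
  obtain ⟨κ, hκ, hPD⟩ := hP k (δ ^ 3 / 9) (by positivity)
  set δ1 : ℝ := Real.sqrt (9 * κ / (2 * 9 ^ k)) with hδ1
  have hδ1s : δ1 ^ 2 = 9 * κ / (2 * 9 ^ k) := Real.sq_sqrt (by positivity)
  have hδ1p : 0 < δ1 := Real.sqrt_pos.2 (by positivity)
  refine ⟨min δ1 (κ / (2 * 3 ^ k)), lt_min hδ1p (by positivity), ?_⟩
  intro f hf H Q N A B hQ hQN hA hB' R hR hRc hRa
  have hN1 : 1 ≤ N := hQ.trans hQN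
  have hN : (1 : ℝ) ≤ N := by exact_mod_cast hN1
  have hN0 : (0 : ℝ) < N := by linarith
  set D := N / Q with hD
  have hD1 : 1 ≤ D := (Nat.one_le_div_iff (by omega)).2 hQN
  have hDr : (1 : ℝ) ≤ D := by exact_mod_cast hD1
  have hD0 : (0 : ℝ) < D := by linarith
  have hSp := sp_ct hf A B
  have hZ : (B - A + 1 : ℝ) ≤ 3 * N := by
    have h1 : (B : ℝ) ≤ N := by exact_mod_cast hB'
    have h2 : -(N : ℝ) ≤ A := by exact_mod_cast hA
    linarith
  choose! w hw using hRa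
  have hlow : δ ^ 3 / 9 * (N : ℝ) ^ k * (3 * (N : ℝ)) ^ 2 ≤
      ∑ r ∈ R, ‖CK k (ct f A B) A B (fun i => 0 + H i * r i) (w r)‖ ^ 2 := by
    have h1 : ∀ r ∈ R, (δ * N) ^ 2 ≤ ‖CK k (ct f A B) A B (fun i => 0 + H i * r i) (w r)‖ ^ 2 := by
      intro r hr
      have h2 : (fun i => 0 + H i * r i) = fun i => H i * r i := by
        funext i
        rw [zero_add]
      rw [h2]
      exact pow_le_pow_left₀ (by positivity) (hw r hr) 2
    have h3 := Finset.card_nsmul_le_sum R _ _ h1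
    rw [nsmul_eq_mul] at h3
    have h4 : δ * (N : ℝ) ^ k * (δ * N) ^ 2 ≤ (R.card : ℝ) * (δ * N) ^ 2 :=
      mul_le_mul_of_nonneg_right hRc (by positivity)
    have h5 : δ ^ 3 / 9 * (N : ℝ) ^ k * (3 * (N : ℝ)) ^ 2 = δ * (N : ℝ) ^ k * (δ * N) ^ 2 := by ring
    rw [h5]
    exact h4.trans h3
  have hmain := hPD (ct f A B) A B (3 * N) hSp hZ (by positivity) N D Q (fun _ => 0) H R w hN1 hQ
    (Nat.mul_div_le N Q) hR hlow
  have hRcard : (R.card : ℝ) ≤ (3 * (N : ℝ)) ^ k := by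
    refine le_trans ?_ (card_bk_le k N hN1)
    have : R ⊆ bk k N := by
      intro r hr
      unfold bk
      rw [Fintype.mem_piFinset]
      intro i
      rw [Finset.mem_Icc]
      exact abs_le.1 (hR r hr i)
    exact_mod_cast Finset.card_le_card this
  set R1 : Finset (Fin k → ℤ) := (bk k D).filter
    (fun d => ∃ a : ℝ, δ1 * N ≤ ‖CK k (ct f A B) A B (fun i => Q * H i * d i) a‖) with hR1
  set inner : (Fin k → ℤ) → ℝ := fun d => ∑ r ∈ R.filter (fun r => ∀ s, cn Q r d s ∈ R),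
    ‖CK k (ct f A B) A B (fun i => Q * H i * d i) (al w Q r d)‖ ^ 2 with hinner
  have hin1 : ∀ d, inner d ≤ (3 * (N : ℝ)) ^ k * (3 * (N : ℝ)) ^ 2 := by
    intro d
    have h1 : ∀ r ∈ R.filter (fun r => ∀ s, cn Q r d s ∈ R),
        ‖CK k (ct f A B) A B (fun i => Q * H i * d i) (al w Q r d)‖ ^ 2 ≤ (3 * (N : ℝ)) ^ 2 := by
      intro r _
      exact pow_le_pow_left₀ (norm_nonneg _)
        (hB.2.2.2.2.1 k (ct f A B) A B _ _ _ hSp hZ (by positivity)) 2
    have h2 := Finset.sum_le_card_nsmul _ _ _ h1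
    rw [nsmul_eq_mul] at h2
    refine h2.trans (mul_le_mul_of_nonneg_right ?_ (by positivity))
    refine le_trans ?_ hRcard
    exact_mod_cast Finset.card_filter_le _ _
  have hin2 : ∀ d ∈ (bk k D).filter
      (fun d => ¬ ∃ a : ℝ, δ1 * N ≤ ‖CK k (ct f A B) A B (fun i => Q * H i * d i) a‖),
      inner d ≤ (3 * (N : ℝ)) ^ k * (δ1 * N) ^ 2 := by
    intro d hd
    have hd2 := (Finset.mem_filter.1 hd).2
    push Not at hd2
    have h1 : ∀ r ∈ R.filter (fun r => ∀ s, cn Q r d s ∈ R),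
        ‖CK k (ct f A B) A B (fun i => Q * H i * d i) (al w Q r d)‖ ^ 2 ≤ (δ1 * N) ^ 2 := by
      intro r _
      exact pow_le_pow_left₀ (norm_nonneg _) (hd2 _).le 2
    have h2 := Finset.sum_le_card_nsmul _ _ _ h1
    rw [nsmul_eq_mul] at h2
    refine h2.trans (mul_le_mul_of_nonneg_right ?_ (by positivity))
    refine le_trans ?_ hRcard
    exact_mod_cast Finset.card_filter_le _ _
  have hsplit : ∑ d ∈ bk k D, inner d = ∑ d ∈ R1, inner d + ∑ d ∈ (bk k D).filter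
      (fun d => ¬ ∃ a : ℝ, δ1 * N ≤ ‖CK k (ct f A B) A B (fun i => Q * H i * d i) a‖), inner d :=
    (Finset.sum_filter_add_sum_filter_not _ _ _).symm
  have hs1 : ∑ d ∈ R1, inner d ≤ (R1.card : ℝ) * ((3 * (N : ℝ)) ^ k * (3 * (N : ℝ)) ^ 2) := by
    have := Finset.sum_le_card_nsmul R1 inner _ (fun d _ => hin1 d)
    rwa [nsmul_eq_mul] at this
  have hs2 : ∑ d ∈ (bk k D).filter
      (fun d => ¬ ∃ a : ℝ, δ1 * N ≤ ‖CK k (ct f A B) A B (fun i => Q * H i * d i) a‖), inner d ≤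
      (3 * (D : ℝ)) ^ k * ((3 * (N : ℝ)) ^ k * (δ1 * N) ^ 2) := by
    have := Finset.sum_le_card_nsmul _ inner _ hin2
    rw [nsmul_eq_mul] at this
    refine this.trans (mul_le_mul_of_nonneg_right ?_ (by positivity))
    refine le_trans ?_ (card_bk_le k D hD1)
    exact_mod_cast Finset.card_filter_le _ _
  have hm : κ * (N : ℝ) ^ k * (D : ℝ) ^ k * (3 * (N : ℝ)) ^ 2 ≤ ∑ d ∈ bk k D, inner d := hmain
  have he : (3 * (D : ℝ)) ^ k * ((3 * (N : ℝ)) ^ k * (δ1 * N) ^ 2) =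
      κ * (N : ℝ) ^ k * (D : ℝ) ^ k * (3 * (N : ℝ)) ^ 2 / 2 := by
    have h9 : (9 : ℝ) ^ k = 3 ^ k * 3 ^ k := by
      rw [← mul_pow]
      norm_num
    rw [mul_pow δ1, hδ1s, h9, mul_pow, mul_pow]
    field_simp
    ring
  have hkey : κ * (N : ℝ) ^ k * (D : ℝ) ^ k * (3 * (N : ℝ)) ^ 2 / 2 ≤
      (R1.card : ℝ) * ((3 * (N : ℝ)) ^ k * (3 * (N : ℝ)) ^ 2) := by
    rw [hsplit] at hm
    rw [he] at hs2
    linarith
  have hcard : κ / (2 * 3 ^ k) * (D : ℝ) ^ k ≤ R1.card := by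
    have hpos : (0 : ℝ) < (3 * (N : ℝ)) ^ k * (3 * (N : ℝ)) ^ 2 := by positivity
    refine le_of_mul_le_mul_right ?_ hpos
    refine le_trans (le_of_eq ?_) hkey
    rw [mul_pow]
    field_simp
  refine ⟨R1, Finset.filter_subset _ _, ?_, ?_⟩
  · refine le_trans (mul_le_mul_of_nonneg_right (min_le_right _ _) (by positivity)) hcard
  · intro r hr
    obtain ⟨a, ha⟩ := (Finset.mem_filter.1 hr).2
    exact ⟨a, le_trans (mul_le_mul_of_nonneg_right (min_le_left _ _) hN0.le) ha⟩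

end Pool.Agent.US
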