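import Pool.Agent.Work.MP_0f91f8_co.US.Stmts2

/-!
# Block US, item UU (helper83): THEOREM U by induction
-/

set_option autoImplicit false

namespace Pool.Agent.US

open Pool.Agent.U3
open scoped ComplexConjugate Classical

namespace IUU

theorem cm_le {f : ℤ → ℂ} (hf : CM f) (n : ℤ) : ‖f n‖ ≤ 1 := by
  by_cases h : n = 0
  · rw [h, hf.zero, norm_zero]
    exact zero_le_one
  · exact (hf.nrm n h).le

theorem cl_ge {A : ℤ} {N t : ℕ} (hA : -(N : ℤ) ≤ A) (ht : 1 ≤ t) : -(N : ℤ) ≤ cl A t := by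
  unfold cl
  have ht' : (0 : ℤ) < t := by exact_mod_cast ht
  have h1 : (-A) / (t : ℤ) ≤ N := by
    rcases le_or_gt 0 (-A) with h | h
    · exact (Int.ediv_le_self _ h).trans (by linarith)
    · have := Int.ediv_neg_of_neg_of_pos h ht'
      have h2 : (0 : ℤ) ≤ N := Int.natCast_nonneg N
      omega
  linarith

theorem div_le {B : ℤ} {N t : ℕ} (hB : B ≤ N) (ht : 1 ≤ t) : B / (t : ℤ) ≤ N := by
  have ht' : (0 : ℤ) < t := by exact_mod_cast ht
  rcases le_or_gt 0 B with h | h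
  · exact (Int.ediv_le_self _ h).trans hB
  · have := Int.ediv_neg_of_neg_of_pos h ht'
    have h2 : (0 : ℤ) ≤ N := Int.natCast_nonneg N
    omega

end IUU

theorem us_UU (hM : StMn) (hP : StPig) (hR : StRed) (h0 : StAk0) : StUU := by
  intro f hf hap k
  induction k with
  | zero => exact h0 f hf hap
  | succ k ih =>
    intro H hH δ hδ
    obtain ⟨Q, B, κ, C, N0, hQ, hB, hκ, hMain⟩ := hM (k + 1) H δ (by omega) hH hδ
    obtain ⟨κ1, hκ1, hPig⟩ := hP (k + 1) B κ C hκ
    have hκr : 0 < min (κ1 * κ) (κ / 2) := by positivity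
    obtain ⟨κ2, hκ2, hRed⟩ := hR k (min (κ1 * κ) (κ / 2)) hκr
    obtain ⟨N1, hN1⟩ := ih (fun i => Q * H i.succ)
      (fun i => mul_ne_zero (by exact_mod_cast (by omega : Q ≠ 0)) (hH _)) κ2 hκ2
    refine ⟨max N0 (max N1 1), fun N hN A B' hA hB' R hRN hRc => ?_⟩
    have hN0 : N0 ≤ N := (le_max_left _ _).trans hN
    have hN1' : N1 ≤ N := ((le_max_left _ _).trans (le_max_right _ _)).trans hN
    have hN2 : 1 ≤ N := ((le_max_right _ _).trans (le_max_right _ _)).trans hN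
    by_contra hcon
    rw [not_lt] at hcon
    obtain ⟨t, E, ht1, -, hEN, hEc, hE⟩ := hMain N hN0 f hf A B' hA hB' R hRN hcon hRc
    have htz : (1 : ℤ) ≤ t := by exact_mod_cast ht1
    have hA' : -(N : ℤ) ≤ cl A t := IUU.cl_ge hA ht1
    have hB'' : B' / t ≤ N := IUU.div_le hB' ht1
    have hSp : Sp (ct f (cl A t) (B' / t)) (cl A t) (B' / t) := by
      refine ⟨fun n => ?_, fun n hn => ?_⟩
      · unfold ct
        split_ifs
        · exact IUU.cm_le hf n
        · simp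
      · unfold ct
        rw [if_neg hn]
    obtain ⟨α0, E', hE'E, hE'c, hE'⟩ := hPig N hN2 (ct f (cl A t) (B' / t)) (cl A t) (B' / t)
      (fun i => Q * H i) E hSp hA' hB'' hE
    have hNk : 0 ≤ (N : ℝ) ^ (k + 1) := by positivity
    obtain ⟨R', hR'N, hR'c, hR'⟩ := hRed N hN2 (ct f (cl A t) (B' / t)) (cl A t) (B' / t)
      (fun i => Q * H i) α0 E' hSp hA' hB''
      (fun i => mul_ne_zero (by exact_mod_cast (by omega : Q ≠ 0)) (hH _))
      (fun d hd => hEN d (hE'E hd))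
      (by
        have h1 : min (κ1 * κ) (κ / 2) * (N : ℝ) ^ (k + 1) ≤ κ1 * κ * (N : ℝ) ^ (k + 1) :=
          mul_le_mul_of_nonneg_right (min_le_left _ _) hNk
        have h2 : κ1 * (κ * (N : ℝ) ^ (k + 1)) ≤ κ1 * (E.card : ℝ) :=
          mul_le_mul_of_nonneg_left hEc hκ1.le
        linarith)
      (fun d hd => by
        have h1 : min (κ1 * κ) (κ / 2) * (N : ℝ) ≤ κ / 2 * N :=
          mul_le_mul_of_nonneg_right (min_le_right _ _) (Nat.cast_nonneg _)
        exact h1.trans (hE' d hd))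
    have := hN1 N hN1' (cl A t) (B' / t) hA' hB'' R' hR'N hR'
    linarith

end Pool.Agent.US
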