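import Pool.Agent.Work.MP_0f91f8_co.US.Stmts2
import Pool.Agent.Work.MP_0f91f8_co.U3.All

/-!
# Block US, item Vm: van der Corput for `k + 3` linear forms
-/

set_option autoImplicit false

namespace Pool.Agent.US

open Pool.Agent.U3
open scoped ComplexConjugate

namespace IVm

/-- The statement for a given number of forms. -/
def P (k : ℕ) : Prop :=
  ∀ (L : Fin (k + 3) → ℤ × ℤ), (∀ i j, i ≠ j → dt (L i) (L j) ≠ 0) →
    ∀ T : ℕ, (∑ i, sz (L i)) ≤ T → ∀ δ : ℝ, 0 < δ → ∃ δ' : ℝ, 0 < δ' ∧ ∀ N : ℕ, 1 ≤ N →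
      ∀ F : Fin (k + 3) → ℤ → ℂ, (∀ i, Bdd N (F i)) →
        δ * (N : ℝ) ^ 2 ≤ ‖∑ v ∈ bx (T * N), ∏ i, F i (lf (L i) v)‖ →
        ∃ R : Finset (Fin k → ℤ), (∀ r ∈ R, ∀ i, |r i| ≤ N) ∧ δ' * (N : ℝ) ^ k ≤ R.card ∧
          ∀ r ∈ R, ∃ a : ℝ, δ' * N ≤ ‖∑ n ∈ Finset.Icc (-(N : ℤ)) N,
            DK k (F (Fin.last (k + 2)))
              (fun i => dt (L (Fin.last (k + 2))) (L (Fin.castLE (by omega) i)) * r i) n *
                ee (-(a * n))‖

theorem base (h3 : StThr) : P 0 := by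
  intro L hL T hT δ hδ
  have h01 : dt (L 0) (L 1) ≠ 0 := hL 0 1 (by decide)
  have h02 : dt (L 0) (L 2) ≠ 0 := hL 0 2 (by decide)
  have h12 : dt (L 1) (L 2) ≠ 0 := hL 1 2 (by decide)
  have hT' : sz (L 0) + sz (L 1) + sz (L 2) ≤ T := by
    have h := hT
    rw [Fin.sum_univ_three] at h
    exact h
  obtain ⟨δ1, hδ1, H⟩ := h3 (L 0) (L 1) (L 2) h01 h02 h12 T hT' δ hδ
  refine ⟨min 1 δ1, lt_min one_pos hδ1, fun N hN F hF hsum => ?_⟩
  obtain ⟨a, ha⟩ := H N hN (F 0) (F 1) (F 2) (hF 0) (hF 1) (hF 2) (by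
    refine hsum.trans (le_of_eq ?_)
    congr 1
    refine Finset.sum_congr rfl fun v _ => ?_
    rw [Fin.prod_univ_three])
  refine ⟨{fun i => 0}, ?_, ?_, ?_⟩
  · intro r _ i
    exact Fin.elim0 i
  · rw [Finset.card_singleton, pow_zero, mul_one]
    exact_mod_cast min_le_left _ _
  · intro r _
    refine ⟨a, le_trans ?_ ha⟩
    exact mul_le_mul_of_nonneg_right (min_le_right _ _) (by positivity)

theorem cons_card {k : ℕ} (D : Finset ℤ) (Rf : ℤ → Finset (Fin k → ℤ)) (c : ℝ)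
    (h : ∀ d ∈ D, c ≤ (Rf d).card) :
    D.card * c ≤ ((((D.sigma Rf).image
      (fun p => (Fin.cons p.1 p.2 : Fin (k + 1) → ℤ))).card : ℕ) : ℝ) := by
  classical
  rw [Finset.card_image_of_injective, Finset.card_sigma, Nat.cast_sum]
  · rw [← nsmul_eq_mul]
    exact Finset.card_nsmul_le_sum _ _ _ h
  · rintro ⟨a, x⟩ ⟨b, y⟩ hab
    simp only at hab
    have h1 := congrFun hab 0
    simp only [Fin.cons_zero] at h1
    subst h1
    have h2 : x = y := by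
      funext i
      have := congrFun hab i.succ
      simpa only [Fin.cons_succ] using this
    rw [h2]

theorem step (h1 : StCS2) (h2 : StSup) (k : ℕ) (ih : P k) : P (k + 1) := by
  classical
  obtain ⟨hs1, hs2, hs3, hs4, hs5, -, -⟩ := h2
  intro L hL T hT δ hδ
  have hsum0 : sz (L 0) + ∑ i : Fin (k + 3), sz (L i.succ) ≤ T := by
    have h := hT
    rw [Fin.sum_univ_succ] at h
    exact h
  have hsum12 : sz (L (Fin.succ 0)) + sz (L (Fin.succ 1)) ≤ ∑ i : Fin (k + 3), sz (L i.succ) := by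
    rw [Fin.sum_univ_succ, Fin.sum_univ_succ]
    have e : (Fin.succ 0 : Fin (k + 3)) = 1 := rfl
    rw [e]
    omega
  have h12 : dt (L (Fin.succ 0)) (L (Fin.succ 1)) ≠ 0 := by
    refine hL _ _ ?_
    intro h
    have := Fin.succ_injective _ h
    simp at this
  have hT1 : 1 ≤ T := by
    have := IVN.sz_pos h12
    omega
  have hTr : (1 : ℝ) ≤ T := by exact_mod_cast hT1
  set δ2 : ℝ := δ ^ 2 / (450 * (T : ℝ) ^ 4) with hδ2
  have hδ2p : 0 < δ2 := by positivity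
  obtain ⟨δ3, hδ3, H3⟩ := ih (fun i => L i.succ)
    (fun i j hij => hL _ _ fun h => hij (Fin.succ_injective _ h)) T (by omega) δ2 hδ2p
  refine ⟨min (δ2 * δ3) δ3, lt_min (by positivity) hδ3, ?_⟩
  intro N hN1 f hf hsum
  have hNr : (1 : ℝ) ≤ N := by exact_mod_cast hN1
  set e : ℤ × ℤ := pp (L 0) with he
  set φ : ℤ × ℤ → ℂ := fun v => f 0 (lf (L 0) v) with hφ
  set F : ℤ × ℤ → ℂ := fun v => ∏ i : Fin (k + 3), f i.succ (lf (L i.succ) v) with hF
  have hlf : ∀ (l v : ℤ × ℤ) (d : ℤ), lf l (v + d • e) = lf l v + dt l (L 0) * d := by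
    intro l v d
    rw [hs3, hs4, he, hs2]; ring
  have hFn : ∀ v, ‖F v‖ ≤ 1 := by
    intro v
    rw [hF]
    show ‖∏ i : Fin (k + 3), f i.succ (lf (L i.succ) v)‖ ≤ 1
    rw [norm_prod]
    exact Finset.prod_le_one (fun _ _ => norm_nonneg _) fun i _ => (hf i.succ _).1
  have hFs : ∀ v, v ∉ bx ((T : ℤ) * N) → F v = 0 := by
    intro v hv
    by_contra hne
    apply hv
    have hne' : ∏ i : Fin (k + 3), f i.succ (lf (L i.succ) v) ≠ 0 := hne
    rw [Finset.prod_ne_zero_iff] at hne'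
    have n1 := hne' 0 (Finset.mem_univ _)
    have n2 := hne' 1 (Finset.mem_univ _)
    have m1 : |lf (L (Fin.succ 0)) v| ≤ (N : ℤ) := by
      by_contra h; exact n1 ((hf _ _).2 (not_le.1 h))
    have m2 : |lf (L (Fin.succ 1)) v| ≤ (N : ℤ) := by
      by_contra h; exact n2 ((hf _ _).2 (not_le.1 h))
    have := hs5 (L (Fin.succ 0)) (L (Fin.succ 1)) v N h12 m1 m2
    refine IVN.bx_mono ?_ this
    have hc : ((sz (L (Fin.succ 0)) : ℤ) + sz (L (Fin.succ 1))) ≤ T := by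
      exact_mod_cast (by omega : sz (L (Fin.succ 0)) + sz (L (Fin.succ 1)) ≤ T)
    have hNz : (0 : ℤ) ≤ N := by positivity
    nlinarith
  have hTN0 : (0 : ℤ) ≤ (T : ℤ) * N := by positivity
  have hq1 : |(L 0).1| ≤ T := by
    have : (L 0).1.natAbs ≤ T := by
      have : sz (L 0) = (L 0).1.natAbs + (L 0).2.natAbs := rfl
      omega
    rw [Int.abs_eq_natAbs]; exact_mod_cast this
  have hq2 : |(L 0).2| ≤ T := by
    have : (L 0).2.natAbs ≤ T := by
      have : sz (L 0) = (L 0).1.natAbs + (L 0).2.natAbs := rfl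
      omega
    rw [Int.abs_eq_natAbs]; exact_mod_cast this
  have hNz : (0 : ℤ) ≤ N := by positivity
  have he1 : |e.1| * (N : ℤ) ≤ (T : ℤ) * N := by
    have : e.1 = (L 0).2 := by simp [he, pp]
    rw [this]
    exact mul_le_mul_of_nonneg_right hq2 hNz
  have he2 : |e.2| * (N : ℤ) ≤ (T : ℤ) * N := by
    have : e.2 = -(L 0).1 := by simp [he, pp]
    rw [this, abs_neg]
    exact mul_le_mul_of_nonneg_right hq1 hNz
  have hcs := h1 ((T : ℤ) * N) N e φ F hTN0 hN1 he1 he2 (fun v => (hf 0 _).1)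
    (by
      intro v
      simp only [hφ]
      have := hlf (L 0) v 1
      rw [one_smul] at this
      rw [this]
      have h0 : dt (L 0) (L 0) = 0 := by unfold dt; ring
      rw [h0]; simp) hFs
  have hprod : ∑ v ∈ bx ((T : ℤ) * N), φ v * F v =
      ∑ v ∈ bx ((T : ℤ) * N), ∏ i, f i (lf (L i) v) := by
    apply Finset.sum_congr rfl
    intro v _
    rw [Fin.prod_univ_succ]
  rw [hprod] at hcs
  set E : ℤ → ℝ := fun d => ‖∑ v ∈ bx ((T : ℤ) * N), F (v + d • e) * conj (F v)‖ with hE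
  have hTNr : (1 : ℝ) ≤ (T : ℝ) * N := by nlinarith
  have hEle : ∀ d, E d ≤ 9 * (T : ℝ) ^ 2 * (N : ℝ) ^ 2 := by
    intro d
    calc E d ≤ ∑ v ∈ bx ((T : ℤ) * N), ‖F (v + d • e) * conj (F v)‖ := norm_sum_le _ _
      _ ≤ ∑ v ∈ bx ((T : ℤ) * N), (1 : ℝ) := by
        apply Finset.sum_le_sum
        intro v _
        rw [norm_mul, IVN.norm_conj]
        have a1 := hFn (v + d • e)
        have a2 := hFn v
        have b1 := norm_nonneg (F (v + d • e))
        have b2 := norm_nonneg (F v)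
        nlinarith
      _ = (2 * ((T : ℝ) * N) + 1) ^ 2 := by
        rw [Finset.sum_const, nsmul_eq_mul, mul_one, IVN.card_bx _ hTN0]; push_cast; ring
      _ ≤ (3 * ((T : ℝ) * N)) ^ 2 := by
        apply pow_le_pow_left₀ (by positivity); linarith
      _ = _ := by ring
  have hδN : δ ^ 2 * (N : ℝ) ^ 4 ≤ ‖∑ v ∈ bx ((T : ℤ) * N), ∏ i, f i (lf (L i) v)‖ ^ 2 := by
    have := pow_le_pow_left₀ (by positivity) hsum 2
    calc δ ^ 2 * (N : ℝ) ^ 4 = (δ * (N : ℝ) ^ 2) ^ 2 := by ring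
      _ ≤ _ := this
  have hlow : (N : ℝ) * (δ ^ 2 * (N : ℝ) ^ 2 / (25 * (T : ℝ) ^ 2)) ≤
      ∑ d ∈ Finset.Icc (-(N : ℤ)) N, E d := by
    have hEs : 0 ≤ ∑ d ∈ Finset.Icc (-(N : ℤ)) N, E d :=
      Finset.sum_nonneg (fun d _ => norm_nonneg _)
    have k1 : (N : ℝ) * (δ ^ 2 * (N : ℝ) ^ 4) ≤
        (25 * (T : ℝ) ^ 2 * (N : ℝ) ^ 2) * ∑ d ∈ Finset.Icc (-(N : ℤ)) N, E d := by
      calc (N : ℝ) * (δ ^ 2 * (N : ℝ) ^ 4) ≤ (N : ℝ) *
            ‖∑ v ∈ bx ((T : ℤ) * N), ∏ i, f i (lf (L i) v)‖ ^ 2 := by gcongr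
        _ ≤ _ := hcs
        _ ≤ _ := by
          apply mul_le_mul_of_nonneg_right _ hEs
          push_cast
          calc (4 * ((T : ℝ) * N) + 1) ^ 2 ≤ (5 * ((T : ℝ) * N)) ^ 2 := by
                apply pow_le_pow_left₀ (by positivity); linarith
            _ = _ := by ring
    have hp : (0 : ℝ) < 25 * (T : ℝ) ^ 2 * (N : ℝ) ^ 2 := by positivity
    rw [← mul_le_mul_iff_right₀ hp]
    refine le_trans (le_of_eq ?_) k1
    field_simp
  have hcount := IVN.count N hN1 E (9 * (T : ℝ) ^ 2 * (N : ℝ) ^ 2)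
    (δ ^ 2 * (N : ℝ) ^ 2 / (25 * (T : ℝ) ^ 2)) (δ2 * (N : ℝ) ^ 2) (by positivity) (by positivity)
    hEle hlow
  set D : Finset ℤ := (Finset.Icc (-(N : ℤ)) N).filter (fun d => δ2 * (N : ℝ) ^ 2 ≤ E d) with hD
  have hRc : δ2 * N ≤ D.card := by
    have hT2 : (1 : ℝ) ≤ (T : ℝ) ^ 2 := one_le_pow₀ hTr
    have e1 : δ ^ 2 = 450 * (T : ℝ) ^ 4 * δ2 := by
      rw [hδ2]; field_simp
    have e2 : δ ^ 2 * (N : ℝ) ^ 2 / (25 * (T : ℝ) ^ 2) = 18 * (T : ℝ) ^ 2 * δ2 * (N : ℝ) ^ 2 := by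
      rw [e1]; field_simp; norm_num
    rw [e2] at hcount
    have hp : (0 : ℝ) < 9 * (T : ℝ) ^ 2 * (N : ℝ) ^ 2 := by positivity
    have k2 : (9 * (T : ℝ) ^ 2 * (N : ℝ) ^ 2) * (δ2 * N) ≤
        (9 * (T : ℝ) ^ 2 * (N : ℝ) ^ 2) * D.card := by
      refine le_trans ?_ hcount
      have : 0 ≤ (N : ℝ) * δ2 * (N : ℝ) ^ 2 := by positivity
      nlinarith [mul_le_mul_of_nonneg_left hT2 this]
    exact le_of_mul_le_mul_left k2 hp
  have hex : ∀ d : ℤ, ∃ R : Finset (Fin k → ℤ), d ∈ D → (∀ r ∈ R, ∀ i, |r i| ≤ N) ∧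
      δ3 * (N : ℝ) ^ k ≤ R.card ∧
      ∀ r ∈ R, ∃ a : ℝ, δ3 * N ≤ ‖∑ n ∈ Finset.Icc (-(N : ℤ)) N,
        DK k (D1 (dt (L (Fin.last (k + 3))) (L 0) * d) (f (Fin.last (k + 3))))
          (fun i => dt (L (Fin.last (k + 3))) (L (Fin.succ (Fin.castLE (by omega) i))) * r i) n *
            ee (-(a * n))‖ := by
    intro d
    by_cases hd : d ∈ D
    · have hd' := (Finset.mem_filter.1 hd).2
      obtain ⟨R, hR1, hR2, hR3⟩ := H3 N hN1
        (fun i => D1 (dt (L i.succ) (L 0) * d) (f i.succ))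
        (fun i => IVN.bdd_D (hf i.succ) _)
        (by
          refine le_trans hd' (le_of_eq ?_)
          simp only [hE]
          congr 1
          apply Finset.sum_congr rfl
          intro v _
          simp only [hF, D1]
          rw [map_prod, ← Finset.prod_mul_distrib]
          refine Finset.prod_congr rfl fun i _ => ?_
          rw [hlf])
      exact ⟨R, fun _ => ⟨hR1, hR2, hR3⟩⟩
    · exact ⟨∅, fun h => absurd h hd⟩
  choose Rf hRf using hex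
  refine ⟨(D.sigma Rf).image (fun p => (Fin.cons p.1 p.2 : Fin (k + 1) → ℤ)), ?_, ?_, ?_⟩
  · intro r hr i
    obtain ⟨⟨d, r'⟩, hp, rfl⟩ := Finset.mem_image.1 hr
    rw [Finset.mem_sigma] at hp
    obtain ⟨hd, hr'⟩ := hp
    refine Fin.cases ?_ (fun i => ?_) i
    · simp only [Fin.cons_zero]
      have h := (Finset.mem_filter.1 hd).1
      rw [Finset.mem_Icc] at h
      exact abs_le.2 h
    · simp only [Fin.cons_succ]
      exact (hRf d hd).1 r' hr' i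
  · refine le_trans ?_ (cons_card D Rf (δ3 * (N : ℝ) ^ k) fun d hd => (hRf d hd).2.1)
    calc min (δ2 * δ3) δ3 * (N : ℝ) ^ (k + 1) ≤ δ2 * δ3 * (N : ℝ) ^ (k + 1) :=
          mul_le_mul_of_nonneg_right (min_le_left _ _) (by positivity)
      _ = (δ2 * N) * (δ3 * (N : ℝ) ^ k) := by ring
      _ ≤ D.card * (δ3 * (N : ℝ) ^ k) := mul_le_mul_of_nonneg_right hRc (by positivity)
  · intro r hr
    obtain ⟨⟨d, r'⟩, hp, rfl⟩ := Finset.mem_image.1 hr
    rw [Finset.mem_sigma] at hp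
    obtain ⟨hd, hr'⟩ := hp
    obtain ⟨a, ha⟩ := (hRf d hd).2.2 r' hr'
    refine ⟨a, le_trans (mul_le_mul_of_nonneg_right (min_le_right _ _) (by positivity))
      (ha.trans (le_of_eq ?_))⟩
    congr 1

theorem all (h1 : StCS2) (h2 : StSup) (h3 : StThr) : ∀ k, P k := by
  intro k
  induction k with
  | zero => exact base h3
  | succ k ih => exact step h1 h2 k ih

end IVm

theorem us_Vm : StVm := fun k => IVm.all u_CS2 u_Sup u_Thr k

end Pool.Agent.US
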