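import Pool.Agent.Work.MP_0f91f8_co.US.Stmts
import Pool.Agent.Work.MP_0f91f8_co.U3.All

/-!
# Block US, item Win: positive definiteness in one coordinate, averaged over windows
-/

set_option autoImplicit false

namespace Pool.Agent.US

open Pool.Agent.U3
open scoped ComplexConjugate Classical

namespace IWin

theorem cor_eq (G : ℤ → ℂ) (A B : ℤ) (hG : Sp G A B) (h : ℤ) (a : ℝ) :
    ∑ n ∈ Finset.Icc A B, D1 h G n * ee (-(a * n)) = cor G A B h a := by
  unfold cor D1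
  refine Finset.sum_congr rfl fun n _ => ?_
  by_cases h1 : n + h ∈ Finset.Icc A B
  · rw [if_pos h1]
  · rw [if_neg h1, hG.2 _ h1, zero_mul, zero_mul]

theorem SS_nonneg (G : ℤ → ℂ) (A B h : ℤ) (a : ℝ) : 0 ≤ SS G A B h a := sq_nonneg _

/-- for a fixed `v` every `r` comes from exactly one `x` -/
theorem shift (X D t : ℕ) (R : Finset ℤ) (hR : ∀ r ∈ R, |r| ≤ X) (v : ℤ)
    (hv : v ∈ Finset.Icc (0 : ℤ) D) (F : ℤ → ℝ) :
    ∑ x ∈ Finset.Icc (-(X : ℤ) - t * D) X, (if x + t * v ∈ R then F (x + t * v) else 0) =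
      ∑ r ∈ R, F r := by
  rw [← Finset.sum_filter]
  rw [Finset.mem_Icc] at hv
  refine Finset.sum_bij (fun x _ => x + t * v) ?_ ?_ ?_ ?_
  · intro x hx
    exact (Finset.mem_filter.1 hx).2
  · intro x _ y _ hxy
    exact add_right_cancel hxy
  · intro r hr
    have h3 := abs_le.1 (hR r hr)
    have h5 : (0 : ℤ) ≤ t * v := mul_nonneg (Int.natCast_nonneg t) hv.1
    have h6 : (t : ℤ) * v ≤ t * D := mul_le_mul_of_nonneg_left hv.2 (Int.natCast_nonneg t)
    refine ⟨r - t * v, ?_, by ring⟩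
    rw [Finset.mem_filter, Finset.mem_Icc]
    refine ⟨⟨by linarith [h3.1], by linarith [h3.2]⟩, ?_⟩
    rw [sub_add_cancel]
    exact hr
  · intro x _
    rfl

/-- for a fixed `v'` the differences -/
theorem diff (D t : ℕ) (R : Finset ℤ) (v' : ℤ) (hv : v' ∈ Finset.Icc (0 : ℤ) D) (r : ℤ)
    (T : ℤ → ℤ → ℝ) (hT : ∀ d r, 0 ≤ T d r) :
    ∑ v ∈ Finset.Icc (0 : ℤ) D, (if r + t * (v - v') ∈ R then T (v - v') r else 0) ≤
      ∑ d ∈ Finset.Icc (-(D : ℤ)) D, (if r + t * d ∈ R then T d r else 0) := by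
  rw [Finset.mem_Icc] at hv
  have h1 : ∑ v ∈ Finset.Icc (0 : ℤ) D, (if r + t * (v - v') ∈ R then T (v - v') r else 0) =
      ∑ d ∈ (Finset.Icc (0 : ℤ) D).image (fun v => v - v'),
        (if r + t * d ∈ R then T d r else 0) := by
    rw [Finset.sum_image]
    intro x _ y _ hxy
    exact sub_left_injective hxy
  rw [h1]
  refine Finset.sum_le_sum_of_subset_of_nonneg ?_ ?_
  · intro d hd
    obtain ⟨v, hv2, rfl⟩ := Finset.mem_image.1 hd
    rw [Finset.mem_Icc] at hv2 ⊢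
    constructor <;> linarith [hv.1, hv.2, hv2.1, hv2.2]
  · intro d _ _
    split_ifs
    · exact hT d r
    · exact le_rfl

theorem sumG (G : ℤ → ℂ) (A B : ℤ) (Z : ℝ) (hG : Sp G A B) (hZ : (B - A + 1 : ℝ) ≤ Z)
    (hZ0 : 0 ≤ Z) : ∑ n ∈ Finset.Icc A B, ‖G n‖ ^ 2 ≤ Z := by
  have h1 : ∑ n ∈ Finset.Icc A B, ‖G n‖ ^ 2 ≤ ((Finset.Icc A B).card : ℝ) := by
    rw [Finset.card_eq_sum_ones]
    push_cast
    refine Finset.sum_le_sum fun n _ => ?_
    exact pow_le_one₀ (norm_nonneg _) (hG.1 n)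
  refine h1.trans ?_
  rw [Int.card_Icc]
  by_cases h2 : 0 ≤ B + 1 - A
  · have h3 : (((B + 1 - A).toNat : ℕ) : ℝ) = (B : ℝ) - A + 1 := by
      have h4 : (((B + 1 - A).toNat : ℤ)) = B + 1 - A := Int.toNat_of_nonneg h2
      have h5 : (((B + 1 - A).toNat : ℤ) : ℝ) = ((B + 1 - A : ℤ) : ℝ) := by rw [h4]
      push_cast at h5
      rw [h5]
      ring
    rw [h3]
    exact hZ
  · rw [Int.toNat_of_nonpos (by linarith), Nat.cast_zero]
    exact hZ0

end IWin

open IWin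

/-- Item Win. -/
theorem us_Win : StWin := by
  have hPD : StPD := u_PD
  intro G A B Z hG hZ hZ0 X D t b g R w hX ht htD hR
  have e1 : ∀ (h : ℤ) (a : ℝ), ‖∑ n ∈ Finset.Icc A B, D1 h G n * ee (-(a * n))‖ ^ 2 =
      SS G A B h a := by
    intro h a
    rw [cor_eq G A B hG h a]
    rfl
  simp only [e1]
  -- the two summands
  obtain ⟨s, hs⟩ : ∃ s : ℤ → ℝ, s = fun r => SS G A B (b + g * r) (w r) := ⟨_, rfl⟩
  obtain ⟨T, hT⟩ : ∃ T : ℤ → ℤ → ℝ, T = fun d r => SS G A B (t * g * d) (w (r + t * d) - w r) :=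
    ⟨_, rfl⟩
  have hs1 : ∀ r, SS G A B (b + g * r) (w r) = s r := fun r => by rw [hs]
  have hT1 : ∀ d r, SS G A B (t * g * d) (w (r + t * d) - w r) = T d r := fun d r => by rw [hT]
  simp only [hs1, hT1]
  have hT0 : ∀ d r, 0 ≤ T d r := fun d r => by rw [← hT1]; exact SS_nonneg _ _ _ _ _
  obtain ⟨V, hV⟩ : ∃ V : Finset ℤ, V = Finset.Icc (0 : ℤ) D := ⟨_, rfl⟩
  obtain ⟨I, hI⟩ : ∃ I : Finset ℤ, I = Finset.Icc (-(X : ℤ) - t * D) X := ⟨_, rfl⟩
  have hVc : (V.card : ℝ) = D + 1 := by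
    rw [hV, Int.card_Icc]
    have : ((D : ℤ) + 1 - 0).toNat = D + 1 := by omega
    rw [this]
    push_cast
    ring
  have hIc : (I.card : ℝ) ≤ 4 * X := by
    have h3 : I.card ≤ 4 * X := by
      rw [hI, Int.card_Icc]
      have h4 : (t : ℤ) * D ≤ X := by exact_mod_cast htD
      omega
    exact_mod_cast h3
  -- one window
  have hwin : ∀ x : ℤ, (∑ v ∈ V, if x + t * v ∈ R then s (x + t * v) else 0) ^ 2 ≤
      Z ^ 2 * ∑ v' ∈ V, (if x + t * v' ∈ R then
        ∑ v ∈ V, (if (x + t * v') + t * (v - v') ∈ R then T (v - v') (x + t * v') else 0)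
          else 0) := by
    intro x
    have h1 := hPD G A B ℤ (V.filter (fun v => x + t * v ∈ R)) (fun v => b + g * (x + t * v))
      (fun v => w (x + t * v))
    simp only [hs1] at h1
    rw [Finset.sum_filter] at h1
    refine h1.trans ?_
    have h2 : (∑ n ∈ Finset.Icc A B, ‖G n‖ ^ 2) ^ 2 ≤ Z ^ 2 :=
      pow_le_pow_left₀ (Finset.sum_nonneg fun n _ => sq_nonneg _) (sumG G A B Z hG hZ hZ0) 2
    have h3 : ∑ v ∈ V.filter (fun v => x + t * v ∈ R), ∑ v' ∈ V.filter (fun v => x + t * v ∈ R),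
        SS G A B (b + g * (x + t * v) - (b + g * (x + t * v')))
          (w (x + t * v) - w (x + t * v')) =
        ∑ v' ∈ V, (if x + t * v' ∈ R then
          ∑ v ∈ V, (if (x + t * v') + t * (v - v') ∈ R then T (v - v') (x + t * v') else 0)
            else 0) := by
      rw [Finset.sum_comm, Finset.sum_filter]
      refine Finset.sum_congr rfl fun v' _ => ?_
      by_cases h4 : x + t * v' ∈ R
      · rw [if_pos h4, if_pos h4, Finset.sum_filter]
        refine Finset.sum_congr rfl fun v _ => ?_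
        have h5 : (x + t * v') + t * (v - v') = x + t * v := by ring
        rw [h5]
        by_cases h6 : x + t * v ∈ R
        · rw [if_pos h6, if_pos h6, ← hT1, h5]
          congr 1
          ring
        · rw [if_neg h6, if_neg h6]
      · rw [if_neg h4, if_neg h4]
    rw [h3]
    have h7 : 0 ≤ ∑ v' ∈ V, (if x + t * v' ∈ R then
          ∑ v ∈ V, (if (x + t * v') + t * (v - v') ∈ R then T (v - v') (x + t * v') else 0)
            else 0) := by
      rw [← h3]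
      exact Finset.sum_nonneg fun v _ => Finset.sum_nonneg fun v' _ => SS_nonneg _ _ _ _ _
    exact mul_le_mul_of_nonneg_right h2 h7
  -- the first sum over the windows
  have hfst : ∑ x ∈ I, ∑ v ∈ V, (if x + t * v ∈ R then s (x + t * v) else 0) =
      ((D : ℝ) + 1) * ∑ r ∈ R, s r := by
    rw [Finset.sum_comm]
    have h1 : ∀ v ∈ V, ∑ x ∈ I, (if x + t * v ∈ R then s (x + t * v) else 0) = ∑ r ∈ R, s r := by
      intro v hv
      rw [hI]
      rw [hV] at hv
      exact shift X D t R hR v hv s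
    rw [Finset.sum_congr rfl h1, Finset.sum_const, nsmul_eq_mul, hVc]
  -- the second sum over the windows
  have hsnd : ∑ x ∈ I, ∑ v' ∈ V, (if x + t * v' ∈ R then
        ∑ v ∈ V, (if (x + t * v') + t * (v - v') ∈ R then T (v - v') (x + t * v') else 0)
          else 0) ≤ ((D : ℝ) + 1) * ∑ d ∈ Finset.Icc (-(D : ℤ)) D,
            ∑ r ∈ R.filter (fun r => r + t * d ∈ R), T d r := by
    rw [Finset.sum_comm]
    have h1 : ∀ v' ∈ V, ∑ x ∈ I, (if x + t * v' ∈ R then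
        ∑ v ∈ V, (if (x + t * v') + t * (v - v') ∈ R then T (v - v') (x + t * v') else 0)
          else 0) ≤ ∑ d ∈ Finset.Icc (-(D : ℤ)) D,
            ∑ r ∈ R.filter (fun r => r + t * d ∈ R), T d r := by
      intro v' hv'
      rw [hV] at hv'
      have h2 := shift X D t R hR v' hv' (fun r =>
        ∑ v ∈ V, (if r + t * (v - v') ∈ R then T (v - v') r else 0))
      rw [hI, h2]
      have h3 : ∑ d ∈ Finset.Icc (-(D : ℤ)) D, ∑ r ∈ R.filter (fun r => r + t * d ∈ R), T d r =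
          ∑ r ∈ R, ∑ d ∈ Finset.Icc (-(D : ℤ)) D, (if r + t * d ∈ R then T d r else 0) := by
        rw [Finset.sum_comm]
        refine Finset.sum_congr rfl fun d _ => ?_
        rw [Finset.sum_filter]
      rw [h3]
      refine Finset.sum_le_sum fun r _ => ?_
      rw [hV]
      exact diff D t R v' hv' r T hT0
    refine (Finset.sum_le_sum h1).trans (le_of_eq ?_)
    rw [Finset.sum_const, nsmul_eq_mul, hVc]
  -- conclusion
  have hD1 : (0 : ℝ) < (D : ℝ) + 1 := by positivity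
  have hfin : (((D : ℝ) + 1) * ∑ r ∈ R, s r) ^ 2 ≤ 4 * X * (Z ^ 2 * (((D : ℝ) + 1) *
      ∑ d ∈ Finset.Icc (-(D : ℤ)) D, ∑ r ∈ R.filter (fun r => r + t * d ∈ R), T d r)) := by
    rw [← hfst]
    calc (∑ x ∈ I, ∑ v ∈ V, (if x + t * v ∈ R then s (x + t * v) else 0)) ^ 2
        ≤ (I.card : ℝ) * ∑ x ∈ I,
          (∑ v ∈ V, (if x + t * v ∈ R then s (x + t * v) else 0)) ^ 2 := sq_sum_le_card_mul_sum_sq
      _ ≤ 4 * X * ∑ x ∈ I, (∑ v ∈ V, (if x + t * v ∈ R then s (x + t * v) else 0)) ^ 2 :=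
        mul_le_mul_of_nonneg_right hIc (Finset.sum_nonneg fun x _ => sq_nonneg _)
      _ ≤ 4 * X * ∑ x ∈ I, Z ^ 2 * ∑ v' ∈ V, (if x + t * v' ∈ R then
          ∑ v ∈ V, (if (x + t * v') + t * (v - v') ∈ R then T (v - v') (x + t * v') else 0)
            else 0) :=
        mul_le_mul_of_nonneg_left (Finset.sum_le_sum fun x _ => hwin x) (by positivity)
      _ ≤ _ := by
        rw [← Finset.mul_sum]
        exact mul_le_mul_of_nonneg_left (mul_le_mul_of_nonneg_left hsnd (sq_nonneg _))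
          (by positivity)
  have h8 : ((D : ℝ) + 1) * (((D : ℝ) + 1) * (∑ r ∈ R, s r) ^ 2) ≤ ((D : ℝ) + 1) *
      (4 * X * Z ^ 2 * ∑ d ∈ Finset.Icc (-(D : ℤ)) D,
        ∑ r ∈ R.filter (fun r => r + t * d ∈ R), T d r) := by
    calc ((D : ℝ) + 1) * (((D : ℝ) + 1) * (∑ r ∈ R, s r) ^ 2)
        = (((D : ℝ) + 1) * ∑ r ∈ R, s r) ^ 2 := by ring
      _ ≤ _ := hfin
      _ = _ := by ring
  exact le_of_mul_le_mul_left h8 hD1

end Pool.Agent.US
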