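import Pool.Agent.Work.MP_0f91f8_co.US.I_Bas
import Pool.Agent.Work.MP_0f91f8_co.US.I_Dil
import Pool.Agent.Work.MP_0f91f8_co.US.I_Win
import Pool.Agent.Work.MP_0f91f8_co.US.I_PDk
import Pool.Agent.Work.MP_0f91f8_co.US.I_Clo
import Pool.Agent.Work.MP_0f91f8_co.US.I_Sel
import Pool.Agent.Work.MP_0f91f8_co.US.I_Cov
import Pool.Agent.Work.MP_0f91f8_co.US.I_Cub
import Pool.Agent.Work.MP_0f91f8_co.US.I_Inv
import Pool.Agent.Work.MP_0f91f8_co.US.I_Can
import Pool.Agent.Work.MP_0f91f8_co.US.I_Rel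
import Pool.Agent.Work.MP_0f91f8_co.US.I_St0
import Pool.Agent.Work.MP_0f91f8_co.US.I_Bad
import Pool.Agent.Work.MP_0f91f8_co.US.I_Cnt
import Pool.Agent.Work.MP_0f91f8_co.US.I_One
import Pool.Agent.Work.MP_0f91f8_co.US.I_Mn
import Pool.Agent.Work.MP_0f91f8_co.US.I_Pig
import Pool.Agent.Work.MP_0f91f8_co.US.I_Red
import Pool.Agent.Work.MP_0f91f8_co.US.I_Ak0
import Pool.Agent.Work.MP_0f91f8_co.US.I_UU
import Pool.Agent.Work.MP_0f91f8_co.US.I_Vm
import Pool.Agent.Work.MP_0f91f8_co.US.I_TT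

/-!
# Block US: assembly.  THEOREM U: an aperiodic completely multiplicative function is uniform of
every order.  THEOREM T: its correlations with `m` arbitrary bounded functions along `m + 1`
pairwise independent linear forms tend to zero.
-/

set_option autoImplicit false

namespace Pool.Agent.US

theorem us_all_PDk : StPDk := us_PDk us_Bas us_Win

theorem us_all_Rel : StRel := us_Rel us_Inv us_Can

theorem us_all_One : StOne := us_One (us_Clo us_Bas) us_Cov us_Cub us_all_Rel us_Bas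

theorem us_all_Mn : StMn :=
  us_Mn (us_St0 us_all_PDk us_Bas) (us_Bad us_Bas us_Dil) us_Sel us_all_PDk us_Cnt us_all_One us_Bas

/-- THEOREM U -/
theorem us_U : StU := us_UU us_all_Mn (us_Pig us_Bas) (us_Red us_Bas) us_Ak0

/-- THEOREM T -/
theorem us_T : StT := us_TT us_U us_Vm us_Bas

end Pool.Agent.US
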