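import Pool.Agent.Work.MP_0f91f8_co.U3.Defs

/-!
# Block US: aperiodic completely multiplicative functions are uniform of EVERY order
(definitions and the two theorems of the block)

Elementary: positive definiteness of `|correlation|^2`, Turán-Kubilius, and a `2^k`-dimensional
cube over which all frequencies cancel.  Notation of `U3/Defs.lean` (`ee nd CM Aper lf dt sz bx
Bdd cl`).
-/

set_option autoImplicit false

namespace Pool.Agent.US

open Pool.Agent.U3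
open scoped ComplexConjugate

/-- multiplicative derivative -/
def D1 (h : ℤ) (F : ℤ → ℂ) : ℤ → ℂ := fun n => F (n + h) * conj (F n)

/-- iterated multiplicative derivative -/
def DK : (k : ℕ) → (ℤ → ℂ) → (Fin k → ℤ) → ℤ → ℂ
  | 0, F, _ => F
  | k + 1, F, h => DK k (D1 (h 0) F) (Fin.tail h)

/-- the function cut to an interval -/
noncomputable def ct (F : ℤ → ℂ) (A B : ℤ) : ℤ → ℂ := fun n => if n ∈ Finset.Icc A B then F n else 0

/-- Fourier coefficient of an iterated derivative -/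
noncomputable def CK (k : ℕ) (F : ℤ → ℂ) (A B : ℤ) (h : Fin k → ℤ) (a : ℝ) : ℂ :=
  ∑ n ∈ Finset.Icc A B, DK k F h n * ee (-(a * n))

/-- bounded by one and supported in `[A,B]` -/
def Sp (F : ℤ → ℂ) (A B : ℤ) : Prop := (∀ n, ‖F n‖ ≤ 1) ∧ ∀ n, n ∉ Finset.Icc A B → F n = 0

/-- the box `[-X,X]^k` -/
noncomputable def bk (k : ℕ) (X : ℕ) : Finset (Fin k → ℤ) := Fintype.piFinset fun _ => Finset.Icc (-(X : ℤ)) X

/-- the corner `s` of the parallelepiped with base point `r` and sides `t d i` -/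
def cn {k : ℕ} (t : ℤ) (r d : Fin k → ℤ) (s : Fin k → Bool) : Fin k → ℤ :=
  fun i => r i + if s i then t * d i else 0

/-- the sign of a corner -/
def sg {k : ℕ} (s : Fin k → Bool) : ℝ := ∏ i, if s i then 1 else -1

/-- alternating sum of `w` over the corners -/
noncomputable def al {k : ℕ} (w : (Fin k → ℤ) → ℝ) (t : ℤ) (r d : Fin k → ℤ) : ℝ :=
  ∑ s : Fin k → Bool, sg s * w (cn t r d s)

/-- uniformity of order `k + 2` of `f` on all intervals, all steps `H` -/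
def Ak (f : ℤ → ℂ) (k : ℕ) : Prop :=
  ∀ H : Fin k → ℤ, (∀ i, H i ≠ 0) → ∀ δ : ℝ, 0 < δ → ∃ N0 : ℕ, ∀ N : ℕ, N0 ≤ N →
    ∀ A B : ℤ, -(N : ℤ) ≤ A → B ≤ N → ∀ R : Finset (Fin k → ℤ), (∀ r ∈ R, ∀ i, |r i| ≤ N) →
      (∀ r ∈ R, ∃ a : ℝ, δ * N ≤ ‖CK k (ct f A B) A B (fun i => H i * r i) a‖) →
      (R.card : ℝ) < δ * (N : ℝ) ^ k

/-- THEOREM U -/
def StU : Prop := ∀ f : ℤ → ℂ, CM f → Aper f → ∀ k : ℕ, Ak f k

/-- THEOREM T: `m + 1` pairwise independent linear forms, `m` arbitrary bounded functions, the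
last one an aperiodic completely multiplicative function cut to an interval (`m = 3` is `U3.StA`) -/
def StTm (m : ℕ) : Prop :=
  ∀ g : ℤ → ℂ, CM g → Aper g → ∀ L : Fin (m + 1) → ℤ × ℤ, (∀ i j, i ≠ j → dt (L i) (L j) ≠ 0) →
    ∀ T : ℕ, (∑ i, sz (L i)) ≤ T → ∀ ε : ℝ, 0 < ε → ∃ N0 : ℕ, ∀ N : ℕ, N0 ≤ N →
      ∀ f : Fin m → ℤ → ℂ, (∀ i, Bdd N (f i)) → ∀ A B : ℤ, -(N : ℤ) ≤ A → B ≤ N →
        ‖∑ v ∈ bx (T * N), (∏ i, f i (lf (L i.castSucc) v)) *
          (if lf (L (Fin.last m)) v ∈ Finset.Icc A B then g (lf (L (Fin.last m)) v) else 0)‖ ≤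
            ε * (N : ℝ) ^ 2

/-- THEOREM T for all `m ≥ 2` -/
def StT : Prop := ∀ m : ℕ, 2 ≤ m → StTm m

end Pool.Agent.US
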