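import Pool.Agent.Work.MP_0f91f8_co.US.Stmts

/-!
# Block US, item Bas: elementary facts on iterated derivatives
-/

set_option autoImplicit false

namespace Pool.Agent.US

open Pool.Agent.U3
open scoped ComplexConjugate Classical

namespace IBas

theorem D1_comm (a b : ℤ) (F : ℤ → ℂ) : D1 a (D1 b F) = D1 b (D1 a F) := by
  funext n
  simp only [D1, map_mul, Complex.conj_conj]
  rw [show n + a + b = n + b + a by ring]
  ring

theorem DK_cons (k : ℕ) (F : ℤ → ℂ) (h0 : ℤ) (h : Fin k → ℤ) :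
    DK (k + 1) F (Fin.cons h0 h) = DK k (D1 h0 F) h := by
  rw [DK, Fin.cons_zero, Fin.tail_cons]

theorem DK_succ (k : ℕ) : ∀ (F : ℤ → ℂ) (h : Fin (k + 1) → ℤ),
    DK (k + 1) F h = D1 (h 0) (DK k F (Fin.tail h)) := by
  induction k with
  | zero => intro F h; rfl
  | succ k ih =>
    intro F h
    have h1 : DK (k + 1 + 1) F h = DK (k + 1) (D1 (h 0) F) (Fin.tail h) := rfl
    rw [h1, ih (D1 (h 0) F) (Fin.tail h), ← DK_cons, ih F, Fin.cons_zero, Fin.tail_cons, D1_comm,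
      ← ih F (Fin.tail h)]

theorem Sp_D1 (h : ℤ) (F : ℤ → ℂ) (A B : ℤ) (hF : Sp F A B) : Sp (D1 h F) A B := by
  refine ⟨fun n => ?_, fun n hn => ?_⟩
  · rw [D1, norm_mul, RCLike.norm_conj]
    exact mul_le_one₀ (hF.1 _) (norm_nonneg _) (hF.1 _)
  · rw [D1, hF.2 n hn, map_zero, mul_zero]

theorem Sp_DK (k : ℕ) : ∀ (F : ℤ → ℂ) (h : Fin k → ℤ) (A B : ℤ), Sp F A B →
    Sp (DK k F h) A B := by
  induction k with
  | zero => intro F h A B hF; exact hF
  | succ k ih =>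
    intro F h A B hF
    exact ih _ _ A B (Sp_D1 _ F A B hF)

theorem agree (k : ℕ) : ∀ (F G : ℤ → ℂ) (h : Fin k → ℤ) (S : Finset ℤ),
    (∀ n, n ∉ S → F n = G n) →
    ∃ S' : Finset ℤ, S'.card ≤ 2 ^ k * S.card ∧ ∀ n, n ∉ S' → DK k F h n = DK k G h n := by
  induction k with
  | zero => intro F G h S hS; exact ⟨S, by simp, hS⟩
  | succ k ih =>
    intro F G h S hS
    obtain ⟨S', h1, h2⟩ := ih (D1 (h 0) F) (D1 (h 0) G) (Fin.tail h)
      (S ∪ S.image fun n => n - h 0) (fun n hn => by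
        rw [Finset.mem_union, not_or] at hn
        have h3 : n + h 0 ∉ S := fun h4 =>
          hn.2 (Finset.mem_image.2 ⟨n + h 0, h4, by ring⟩)
        rw [D1, D1, hS _ h3, hS _ hn.1])
    refine ⟨S', h1.trans ?_, h2⟩
    have h5 : (S ∪ S.image fun n => n - h 0).card ≤ S.card + S.card :=
      (Finset.card_union_le _ _).trans (Nat.add_le_add_left Finset.card_image_le _)
    calc 2 ^ k * (S ∪ S.image fun n => n - h 0).card ≤ 2 ^ k * (S.card + S.card) :=
          Nat.mul_le_mul_left _ h5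
      _ = 2 ^ (k + 1) * S.card := by ring

theorem norm_ee (x : ℝ) : ‖ee x‖ = 1 := by
  rw [ee, show (2 * Real.pi * Complex.I * x : ℂ) = ((2 * Real.pi * x : ℝ) : ℂ) * Complex.I by
    push_cast; ring]
  exact Complex.norm_exp_ofReal_mul_I _

theorem CK_le (k : ℕ) (F : ℤ → ℂ) (A B : ℤ) (h : Fin k → ℤ) (a Z : ℝ) (hF : Sp F A B)
    (hZ : (B - A + 1 : ℝ) ≤ Z) (hZ0 : 0 ≤ Z) : ‖CK k F A B h a‖ ≤ Z := by
  have h1 : ‖CK k F A B h a‖ ≤ ∑ n ∈ Finset.Icc A B, (1 : ℝ) := by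
    refine norm_sum_le_of_le _ fun n _ => ?_
    rw [norm_mul, norm_ee, mul_one]
    exact (Sp_DK k F h A B hF).1 n
  refine h1.trans ?_
  rw [Finset.sum_const, nsmul_eq_mul, mul_one, Int.card_Icc]
  rcases le_total 0 (B + 1 - A) with h2 | h2
  · have h3 : (((B + 1 - A).toNat : ℤ) : ℝ) = ((B + 1 - A : ℤ) : ℝ) := by
      rw [Int.toNat_of_nonneg h2]
    have h4 : (((B + 1 - A).toNat : ℕ) : ℝ) = ((B + 1 - A : ℤ) : ℝ) := by
      rw [← h3]
      push_cast
      rfl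
    rw [h4]
    push_cast
    linarith
  · rw [Int.toNat_of_nonpos h2]
    simpa using hZ0

end IBas

open IBas

theorem us_Bas : StBas := by
  refine ⟨DK_succ, Sp_DK, Sp_D1, agree, CK_le, fun k F A B h0 h a => ⟨?_, ?_⟩⟩
  · unfold CK
    rw [DK_succ, Fin.cons_zero, Fin.tail_cons]
  · unfold CK
    rw [DK_cons]

end Pool.Agent.US
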