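import Pool.Agent.Work.MP_0f91f8_co.US.Stmts
import Pool.Agent.Work.MP_0f91f8_co.U3.I_ND

/-!
# Block US, item Rel: the common colour is almost rational
-/

set_option autoImplicit false

namespace Pool.Agent.US

open Pool.Agent.U3
open scoped ComplexConjugate Classical

theorem us_Rel (hI : StInv) (hC : StCan) : StRel := by
  intro k M0
  obtain ⟨n, hn⟩ : ∃ n : ℕ, n = Fintype.card (Finset (Fin k → Bool)) := ⟨_, rfl⟩
  refine ⟨n * M0 ^ n + 1, by omega, ?_⟩
  intro W q t a σ η ha hη hm hnd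
  have hcan := hC k W q t a
  have hinv := hI (Fin k → Bool) t a ha (fun E => (hm E).1)
  obtain ⟨m, hmE⟩ : ∃ m : Finset (Fin k → Bool) → ℤ, ∀ E, m E = t + ∑ s ∈ E, a s := ⟨_, fun _ => rfl⟩
  obtain ⟨β, hβE⟩ : ∃ β : Finset (Fin k → Bool) → ℝ, ∀ E, β E = ∑ u : Fin k → Bool, sg u *
      W (fun i => (q i - ∑ s ∈ E, if s i then a s else 0) +
        if u i then t + ∑ s ∈ E, a s else 0) := ⟨_, fun _ => rfl⟩
  simp only [← hβE] at hcan hnd
  simp only [← hmE] at hnd hinv hm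
  obtain ⟨-, hneg, -, -, -, -, hex, hle⟩ := pr_ND
  choose j hj using fun E => hex ((m E : ℝ) * β E - σ)
  have hje : ∀ E, |(m E : ℝ) * β E - σ - j E| ≤ η := fun E => by
    rw [hj E]
    exact hnd E
  obtain ⟨P, hP⟩ : ∃ P : Finset (Fin k → Bool) → ℤ, ∀ E, P E = ∏ E' ∈ Finset.univ.erase E, m E' :=
    ⟨_, fun _ => rfl⟩
  obtain ⟨L, hL⟩ : ∃ L : ℤ, L = ∏ E', m E' := ⟨_, rfl⟩
  have hPm : ∀ E, m E * P E = L := fun E => by
    rw [hP, hL, Finset.mul_prod_erase _ _ (Finset.mem_univ E)]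
  obtain ⟨c, hc⟩ : ∃ c : Finset (Fin k → Bool) → ℤ, ∀ E, c E = (-1) ^ E.card * P E :=
    ⟨_, fun _ => rfl⟩
  have hcm : ∀ E, (c E : ℝ) * m E = (-1) ^ E.card * L := fun E => by
    rw [hc]
    push_cast
    have h := congrArg (Int.cast (R := ℝ)) (hPm E)
    push_cast at h
    rw [← h]
    ring
  have hsum : ∑ E, (c E : ℝ) * (m E * β E) = 0 := by
    have h1 : ∀ E, (c E : ℝ) * (m E * β E) = L * ((-1) ^ E.card * β E) := fun E => by
      rw [← mul_assoc, hcm]
      ring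
    rw [Finset.sum_congr rfl (fun E _ => h1 E), ← Finset.mul_sum, hcan, mul_zero]
  have hM1 : 1 ≤ M0 := by
    have h := hm ∅
    have h2 : (1 : ℤ) ≤ (M0 : ℤ) := h.1.trans h.2
    exact_mod_cast h2
  -- sizes
  have hcb : ∀ E, |(c E : ℝ)| ≤ (M0 : ℝ) ^ n := fun E => by
    rw [hc]
    push_cast
    rw [abs_mul, abs_pow, abs_neg, abs_one, one_pow, one_mul, hP]
    push_cast
    rw [Finset.abs_prod]
    calc ∏ E' ∈ Finset.univ.erase E, |(m E' : ℝ)|
        ≤ ∏ _E' ∈ Finset.univ.erase E, (M0 : ℝ) := by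
          refine Finset.prod_le_prod (fun E' _ => abs_nonneg _) (fun E' _ => ?_)
          have h := hm E'
          rw [abs_of_nonneg (by exact_mod_cast (zero_le_one.trans h.1))]
          exact_mod_cast h.2
      _ = (M0 : ℝ) ^ (Finset.univ.erase E).card := by rw [Finset.prod_const]
      _ ≤ (M0 : ℝ) ^ n := by
          refine pow_le_pow_right₀ (by exact_mod_cast hM1) ?_
          rw [hn]
          exact Finset.card_le_univ _
  have hM : ∃ Mi : ℤ, Mi = ∑ E, c E := ⟨_, rfl⟩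
  obtain ⟨Mi, hMi⟩ := hM
  have hMiR : (Mi : ℝ) = ∑ E, (c E : ℝ) := by
    rw [hMi]
    push_cast
    rfl
  have hMne : Mi ≠ 0 := by
    intro h0
    apply hinv
    have h1 : (L : ℝ) * ∑ E : Finset (Fin k → Bool), (-1 : ℝ) ^ E.card / ((m E : ℤ) : ℝ) = 0 := by
      rw [Finset.mul_sum]
      have h2 : ∀ E : Finset (Fin k → Bool), (L : ℝ) * ((-1 : ℝ) ^ E.card / ((m E : ℤ) : ℝ)) = c E := by
        intro E
        have hm0 : ((m E : ℤ) : ℝ) ≠ 0 := by
          have := (hm E).1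
          have h3 : m E ≠ 0 := by omega
          exact_mod_cast h3
        rw [mul_div_assoc', div_eq_iff hm0, hcm]
        ring
      rw [Finset.sum_congr rfl (fun E _ => h2 E), ← hMiR, h0]
      simp
    have hL0 : (L : ℝ) ≠ 0 := by
      rw [hL]
      push_cast
      refine Finset.prod_ne_zero_iff.mpr (fun E _ => ?_)
      have := (hm E).1
      have h3 : m E ≠ 0 := by omega
      exact_mod_cast h3
    exact (mul_eq_zero.mp h1).resolve_left hL0
  have habs : |(Mi : ℝ)| ≤ n * (M0 : ℝ) ^ n := by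
    rw [hMiR]
    calc |∑ E, (c E : ℝ)| ≤ ∑ E, |(c E : ℝ)| := Finset.abs_sum_le_sum_abs _ _
      _ ≤ ∑ _E : Finset (Fin k → Bool), (M0 : ℝ) ^ n := Finset.sum_le_sum (fun E _ => hcb E)
      _ = n * (M0 : ℝ) ^ n := by
          rw [Finset.sum_const, nsmul_eq_mul, Finset.card_univ, hn]
  -- the relation
  have hrel : (Mi : ℝ) * σ - ((-(∑ E, c E * j E) : ℤ) : ℝ) =
      -∑ E, (c E : ℝ) * ((m E : ℝ) * β E - σ - j E) := by
    have h1 : ∑ E, (c E : ℝ) * ((m E : ℝ) * β E - σ - j E) =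
        (∑ E, (c E : ℝ) * (m E * β E)) - (∑ E, (c E : ℝ)) * σ - ∑ E, (c E : ℝ) * j E := by
      rw [Finset.sum_mul, ← Finset.sum_sub_distrib, ← Finset.sum_sub_distrib]
      exact Finset.sum_congr rfl (fun E _ => by ring)
    rw [h1, hsum, ← hMiR]
    push_cast
    ring
  have hmain : nd ((Mi : ℝ) * σ) ≤ n * (M0 : ℝ) ^ n * η := by
    refine (hle _ (-(∑ E, c E * j E))).trans ?_
    rw [hrel, abs_neg]
    calc |∑ E, (c E : ℝ) * ((m E : ℝ) * β E - σ - j E)|
        ≤ ∑ E, |(c E : ℝ) * ((m E : ℝ) * β E - σ - j E)| := Finset.abs_sum_le_sum_abs _ _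
      _ ≤ ∑ _E : Finset (Fin k → Bool), (M0 : ℝ) ^ n * η := by
          refine Finset.sum_le_sum (fun E _ => ?_)
          rw [abs_mul]
          exact mul_le_mul (hcb E) (hje E) (abs_nonneg _) (by positivity)
      _ = n * (M0 : ℝ) ^ n * η := by
          rw [Finset.sum_const, nsmul_eq_mul, Finset.card_univ, hn]
          ring
  refine ⟨Mi.natAbs, ?_, ?_, ?_⟩
  · exact Int.natAbs_pos.mpr hMne
  · have h1 : ((Mi.natAbs : ℕ) : ℝ) ≤ ((n * M0 ^ n + 1 : ℕ) : ℝ) := by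
      rw [Nat.cast_natAbs]
      push_cast
      linarith
    exact_mod_cast h1
  · have h2 : nd ((Mi.natAbs : ℕ) * σ) = nd ((Mi : ℝ) * σ) := by
      rw [Nat.cast_natAbs]
      push_cast
      rcases abs_choice (Mi : ℝ) with h | h
      · rw [h]
      · rw [h, neg_mul, hneg]
    rw [h2]
    refine hmain.trans ?_
    push_cast
    nlinarith
end Pool.Agent.US
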