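import Pool.Agent.Work.MP_0f91f8_co.US.Stmts2

/-!
# Block US, item TT: Theorem T from Theorem U and the van der Corput step
-/

set_option autoImplicit false

namespace Pool.Agent.US

open Pool.Agent.U3
open scoped ComplexConjugate Classical

/-- THEOREM T -/
theorem us_TT (hU : StU) (hV : StVm) (hB : StBas) : StTT := by
  intro m hm g hg hap L hL T hT ε hε
  obtain ⟨k, rfl⟩ : ∃ k, m = k + 2 := ⟨m - 2, by omega⟩
  obtain ⟨δ', hδ', hV'⟩ := hV k L hL T hT ε hε
  have hH0 : ∀ i : Fin k, dt (L (Fin.last (k + 2))) (L (Fin.castLE (by omega) i)) ≠ 0 := by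
    intro i
    apply hL
    intro h
    have h1 := congrArg Fin.val h
    have h2 := i.isLt
    simp only [Fin.val_last, Fin.val_castLE] at h1
    omega
  obtain ⟨N0, hN0⟩ := hU g hg hap k
    (fun i : Fin k => dt (L (Fin.last (k + 2))) (L (Fin.castLE (by omega) i))) hH0 δ' hδ'
  refine ⟨max N0 1, ?_⟩
  intro N hN f hf A B hA hB'
  have hN1 : N0 ≤ N := le_trans (le_max_left _ _) hN
  have hN2 : 1 ≤ N := le_trans (le_max_right _ _) hN
  by_contra hcon
  push Not at hcon
  have hgn : ∀ n, ‖g n‖ ≤ 1 := by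
    intro n
    by_cases h : n = 0
    · subst h
      rw [hg.zero]
      simp
    · rw [hg.nrm n h]
  have hSp : Sp (ct g A B) A B := by
    constructor
    · intro n
      unfold ct
      split_ifs
      · exact hgn n
      · simp
    · intro n hn
      unfold ct
      rw [if_neg hn]
  have hBdd : Bdd N (ct g A B) := by
    intro n
    refine ⟨hSp.1 n, fun hn => hSp.2 n ?_⟩
    intro hmem
    rw [Finset.mem_Icc] at hmem
    have : |n| ≤ (N : ℤ) := abs_le.mpr ⟨by linarith [hmem.1], by linarith [hmem.2]⟩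
    omega
  have hFB : ∀ i, Bdd N (Fin.snoc (α := fun _ => ℤ → ℂ) f (ct g A B) i) := by
    intro i
    refine Fin.lastCases ?_ ?_ i
    · rw [Fin.snoc_last]
      exact hBdd
    · intro j
      rw [Fin.snoc_castSucc]
      exact hf j
  obtain ⟨R, hR1, hR2, hR3⟩ := hV' N hN2 (Fin.snoc (α := fun _ => ℤ → ℂ) f (ct g A B)) hFB (by
    refine le_trans hcon.le (le_of_eq ?_)
    congr 1
    refine Finset.sum_congr rfl fun v _ => ?_
    conv_rhs => rw [Fin.prod_univ_castSucc]
    rw [Fin.snoc_last]
    congr 1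
    · refine Finset.prod_congr rfl fun i _ => ?_
      rw [Fin.snoc_castSucc])
  have hcard := hN0 N hN1 A B hA hB' R hR1 (by
    intro r hr
    obtain ⟨a, ha⟩ := hR3 r hr
    refine ⟨a, le_trans ha (le_of_eq ?_)⟩
    congr 1
    rw [Fin.snoc_last]
    unfold CK
    symm
    apply Finset.sum_subset
    · intro n hn
      rw [Finset.mem_Icc] at hn ⊢
      exact ⟨by linarith [hn.1], by linarith [hn.2]⟩
    · intro n _ hn
      rw [(hB.2.1 k (ct g A B) _ A B hSp).2 n hn]
      ring)
  linarith

end Pool.Agent.US
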