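import Pool.Agent.Work.MP_0f91f8_co.US.Defs

/-!
# Block US: statements (every docstring is the complete proof)

No item has to wait for another one: an item may assume the other items of this file (without
circle: only the ones named in its docstring) and the landed theorems of block U3
(`Pool.Agent.U3.u_PD : StPD`, `u_TK`, `u_Co2`, `u_CS2`, `u_Sup`, `u_Thr`, `u_EE`, `u_ND`, `u_GS`, `u_Scl`,
`u_Kat`; import `Pool.Agent.Work.MP_0f91f8_co.U3.All`).  Item `X` goes to `US/I_X.lean` as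
`theorem us_X (h : StY) .. : StX` (namespace `Pool.Agent.US`).
Everywhere `Z` is a real upper bound for the number of integers of `[A,B]`.
-/

set_option autoImplicit false

namespace Pool.Agent.US

open Pool.Agent.U3
open scoped ComplexConjugate Classical

/-- [Bas] EASY. Elementary facts on `DK`.
(1) `DK (k+1) F h = D1 (h 0) (DK k F (tail h))`: induction on `k` (generalise `F`), because
`D1 a (D1 b F) = D1 b (D1 a F)` (`conj` is an involution, `ring`): for `k + 1`,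
`DK (k+2) F h = DK (k+1) (D1 (h 0) F) (tail h) = D1 (h 1) (DK k (D1 (h 0) F) (tail (tail h)))`
`= D1 (h 1) (DK (k+1) F (cons (h 0) (tail (tail h)))) = D1 (h 1) (D1 (h 0) (DK k F (tail tail h)))`
`= D1 (h 0) (D1 (h 1) (DK k F ..)) = D1 (h 0) (DK (k+1) F (tail h))`, using the induction
hypothesis for `F` and for `D1 ..`.
(2) `‖F‖ ≤ 1` implies `‖DK k F h‖ ≤ 1`.  (3) `F n = 0` implies `DK k F h n = 0` (`D1 h F n = 0`).
So `Sp F A B` implies `Sp (DK k F h) A B`.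
(4) if `F` and `G` agree outside a finite set `S`, then `DK k F h` and `DK k G h` agree outside a
finite set with at most `2^k |S|` elements (`D1 h F` and `D1 h G` agree outside `S ∪ (S - h)`).
(5) `‖CK k F A B h a‖ ≤ Z`.
(6) `CK (k+1) F A B (cons h0 h) a = ∑_{n ∈ [A,B]} D1 h0 (DK k F h) n e(-a n)` and
`CK (k+1) F A B (cons h0 h) a = CK k (D1 h0 F) A B h a`. -/
def StBas : Prop :=
  (∀ (k : ℕ) (F : ℤ → ℂ) (h : Fin (k + 1) → ℤ), DK (k + 1) F h = D1 (h 0) (DK k F (Fin.tail h))) ∧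
  (∀ (k : ℕ) (F : ℤ → ℂ) (h : Fin k → ℤ) (A B : ℤ), Sp F A B → Sp (DK k F h) A B) ∧
  (∀ (h : ℤ) (F : ℤ → ℂ) (A B : ℤ), Sp F A B → Sp (D1 h F) A B) ∧
  (∀ (k : ℕ) (F G : ℤ → ℂ) (h : Fin k → ℤ) (S : Finset ℤ), (∀ n, n ∉ S → F n = G n) →
    ∃ S' : Finset ℤ, S'.card ≤ 2 ^ k * S.card ∧ ∀ n, n ∉ S' → DK k F h n = DK k G h n) ∧
  (∀ (k : ℕ) (F : ℤ → ℂ) (A B : ℤ) (h : Fin k → ℤ) (a Z : ℝ), Sp F A B → (B - A + 1 : ℝ) ≤ Z →
    0 ≤ Z → ‖CK k F A B h a‖ ≤ Z) ∧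
  (∀ (k : ℕ) (F : ℤ → ℂ) (A B h0 : ℤ) (h : Fin k → ℤ) (a : ℝ),
    CK (k + 1) F A B (Fin.cons h0 h) a =
      ∑ n ∈ Finset.Icc A B, D1 h0 (DK k F h) n * ee (-(a * n)) ∧
    CK (k + 1) F A B (Fin.cons h0 h) a = CK k (D1 h0 F) A B h a)

/-- [Dil] EASY-MEDIUM. Restriction to the multiples of `q` (multiplicativity).
Proof. For `n = q m`: `n ∈ [A,B]` iff `m ∈ [cl A q, B / q]`, and `ct f A B (q m) = f q * ct f (cl A q)
(B / q) m`.  If `F` and `F'` satisfy `F (q m) = u F' m` for all `m` with `‖u‖ = 1` and `q ∣ h` then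
`D1 h F (q m) = F (q (m + h/q)) conj (F (q m)) = |u|^2 D1 (h/q) F' m = D1 (h/q) F' m`.  So for `k ≥ 1`
by induction `DK k (ct f A B) h (q m) = DK k (ct f (cl A q) (B/q)) (h/q) m`.  Sum over
`n = q m`; `e(-a q m)`. -/
def StDil : Prop :=
  ∀ f : ℤ → ℂ, CM f → ∀ (k q : ℕ) (A B : ℤ) (h : Fin k → ℤ) (a : ℝ), 1 ≤ k → 1 ≤ q →
    (∀ i, (q : ℤ) ∣ h i) →
    ∑ n ∈ (Finset.Icc A B).filter (fun n => (q : ℤ) ∣ n), DK k (ct f A B) h n * ee (-(a * n)) =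
      CK k (ct f (cl A q) (B / q)) (cl A q) (B / q) (fun i => h i / q) (q * a)

/-- [Win] MEDIUM. POSITIVE DEFINITENESS IN ONE COORDINATE, averaged over windows of step `t`
(compare `U3.StTrn` / `U3/I_Trn.lean`).  Proof. Write
`s(h,a) = ‖∑_{n ∈ [A,B]} G(n+h) conj(G n) e(-a n)‖^2`; as `G` vanishes outside `[A,B]` this is
`U3.SS G A B h a`.  For an integer `x` let `V_x = {v ∈ [0,D] : x + t v ∈ R}`.  `U3.StPD` for the family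
`v ∈ V_x`, `h_v = b + g (x + t v)`, `a_v = w (x + t v)`, with `∑ ‖G‖^2 ≤ Z`:
`(∑_{v ∈ V_x} s(h_v,a_v))^2 ≤ Z^2 ∑_{v,v' ∈ V_x} s(g t (v - v'), w(x+tv) - w(x+tv'))`.
`V_x` is empty unless `-2X ≤ x ≤ X` (`t D ≤ X`), at most `3X + 1 ≤ 4X` values.  Every `r ∈ R` equals
`x + t v` for exactly `D + 1` pairs `(x, v)`, `0 ≤ v ≤ D`; so by Cauchy-Schwarz
`((D+1) ∑_R s(b + g r, w r))^2 ≤ 4X Z^2 ∑_x ∑_{v,v'}`.  In the last sum put `r = x + t v'`,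
`d = v - v' ∈ [-D,D]`: every `(r,d)` with `r, r + t d ∈ R` comes from at most `D + 1` triples. -/
def StWin : Prop :=
  ∀ (G : ℤ → ℂ) (A B : ℤ) (Z : ℝ), Sp G A B → (B - A + 1 : ℝ) ≤ Z → 0 ≤ Z →
    ∀ (X D t : ℕ) (b g : ℤ) (R : Finset ℤ) (w : ℤ → ℝ), 1 ≤ X → 1 ≤ t → t * D ≤ X →
      (∀ r ∈ R, |r| ≤ X) →
      ((D : ℝ) + 1) *
          (∑ r ∈ R, ‖∑ n ∈ Finset.Icc A B, D1 (b + g * r) G n * ee (-(w r * n))‖ ^ 2) ^ 2 ≤
        4 * X * Z ^ 2 * ∑ d ∈ Finset.Icc (-(D : ℤ)) D, ∑ r ∈ R.filter (fun r => r + t * d ∈ R),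
          ‖∑ n ∈ Finset.Icc A B, D1 (t * g * d) G n * ee (-((w (r + t * d) - w r) * n))‖ ^ 2

/-- [PDk] MEDIUM. POSITIVE DEFINITENESS IN ALL COORDINATES.  Uses `StBas`, `StWin`.
Proof. Induction on `k`.  `k = 0`: both sums have one term at most, `al w t r d = w r`,
`κ' = κ`.  Step `k → k + 1`.  Write `r = cons r0 r'`, `Rs(r') = {r0 : cons r0 r' ∈ R}`.  For fixed
`r' ∈ bk k X` put `G = DK k F (b' + g' r')`; by `StBas` (6)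
`CK (k+1) F A B (b + g r) a = ∑_n D1 (b 0 + g 0 r0) G n e(-a n)`.  `StWin` for `G`, `Rs(r')`:
`(D+1) (∑_{r0} ‖CK(r)‖^2)^2 ≤ 4 X Z^2 Y(r')`,
`Y(r') = ∑_{d0 ∈ [-D,D]} ∑_{r0, r0 + t d0 ∈ Rs(r')} ‖∑_n D1 (t g0 d0) G n e(-w' n)‖^2`,
`w' = w (cons (r0 + t d0) r') - w (cons r0 r')`.  Cauchy-Schwarz over the at most `(3X)^k` tails `r'`:
`(κ X^(k+1) Z^2)^2 ≤ (3X)^k ∑_{r'} (..)^2 ≤ (3X)^k 4 X Z^2 (D+1)^(-1) ∑ Y`, so
`∑_{r'} Y(r') ≥ κ1 X^(k+1) D Z^2`, `κ1 = κ^2/(4 * 3^k)`.  By `StBas` (6) again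
`∑_n D1 (t g0 d0) G n e(-w' n) = CK k (D1 (t g0 d0) F) A B (b' + g' r') w'`.  So
`∑ Y = ∑_{d0 ∈ [-D,D]} ∑_{r0 ∈ [-X,X]} Φ(r0,d0)`,
`Φ(r0,d0) = ∑_{r' ∈ R(r0,d0)} ‖CK k (D1 (t g0 d0) F) A B (b' + g' r') (w'(r'))‖^2`,
`R(r0,d0) = {r' : cons r0 r' ∈ R, cons (r0 + t d0) r' ∈ R}`.  There are at most `9 X D` pairs
(`X, D ≥ 1`); those with `Φ < (κ1/18) X^k Z^2` contribute less than half.  `Φ ≤ (3X)^k Z^2`
(`StBas` (5)), so at least `κ1 X D/(2 * 3^k)` pairs have `Φ ≥ (κ1/18) X^k Z^2`.  The induction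
hypothesis for `F' = D1 (t g0 d0) F` (`Sp`), `R(r0,d0)`, `w'`, `κ1/18` gives
`≥ κ'' X^k D^k Z^2` for each of them; total `κ' = κ'' κ1/(2 * 3^k)`.  Finally for `d = cons d0 d'`,
`r = cons r0 r'`: all corners `cn t r d s` are in `R` iff all corners `cn t r' d' s'` are in
`R(r0,d0)` (`s 0` false / true), and `al w t r d = al w' t r' d'` (`sg s = ± sg s'`,
`Fin.prod_univ_succ`, sum over `s` = sum over `(s 0, tail s)`).  If `D = 0` (`k ≥ 1`) the left side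
is `0`. -/
def StPDk : Prop :=
  ∀ (k : ℕ) (κ : ℝ), 0 < κ → ∃ κ' : ℝ, 0 < κ' ∧
    ∀ (F : ℤ → ℂ) (A B : ℤ) (Z : ℝ), Sp F A B → (B - A + 1 : ℝ) ≤ Z → 0 ≤ Z →
    ∀ (X D t : ℕ) (b g : Fin k → ℤ) (R : Finset (Fin k → ℤ)) (w : (Fin k → ℤ) → ℝ),
      1 ≤ X → 1 ≤ t → t * D ≤ X → (∀ r ∈ R, ∀ i, |r i| ≤ X) →
      κ * (X : ℝ) ^ k * Z ^ 2 ≤ ∑ r ∈ R, ‖CK k F A B (fun i => b i + g i * r i) (w r)‖ ^ 2 →
      κ' * (X : ℝ) ^ k * (D : ℝ) ^ k * Z ^ 2 ≤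
        ∑ d ∈ bk k D, ∑ r ∈ R.filter (fun r => ∀ s, cn t r d s ∈ R),
          ‖CK k F A B (fun i => t * g i * d i) (al w t r d)‖ ^ 2

/-- [Clo] EASY. Two intervals which are almost equal.  Uses `StBas` (4).
Proof. `ct f A1 B1` and `ct f A2 B2` agree outside a set of at most `2E` integers, so the
derivatives agree outside at most `2^k 2E` integers and differ by at most `2` there; outside its
interval a derivative vanishes (`StBas` (2)), so both sums can be taken over a common large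
interval. -/
def StClo : Prop :=
  ∀ (f : ℤ → ℂ), (∀ n, ‖f n‖ ≤ 1) → ∀ (k E : ℕ) (A1 B1 A2 B2 : ℤ) (h : Fin k → ℤ) (a : ℝ),
    |A1 - A2| ≤ E → |B1 - B2| ≤ E →
    ‖CK k (ct f A1 B1) A1 B1 h a - CK k (ct f A2 B2) A2 B2 h a‖ ≤ 2 ^ (k + 2) * E

/-- [Sel] MEDIUM. Selection of a block of primes.
Proof. Let `Ps` = primes in `[P0, P1]`, `P1` large.  Call `t ∈ Ps` nice if at least half of the `r`
are not bad for `t`.  `∑_{t not nice} 1/t * |R|/2 ≤ ∑_r ∑_{t bad for r} 1/t ≤ C0 |R|`, so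
`∑_{t not nice} 1/t ≤ 2 C0`.  Blocks `B_j = [P0 (1+ε)^j, P0 (1+ε)^(j+1))`, `j ≥ 0`, cover `[P0,∞)`.
If every block contained fewer than `(P0 (1+ε)^j)^(1-θ)` nice `t` then
`∑_{nice} 1/t ≤ ∑_j (P0 (1+ε)^j)^(-θ) = C1 < ∞`, so `∑_{Ps} 1/t ≤ 2 C0 + C1`, false if `P1` is large
(`Nat.Primes.not_summable_one_div`).  So some block has `≥ (P0 (1+ε)^j)^(1-θ)` nice `t`; `T` = the
smallest of them, `T ≤ P0 (1+ε)^(j+1)`, so `T^(1-θ) ≤ (1+ε) |Pn| ≤ 2 |Pn|`. -/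
def StSel : Prop :=
  ∀ (ε θ C0 : ℝ) (P0 : ℕ), 0 < ε → ε ≤ 1 → 0 < θ → θ < 1 → 2 ≤ P0 → ∃ P1 : ℕ, P0 ≤ P1 ∧
    ∀ (ι : Type) (R : Finset ι) (bad : ℕ → ι → Prop), R.Nonempty →
      (∀ r ∈ R, ∑ t ∈ (Finset.Icc P0 P1).filter (fun t => t.Prime ∧ bad t r), 1 / (t : ℝ) ≤ C0) →
      ∃ (T : ℕ) (Pn : Finset ℕ), P0 ≤ T ∧ T ≤ P1 ∧ T ∈ Pn ∧
        (∀ t ∈ Pn, t.Prime ∧ T ≤ t ∧ t ≤ P1 ∧ (t : ℝ) ≤ (1 + ε) * T) ∧
        (T : ℝ) ^ (1 - θ) ≤ 2 * Pn.card ∧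
        ∀ t ∈ Pn, (R.card : ℝ) ≤ 2 * (R.filter fun r => ¬ bad t r).card

/-- [Cov] MEDIUM. The large frequencies lie in boundedly many short arcs (large sieve; compare
`U3.StFew` / `U3/I_Few.lean`, the same proof for a general coefficient sequence).
Proof. Let `a_1, .., a_m` be frequencies with `κ Z ≤ |∑ G(n) e(-a_i n)|` and
`nd(a_i - a_j) > 2/(κ^2 Z)` for `i ≠ j`.  With unimodular `u_i`:
`m κ Z ≤ ∑_n G(n) ∑_i u_i e(-a_i n) ≤ Z^(1/2) (∑_{n ∈ [A,B]} |∑_i u_i e(-a_i n)|^2)^(1/2)` and the last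
sum is `≤ m Z + m^2 κ^2 Z/4` by `U3.StGS`.  So `m^2 κ^2 ≤ m + m^2 κ^2/4`, `m ≤ 4/(3 κ^2)`.  Take a
maximal such family (its size is bounded, e.g. by `Nat.findGreatest` or strong induction); `σ` =
the family, filled up with zeros to a fixed length `K ≥ 4/(3 κ^2)`. -/
def StCov : Prop :=
  ∀ κ : ℝ, 0 < κ → ∃ K : ℕ, 1 ≤ K ∧ ∀ (G : ℤ → ℂ) (A B : ℤ) (Z : ℝ), (∀ n, ‖G n‖ ≤ 1) → 1 ≤ Z →
    (B - A + 1 : ℝ) ≤ Z → ∃ σ : Fin K → ℝ, ∀ a : ℝ,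
      κ * Z ≤ ‖∑ n ∈ Finset.Icc A B, G n * ee (-(a * n))‖ → ∃ i, nd (a - σ i) ≤ 2 / (κ ^ 2 * Z)

/-- [Cub] MEDIUM. THE CUBE LEMMA (greedy Cauchy-Schwarz).
The direction of `s : Fin k → Bool` is `v_s = (-[s], 1)`, `[s] i = 1` if `s i` and `0` otherwise.
Proof. One step: let `S` be a set of points `(q,t)` with `|q i| ≤ 2T, |t| ≤ 2T`, and `v = v_s`.  The
lines parallel to `v` are the fibres of `π(q,t) = q + t [s]` (`|π i| ≤ 4T`), so at most `(9T)^k` lines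
meet `S`; by Cauchy-Schwarz there are at least `|S|^2/(9T)^k - |S|` ordered pairs of different points
of `S` on a common line, and their difference is `a v`, `a ≠ 0`, `|a| ≤ 4T` (at most `8T` values).  So
some `a ≠ 0` has `|S ∩ (S - a v)| ≥ (|S|^2/(9T)^k - |S|)/(8T)`.  If `|S| ≥ c T^(k+1-η)`, `η < 1`, and
`T` is large then `|S| ≥ 2 (9T)^k`, so this is `≥ |S|^2/(16 T (9T)^k) ≥ c' T^(k+1-2η)`.
Iterate over the `2^k` directions (an enumeration of `Fin k → Bool`), `η = θ, 2θ, 4θ, ..`; all are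
`< 1`, and the last set `S_m` has at least `c'' T^(k+1-2^(2^k) θ) > 0` elements.  A point of `S_m`
is the base point. -/
def StCub : Prop :=
  ∀ (k : ℕ) (c θ : ℝ), 0 < c → 0 < θ → 2 ^ (2 ^ k) * θ < 1 → ∃ T0 : ℕ, ∀ T : ℕ, T0 ≤ T →
    ∀ S : Finset ((Fin k → ℤ) × ℤ),
      (∀ p ∈ S, (∀ i, 0 ≤ p.1 i ∧ p.1 i < T) ∧ (T : ℤ) ≤ p.2 ∧ p.2 ≤ 2 * T) →
      c * (T : ℝ) ^ ((k : ℝ) + 1 - θ) ≤ S.card →
      ∃ (q : Fin k → ℤ) (t : ℤ) (a : (Fin k → Bool) → ℤ), (∀ s, a s ≠ 0) ∧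
        ∀ E : Finset (Fin k → Bool),
          ((fun i => q i - ∑ s ∈ E, if s i then a s else 0), t + ∑ s ∈ E, a s) ∈ S

/-- [Inv] EASY-MEDIUM. The alternating sum of the reciprocals over a cube is not zero.
Proof. `m_E = t + ∑_{s ∈ E} a s ≥ 1`, `1/m_E = ∫_0^1 u^(m_E - 1) du`.  For `0 < u < 1`
`h(u) = ∑_E (-1)^|E| u^(m_E - 1) = u^(t-1) ∏_s (1 - u^(a s))` (integer exponents, expand the product).
Each factor `1 - u^(a s)` is positive on `(0,1)` if `a s > 0` and negative if `a s < 0`, so `h` is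
continuous on `[0,1]` and has a constant strict sign on `(0,1)`: its integral is not zero. -/
def StInv : Prop :=
  ∀ (ι : Type) [Fintype ι] [DecidableEq ι] (t : ℤ) (a : ι → ℤ), (∀ s, a s ≠ 0) →
    (∀ E : Finset ι, 1 ≤ t + ∑ s ∈ E, a s) →
    ∑ E : Finset ι, (-1 : ℝ) ^ E.card / ((t + ∑ s ∈ E, a s : ℤ) : ℝ) ≠ 0

/-- [Can] EASY-MEDIUM. THE CANCELLATION.
`q_E i = q i - ∑_{s ∈ E} [s i] a s`, `m_E = t + ∑_{s ∈ E} a s`.  Proof. Exchange the sums: for a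
fixed corner `u : Fin k → Bool` the point `p_E i = q_E i + [u i] m_E` is
`q i + [u i] t + ∑_{s ∈ E} a s ([u i] - [s i])`; the term `s = u` is `0`, so `p_(insert u E) = p_E`
for `u ∉ E` and the signs `(-1)^|E|` are opposite: the sum over `E` is `0`
(`Finset.sum_involution`, toggling `u`, or splitting into `u ∈ E` / `u ∉ E`). -/
def StCan : Prop :=
  ∀ (k : ℕ) (W : (Fin k → ℤ) → ℝ) (q : Fin k → ℤ) (t : ℤ) (a : (Fin k → Bool) → ℤ),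
    ∑ E : Finset (Fin k → Bool), (-1 : ℝ) ^ E.card * ∑ u : Fin k → Bool, sg u *
      W (fun i => (q i - ∑ s ∈ E, if s i then a s else 0) +
        if u i then t + ∑ s ∈ E, a s else 0) = 0

/-- [Rel] MEDIUM. THE RELATION: the common colour is almost rational.  Uses `StInv`, `StCan`,
`StND`.
Proof. Notation of [Can]; `β_E = ∑_u sg u W(..)`.  For every `E` there is an integer `j_E` with
`m_E β_E = σ + j_E + e_E`, `|e_E| ≤ η`.  By [Can] `∑_E (-1)^|E| (σ + j_E + e_E)/m_E = 0`.  Multiply by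
`L = ∏_E m_E` (a product of `2^(2^k)` integers in `[1, M0]`): `M σ + (integer) + e = 0` with
`M = ∑_E (-1)^|E| L/m_E`, an integer, `≠ 0` by [Inv] (`= L ∑ (-1)^|E|/m_E`),
`|M| ≤ 2^(2^k) M0^(2^(2^k))`, `|e| ≤ 2^(2^k) M0^(2^(2^k)) η`.  `B` = this number; if `M < 0` take `-M`
(`nd (-x) = nd x`). -/
def StRel : Prop :=
  ∀ (k M0 : ℕ), ∃ B : ℕ, 1 ≤ B ∧
    ∀ (W : (Fin k → ℤ) → ℝ) (q : Fin k → ℤ) (t : ℤ) (a : (Fin k → Bool) → ℤ) (σ η : ℝ),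
      (∀ s, a s ≠ 0) → 0 ≤ η →
      (∀ E : Finset (Fin k → Bool), 1 ≤ t + ∑ s ∈ E, a s ∧ t + ∑ s ∈ E, a s ≤ M0) →
      (∀ E : Finset (Fin k → Bool), nd (((t + ∑ s ∈ E, a s : ℤ) : ℝ) *
        (∑ u : Fin k → Bool, sg u * W (fun i => (q i - ∑ s ∈ E, if s i then a s else 0) +
          if u i then t + ∑ s ∈ E, a s else 0)) - σ) ≤ η) →
      ∃ M : ℕ, 1 ≤ M ∧ M ≤ B ∧ nd (M * σ) ≤ B * η

end Pool.Agent.US
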