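import Pool.Agent.Work.MP_0f91f8_co.US.Stmts

/-!
# Block US, second part: assembly statements (every docstring is the complete proof)

Items as in `US/Stmts.lean`: `US/I_X.lean`, `theorem us_X (h : StY) .. : StX`.
-/

set_option autoImplicit false

namespace Pool.Agent.US

open Pool.Agent.U3
open scoped ComplexConjugate Classical

/-- [St0] MEDIUM. Passing to steps divisible by `Q`, with constants which do not depend on `Q`.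
Uses `StPDk`, `StBas`.
Proof. `Z = 3N`, `F = ct f A B` (`Sp`).  `StPDk` with `X = N`, `t = Q`, `D = N / Q` (natural
division, `Q D ≤ N`), `b = 0`, `g = H`, `κ = δ^3/9` (`∑_R ‖CK‖^2 ≥ δ N^k δ^2 N^2`): with the `κ'` of
`StPDk`, `κ' N^k D^k Z^2 ≤ ∑_{d ∈ bk k D} ∑_r ‖CK k F A B (Q H d) (al w Q r d)‖^2`.  For each `d` there
are at most `(3N)^k` points `r`.  Put `δ1^2 = 9 κ'/(2 * 9^k)` and `R1` = the `d ∈ bk k D` such that some `a` has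
`‖CK k F A B (Q H d) a‖ ≥ δ1 N`.  The `d` outside `R1` contribute at most
`(3D)^k (3N)^k δ1^2 N^2 = κ' N^k D^k Z^2/2` (`D ≥ 1`), those of `R1` at most `|R1| (3N)^k Z^2`
(`StBas` (5)).  So `|R1| ≥ κ' D^k/(2 * 3^k)`.  `δ' = min(δ1, κ'/(2 * 3^k))`, `N ≥ Q`. -/
def StSt0 : Prop :=
  ∀ (k : ℕ) (δ : ℝ), 0 < δ → ∃ δ' : ℝ, 0 < δ' ∧ ∀ f : ℤ → ℂ, (∀ n, ‖f n‖ ≤ 1) →
    ∀ (H : Fin k → ℤ) (Q N : ℕ) (A B : ℤ), 1 ≤ Q → Q ≤ N → -(N : ℤ) ≤ A → B ≤ N →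
    ∀ R : Finset (Fin k → ℤ), (∀ r ∈ R, ∀ i, |r i| ≤ N) → δ * (N : ℝ) ^ k ≤ R.card →
      (∀ r ∈ R, ∃ a : ℝ, δ * N ≤ ‖CK k (ct f A B) A B (fun i => H i * r i) a‖) →
      ∃ R1 ⊆ bk k (N / Q), δ' * ((N / Q : ℕ) : ℝ) ^ k ≤ R1.card ∧
        ∀ r ∈ R1, ∃ a : ℝ, δ' * N ≤ ‖CK k (ct f A B) A B (fun i => Q * H i * r i) a‖

/-- [Bad] EASY-MEDIUM. Few primes are bad for a given `r` (Turán-Kubilius).  Uses `StBas`, `StDil`,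
`U3.StTK`.
Proof. `F_r(n) = DK k (ct f A B) h n * e(-w n)` for `n ∈ [A,B]` (it vanishes outside), `|F_r| ≤ 1`.
`StTK`: `∑_{q ∈ Ps} (1/q) ‖q ∑_{q | n} F_r - ∑ F_r‖^2 ≤ 16 N^2`.  By `StDil` `∑_{q | n} F_r` is the `CK`
of the statement.  If it is `< (δ/2) N/q` then `‖q ∑_{q|n} F_r‖ < (δ/2) N` and
`‖∑ F_r‖ ≥ δ N`, so the term of `q` is `≥ (1/q) (δ^2/4) N^2`.  Hence `∑_{bad} 1/q ≤ 64/δ^2`. -/
def StBad : Prop :=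
  ∀ Ps : Finset ℕ, (∀ q ∈ Ps, q.Prime) → ∃ N0 : ℕ, ∀ N : ℕ, N0 ≤ N → ∀ f : ℤ → ℂ, CM f →
    ∀ (k : ℕ) (A B : ℤ) (h : Fin k → ℤ) (w δ : ℝ), 1 ≤ k → 0 < δ → -(N : ℤ) ≤ A → B ≤ N →
      (∀ q ∈ Ps, ∀ i, (q : ℤ) ∣ h i) → δ * N ≤ ‖CK k (ct f A B) A B h w‖ →
      ∑ q ∈ Ps.filter (fun q => ‖CK k (ct f (cl A q) (B / q)) (cl A q) (B / q)
        (fun i => h i / q) (q * w)‖ < δ / 2 * N / q), 1 / (q : ℝ) ≤ 64 / δ ^ 2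

/-- [Cnt] MEDIUM. DOUBLE COUNTING.  `Gt t` is the set of good pairs `(r,d)` for the prime `t`.
Proof. For `t ∈ Pn`, `q ∈ [0,T)^k` and `(r,d) ∈ Gt t` put `x i = r i - q i * d i`; `|x i| ≤ X + T D ≤
2X`, and `(r,d) ↦ (x,d)` is injective.  So
`∑_{x ∈ bk k (2X)} ∑_{d ∈ bk k D} #{(q,t)} ≥ |Pn| T^k κ X^k D^k`, hence with `m(d) = max_x #{(q,t)}`
(`#bk k (2X) ≤ (5X)^k`): `∑_d m(d) ≥ |Pn| T^k κ D^k/5^k`.  As `m(d) ≤ |Pn| T^k` and there are at most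
`(3D)^k` values `d`, the number of `d` with `m(d) ≥ κ/(2 * 15^k) |Pn| T^k` is at least
`κ D^k/(2 * 5^k)`. -/
def StCnt : Prop :=
  ∀ (k T X D : ℕ) (κ : ℝ) (Pn : Finset ℕ) (Gt : ℕ → Finset ((Fin k → ℤ) × (Fin k → ℤ))),
    1 ≤ T → 1 ≤ D → T * D ≤ X → 0 < κ →
    (∀ t ∈ Pn, ∀ p ∈ Gt t, (∀ i, |p.1 i| ≤ X) ∧ p.2 ∈ bk k D) →
    (∀ t ∈ Pn, κ * (X : ℝ) ^ k * (D : ℝ) ^ k ≤ (Gt t).card) → Pn.Nonempty →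
    ∃ E ⊆ bk k D, κ / (2 * 5 ^ k) * (D : ℝ) ^ k ≤ E.card ∧ ∀ d ∈ E, ∃ x : Fin k → ℤ,
      ∃ S : Finset ((Fin k → ℤ) × ℤ), κ / (2 * 15 ^ k) * Pn.card * (T : ℝ) ^ k ≤ S.card ∧
        ∀ p ∈ S, (∀ i, 0 ≤ p.1 i ∧ p.1 i < T) ∧ ∃ t ∈ Pn, p.2 = t ∧
          ((fun i => x i + p.1 i * d i), d) ∈ Gt t

/-- [One] MEDIUM. ONE DIFFERENCE `d`: from many good `(q,t)` to a rational frequency.
Uses `StClo`, `StCov`, `StCub`, `StRel`, `StBas`, `StND`.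
Here `c1` is the density, `κ2` the size of the good coefficients, `h = Q H d` the shift.
Proof. Put `ε = κ2/2^(k+6)` (and `≤ 1`), `θ = 1/2^(2^k + 1)`.  `StCov` with `κ2/4` gives `K`; `StCub` with
`c = c1/(4K)` gives `T0`; `P0 = max T0 2`.  Given `P1`: `M0 = 2 P1`, `B1` from `StRel`.
`S` is not empty and a nonzero coefficient exists, so `A ≤ B'`, `|A|, |B'| ≤ N`.
Put `Z_t = 3N/t`.  For `p = (q,t) ∈ S` let `α_p = t * al w t (x + q.d) d`, so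
`κ2 Z_t ≤ ‖CK k (ct f I_t) I_t h α_p‖`, `I_t = [cl A t, B/t]`.  By `StClo`
(`|cl A t - cl A T|, |B/t - B/T| ≤ E := ⌈ε N/T⌉ + 1`, because `N/T - N/t ≤ ε N/T`)
`‖CK k (ct f I_T) I_T h α_p‖ ≥ κ2 Z_t - 2^(k+2) (ε N/T + 2) ≥ (κ2/2) Z_t ≥ (κ2/4) Z_T` for `N` large
(`t ≤ 2T`).  `StCov` for `G = DK k (ct f I_T) h` (`StBas`), `I_T`, `Z_T`: `α_p` is within
`η = 2/((κ2/4)^2 Z_T) ≤ C1/N` of one of `σ_1..σ_K` modulo 1.  Take the most popular `i`: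
`S_i ⊆ S`, `|S_i| ≥ (c1/K) |Pn| T^k ≥ (c1/(2K)) T^(k+1-θ)`.  `StCub` gives the cube in `S_i`.
`StRel` with `W(p) = w (x + p.d)`, `σ = σ_i`: indeed for the point `E` of the cube, with
`m = t + ∑ a`, `q_E`: `al w m (x + q_E.d) d = ∑_u sg u W(q_E + m [u])` (`x i + (q_E i + [u i] m) d i`).
So `nd (M σ_i) ≤ B1 C1/N`, `1 ≤ M ≤ B1`.  For the point `p` with `E = ∅`:
`nd (M α_p) ≤ nd (M σ_i) + M nd (α_p - σ_i) ≤ 2 B1 C1/N = C/N`. -/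
def StOne : Prop :=
  ∀ (k : ℕ) (c1 κ2 : ℝ), 0 < c1 → 0 < κ2 → ∃ (ε θ : ℝ) (P0 : ℕ), 0 < ε ∧ ε ≤ 1 ∧ 0 < θ ∧ θ < 1 ∧
    2 ≤ P0 ∧ ∀ P1 : ℕ, P0 ≤ P1 → ∃ (B : ℕ) (C : ℝ) (N0 : ℕ), ∀ N : ℕ, N0 ≤ N →
    ∀ f : ℤ → ℂ, (∀ n, ‖f n‖ ≤ 1) → ∀ (A B' : ℤ) (h x d : Fin k → ℤ) (w : (Fin k → ℤ) → ℝ)
      (T : ℕ) (Pn : Finset ℕ) (S : Finset ((Fin k → ℤ) × ℤ)), -(N : ℤ) ≤ A → B' ≤ N →
      P0 ≤ T → T ≤ P1 → (∀ t ∈ Pn, T ≤ t ∧ t ≤ P1 ∧ (t : ℝ) ≤ (1 + ε) * T) →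
      (T : ℝ) ^ (1 - θ) ≤ 2 * Pn.card → c1 * Pn.card * (T : ℝ) ^ k ≤ S.card →
      (∀ p ∈ S, (∀ i, 0 ≤ p.1 i ∧ p.1 i < T) ∧ ∃ t ∈ Pn, p.2 = t ∧
        κ2 * (3 * N / t) ≤ ‖CK k (ct f (cl A t) (B' / t)) (cl A t) (B' / t) h
          (t * al w t (fun i => x i + p.1 i * d i) d)‖) →
      ∃ t ∈ Pn, ∃ (α : ℝ) (M : ℕ), 1 ≤ M ∧ M ≤ B ∧ nd (M * α) ≤ C / N ∧
        κ2 * (3 * N / t) ≤ ‖CK k (ct f (cl A t) (B' / t)) (cl A t) (B' / t) h α‖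

/-- [Mn] MEDIUM-HARD, MAIN ASSEMBLY.  Uses `StSt0`, `StBad`, `StSel`, `StPDk`, `StCnt`, `StOne`,
`StBas`.
Proof.  `k ≥ 1`, wlog `δ ≤ 1`.
(0) `δ1` from `StSt0` (for `k`, `δ`).  `κa = δ1^3/72`; `StPDk` for `κa` gives `κb`;
`κ2 = (κb/(2 * 9^k))^(1/2)`, `c = κb/2`.  `StOne` for `c1 = c/(2 * 15^k)`, `κ2` gives `ε, θ, P0`.
`StSel` for `ε, θ, C0 = 64/δ1^2, P0` gives `P1`.  `Ps` = primes in `[P0,P1]`, `Q = ∏ Ps`.  `StOne`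
gives `B0, C, N0` for this `P1`.  `B = max B0 P1`.
(1) `StSt0` gives `R1 ⊆ bk k X`, `X = N / Q`, `|R1| ≥ δ1 X^k`, and `w r` with
`δ1 N ≤ ‖CK k (ct f A B) A B (Q H r) (w r)‖` for `r ∈ R1`.
(2) `bad t r` : `‖CK k (ct f I_t) I_t ((Q H r)/t) (t w r)‖ < (δ1/2) N/t`.  By `StBad` (all `q ∈ Ps` divide
`Q`) `∑_{bad} 1/t ≤ C0`.  `StSel` (`R = R1`, nonempty): `T`, `Pn`; for `t ∈ Pn` the set
`Rt = {r ∈ R1 : not bad}` has `|Rt| ≥ |R1|/2`.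
(3) `D = X / (4 P1)` (natural division, `≥ 1` for `N` large; `P1 D ≤ X`).  For `t ∈ Pn`: `StPDk` for
`F = ct f I_t`, `Z = 3N/t` (`I_t` has at most `2N/t + 1 ≤ 3N/t` integers), `X, D, t`, `b = 0`,
`g i = Q H i / t` (exact division; `g i * r i = (Q H i r i)/t`), `w' = t w`, `R = Rt`:
`∑_{Rt} ‖CK‖^2 ≥ (δ1/2) X^k (δ1/2)^2 N^2/t^2 = κa X^k Z^2`.  So
`κb X^k D^k Z^2 ≤ ∑_{d ∈ bk k D} ∑_r ‖CK k F (t g d) (al w' t r d)‖^2`, `t g_i d_i = Q H_i d_i`,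
`al w' t r d = t * al w t r d`.  `Gt t` = the pairs `(r,d)`, `r ∈ Rt`, `d ∈ bk k D`, all corners in `Rt`,
with `κ2 Z ≤ ‖CK‖`.  Pairs not in `Gt t` contribute at most `(3X)^k (3D)^k κ2^2 Z^2 =
(κb/2) X^k D^k Z^2`, each other pair at most `Z^2`, so `|Gt t| ≥ c X^k D^k`.
(4) `StCnt` (`T D ≤ X`): `E ⊆ bk k D`, `|E| ≥ c/(2 * 5^k) D^k`, and for `d ∈ E` some `x` and `S` with
`|S| ≥ c1 |Pn| T^k`.  `StOne` with `h = Q H d`: `t ∈ Pn`, `α`, `M` for every `d ∈ E`.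
(5) Pigeonhole over `t ≤ P1`: some `t` is used for at least `|E|/P1` elements `d`; `D ≥ X/(8 P1) ≥
N/(16 Q P1)`, `|d i| ≤ D ≤ N`, `κ2 * 3N/t ≥ (κ2/P1) N`.  `κ = min` of the two constants. -/
def StMn : Prop :=
  ∀ (k : ℕ) (H : Fin k → ℤ) (δ : ℝ), 1 ≤ k → (∀ i, H i ≠ 0) → 0 < δ →
    ∃ (Q B : ℕ) (κ C : ℝ) (N0 : ℕ), 1 ≤ Q ∧ 1 ≤ B ∧ 0 < κ ∧ ∀ N : ℕ, N0 ≤ N →
    ∀ f : ℤ → ℂ, CM f → ∀ A B' : ℤ, -(N : ℤ) ≤ A → B' ≤ N → ∀ R : Finset (Fin k → ℤ),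
      (∀ r ∈ R, ∀ i, |r i| ≤ N) → δ * (N : ℝ) ^ k ≤ R.card →
      (∀ r ∈ R, ∃ a : ℝ, δ * N ≤ ‖CK k (ct f A B') A B' (fun i => H i * r i) a‖) →
      ∃ (t : ℕ) (E : Finset (Fin k → ℤ)), 1 ≤ t ∧ t ≤ B ∧ (∀ d ∈ E, ∀ i, |d i| ≤ N) ∧
        κ * (N : ℝ) ^ k ≤ E.card ∧ ∀ d ∈ E, ∃ (α : ℝ) (M : ℕ), 1 ≤ M ∧ M ≤ B ∧
          nd (M * α) ≤ C / N ∧
          κ * N ≤ ‖CK k (ct f (cl A t) (B' / t)) (cl A t) (B' / t)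
            (fun i => Q * H i * d i) α‖

/-- [Pig] MEDIUM. All frequencies may be taken equal (pigeonhole).
Uses `StND`, `StEE`, `StBas`.
Proof. If `nd (M α) ≤ C/N`, `1 ≤ M ≤ B0`, then for an integer `a`, `0 ≤ a ≤ M` (reduce `α` modulo
1, `CK` has period 1 in `α`) `α = a/M + β`, `|β| ≤ C/N`.  Cut `[-C/N, C/N]` into at most
`⌈80 C/κ⌉ + 1` arcs of length `κ/(40 N)`.  The data (`M`, `a`, arc) take at most `K` values, `K`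
independent of `N`; for at least `|E|/K` of the `d` they are equal; let `α0` be a point of this arc.
`|CK(α) - CK(α0)| ≤ ∑_{n ∈ [A,B]} 2 pi |n| |α - α0| ≤ (2N+1) 2 pi N κ/(40 N) ≤ (κ/2) N`. -/
def StPig : Prop :=
  ∀ (k B0 : ℕ) (κ C : ℝ), 0 < κ → ∃ κ' : ℝ, 0 < κ' ∧ ∀ N : ℕ, 1 ≤ N →
    ∀ (F : ℤ → ℂ) (A B : ℤ) (g : Fin k → ℤ) (E : Finset (Fin k → ℤ)), Sp F A B →
      -(N : ℤ) ≤ A → B ≤ N →
      (∀ d ∈ E, ∃ (α : ℝ) (M : ℕ), 1 ≤ M ∧ M ≤ B0 ∧ nd (M * α) ≤ C / N ∧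
        κ * N ≤ ‖CK k F A B (fun i => g i * d i) α‖) →
      ∃ (α0 : ℝ) (E' : Finset (Fin k → ℤ)), E' ⊆ E ∧ κ' * (E.card : ℝ) ≤ E'.card ∧
        ∀ d ∈ E', κ / 2 * N ≤ ‖CK k F A B (fun i => g i * d i) α0‖

/-- [Red] MEDIUM. One difference less (Parseval in the first coordinate).  Uses `StBas`,
`U3.StCo2`.
Proof. For `d' : Fin k → ℤ` let `E(d') = {d0 : cons d0 d' ∈ E}`.  `∑_{d'} |E(d')| ≥ κ N^(k+1)`,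
`|E(d')| ≤ 3N`, at most `(3N)^k` tails: the set `R'` of the `d'` with `|E(d')| ≥ κ N/(2 * 3^k)` has
at least `(κ/6) N^k` elements.  For `d' ∈ R'` let `G = DK k F (g' d')` (`Sp G A B`).  By `StBas` (6)
`CK (k+1) F A B (g d) α0 = ∑_n G(n + g0 d0) conj(G n) e(-α0 n) = ∑_n G(n + j) conj(u n)`,
`u n = G n e(α0 n)`, `j = g0 d0`.  If all Fourier coefficients of `G` were `< κ' N` then `StCo2`
(`u := G`, `w := u`, `σ = κ' N`; shifts `|j| > 2N` give `0`; the `j` are distinct as `g0 ≠ 0`) gives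
`(κ N/(2 * 3^k)) (κ N)^2 ≤ ∑_j |..|^2 ≤ κ'^2 N^2 (2N+1) ≤ 3 κ'^2 N^3`: false for `κ'^2 =
κ^3/(12 * 3^k)`, `κ' ≤ κ/6` (take the minimum).  A Fourier coefficient of `G` is
`CK k F A B (g' d') a`. -/
def StRed : Prop :=
  ∀ (k : ℕ) (κ : ℝ), 0 < κ → ∃ κ' : ℝ, 0 < κ' ∧ ∀ N : ℕ, 1 ≤ N →
    ∀ (F : ℤ → ℂ) (A B : ℤ) (g : Fin (k + 1) → ℤ) (α0 : ℝ) (E : Finset (Fin (k + 1) → ℤ)),
      Sp F A B → -(N : ℤ) ≤ A → B ≤ N → (∀ i, g i ≠ 0) → (∀ d ∈ E, ∀ i, |d i| ≤ N) →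
      κ * (N : ℝ) ^ (k + 1) ≤ E.card →
      (∀ d ∈ E, κ * N ≤ ‖CK (k + 1) F A B (fun i => g i * d i) α0‖) →
      ∃ R' : Finset (Fin k → ℤ), (∀ r ∈ R', ∀ i, |r i| ≤ N) ∧ κ' * (N : ℝ) ^ k ≤ R'.card ∧
        ∀ r ∈ R', ∃ a : ℝ, κ' * N ≤ ‖CK k F A B (fun i => g i.succ * r i) a‖

/-- [Ak0] EASY. `k = 0`, from `U3.StKat` (`U3.u_Kat`).
Proof. `CK 0 (ct f A B) A B h a = ∑_{[A,B]} f(n) e(-a n)`; `StKat` for `t = -a` and `min(δ,1)/2`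
shows that it is `≤ (min(δ,1)/2) N < δ N` for `N ≥ max(N0,1)`, so `R` is empty and
`0 < δ * N^0`. -/
def StAk0 : Prop := ∀ f : ℤ → ℂ, CM f → Aper f → Ak f 0

/-- [U] EASY-MEDIUM. THEOREM U.  Uses `StMn`, `StPig`, `StRed`, `StAk0`.
Proof. Induction on `k`; `Ak f 0` is [Ak0].  Suppose `Ak f k` and let `H : Fin (k+1) → ℤ`, `δ`.
`StMn` for `k + 1` gives `Q, B0, κ, C, N0`; `StPig` (for `k+1`, `B0`, `κ`, `C`) gives `κ1`, `StRed`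
for `min (κ1 κ) (κ/2)` gives `κ2`.  `Ak f k` for the steps `Q H (i.succ)` and `κ2` gives `N1`.  Let
`N ≥ max(N0, N1, 1)` and `R` with `|R| ≥ δ N^(k+1)`: [Mn] gives `t, E`; `F = ct f I_t`,
`I_t = [cl A t, B/t] ⊆ [-N,N]`; [Pig] with `g i = Q H i` gives `α0, E'`; [Red] gives `R'` with
`|R'| ≥ κ2 N^k`, against `Ak f k` for the interval `I_t`. -/
def StUU : Prop := StU

/-- [Vm] MEDIUM. VAN DER CORPUT, `k + 3` forms.  Uses `U3.StCS2`, `U3.StSup`, `U3.StThr` (compare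
`U3/I_VN.lean`).
Proof. Induction on `k`.  `k = 0` is `StThr` (`R` = the one point set).  Step: `c i = dt (L last)
(L i)`.  `StCS2` with `T N` for `T`, `S = N`, `e = pp (L 0)`, `φ v = F 0 (L0 v)`,
`F v = ∏_{i ≥ 1} F_i (L_i v)` (supported in `bx (T N)` by `StSup`): `N δ^2 N^4 ≤ (4TN+1)^2 ∑_{|d| ≤ N}
‖E_d‖`, `E_d = ∑_v ∏_{i ≥ 1} (D1 (d * dt (L i) (L 0)) F_i)(L_i v)`.  As `‖E_d‖ ≤ (2TN+1)^2 ≤
9 T^2 N^2`, at least `δ2 N` of the `d` have `‖E_d‖ ≥ δ2 N^2`, `δ2 = δ^2/(1000 T^4)` or so.  For these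
apply the induction hypothesis to `L 1, .., L (k+3)` and the functions `D1 (..) F_i` (`Bdd N`):
sets `R_d`.  `R = {cons d r' : r' ∈ R_d}`; `DK (k+1) F (cons h0 h') = DK k (D1 h0 F) h'`. -/
def StVm : Prop :=
  ∀ (k : ℕ) (L : Fin (k + 3) → ℤ × ℤ), (∀ i j, i ≠ j → dt (L i) (L j) ≠ 0) →
    ∀ T : ℕ, (∑ i, sz (L i)) ≤ T → ∀ δ : ℝ, 0 < δ → ∃ δ' : ℝ, 0 < δ' ∧ ∀ N : ℕ, 1 ≤ N →
      ∀ F : Fin (k + 3) → ℤ → ℂ, (∀ i, Bdd N (F i)) →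
        δ * (N : ℝ) ^ 2 ≤ ‖∑ v ∈ bx (T * N), ∏ i, F i (lf (L i) v)‖ →
        ∃ R : Finset (Fin k → ℤ), (∀ r ∈ R, ∀ i, |r i| ≤ N) ∧ δ' * (N : ℝ) ^ k ≤ R.card ∧
          ∀ r ∈ R, ∃ a : ℝ, δ' * N ≤ ‖∑ n ∈ Finset.Icc (-(N : ℤ)) N,
            DK k (F (Fin.last (k + 2)))
              (fun i => dt (L (Fin.last (k + 2))) (L (Fin.castLE (by omega) i)) * r i) n *
                ee (-(a * n))‖

/-- [Tm] EASY-MEDIUM. THEOREM T.  Uses `StU`, `StVm`, `StBas`.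
Proof. `m = k + 2`.  Let `δ = ε`, `δ'` from [Vm].  `Ak g k` for the steps
`H i = dt (L last) (L i) ≠ 0` and `δ'` gives `N0`.  If the sum were `> ε N^2`: [Vm] for
`F i = f i` (`i < m`) and the last function `ct g A B` (`Bdd N`, `‖g‖ ≤ 1`) gives `R` with
`|R| ≥ δ' N^k`; the sums over `[-N,N]` are `CK k (ct g A B) A B (H r) a` (derivatives vanish outside
`[A,B]`), a contradiction. -/
def StTT : Prop := StT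

end Pool.Agent.US
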